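import Pool.Agent.NSA.Const

/-!
helper26: weights for which disjoint parts of the graph have no common nonzero eigenvalue, and
weights for which given trees have the common eigenvalue `1` (zero potential).
-/

set_option autoImplicit false
set_option linter.unusedSectionVars false
set_option linter.deprecated false
set_option linter.unusedVariables false

namespace Pool.Agent.NSA

open scoped ENNReal ComplexConjugate
open Filter Topology Classical Finset

noncomputable section

variable {V D : Type*} [Fintype V] [Fintype D] {G : Gr V D}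
variable {v0 : V} {b : V → ℂ} {a : D → ℂ} {lam : ℂ}

/-- the block on `C` -/
def TB (G : Gr V D) (b : V → ℂ) (a : D → ℂ) (C : Finset V) : Module.End ℂ (V → ℂ) where
  toFun f y := if y ∈ C then b y * f y +
    ∑ d ∈ univ.filter (fun d => G.s d = y), a d * f (G.t d) else 0
  map_add' f f' := by
    funext y
    simp only [Pi.add_apply, mul_add, Finset.sum_add_distrib]
    split_ifs
    · ring
    · simp
  map_smul' c f := by
    funext y
    simp only [Pi.smul_apply, smul_eq_mul, RingHom.id_apply]
    have e1 : ∑ d ∈ univ.filter (fun d => G.s d = y), a d * (c * f (G.t d)) =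
        c * ∑ d ∈ univ.filter (fun d => G.s d = y), a d * f (G.t d) := by
      rw [Finset.mul_sum]
      exact Finset.sum_congr rfl (fun d _ => by ring)
    rw [e1]
    split_ifs
    · ring
    · simp

theorem TB_in {C : Finset V} {y : V} (hy : y ∈ C) (f : V → ℂ) : TB G b a C f y = b y * f y +
    ∑ d ∈ univ.filter (fun d => G.s d = y), a d * f (G.t d) := if_pos hy

theorem TB_out {C : Finset V} {y : V} (hy : y ∉ C) (f : V → ℂ) : TB G b a C f y = 0 := if_neg hy

theorem eig_finite (C : Finset V) : {lam : ℂ | G.Eig b a lam C}.Finite := by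
  refine (Module.End.finite_hasEigenvalue (TB G b a C)).subset ?_
  rintro lam ⟨f, ⟨x0, hx0⟩, hz, he⟩
  refine Module.End.hasEigenvalue_of_hasEigenvector (x := f) ⟨?_, ?_⟩
  · rw [Module.End.mem_eigenspace_iff]
    funext y
    by_cases hy : y ∈ C
    · rw [TB_in hy, he y hy]; rfl
    · rw [TB_out hy, Pi.smul_apply, hz y hy, smul_zero]
  · intro h
    exact hx0 (congrFun h x0)

/-- cutting off -/
def cutL (C : Finset V) : Module.End ℂ (V → ℂ) where
  toFun f y := if y ∈ C then f y else 0
  map_add' f f' := by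
    funext y
    simp only [Pi.add_apply]
    split_ifs <;> simp
  map_smul' c f := by
    funext y
    simp only [Pi.smul_apply, smul_eq_mul, RingHom.id_apply]
    split_ifs <;> simp

theorem cutL_eq {C : Finset V} {f : V → ℂ} (hf : ∀ x, x ∉ C → f x = 0) : cutL C f = f := by
  funext y
  show (if y ∈ C then f y else 0) = f y
  split_ifs with h
  · rfl
  · rw [hf y h]

theorem fin_x (p : D → ℂ) (C : Finset V) (hno : ¬ G.Eig b a lam C) :
    {x : ℂ | G.Eig b (fun d => a d + x * p d) lam C}.Finite := by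
  set N : Module.End ℂ (V → ℂ) := TB G b a C ∘ₗ cutL C - lam • cutL C + cutL Cᶜ with hN
  have hNf : ∀ f y, N f y = TB G b a C (cutL C f) y - lam * cutL C f y + cutL Cᶜ f y := by
    intro f y; rfl
  have hc1 : ∀ (f : V → ℂ) y, y ∈ C → cutL C f y = f y := fun f y h => if_pos h
  have hc2 : ∀ (f : V → ℂ) y, y ∉ C → cutL C f y = 0 := fun f y h => if_neg h
  have hc3 : ∀ (f : V → ℂ) y, y ∈ C → cutL Cᶜ f y = 0 := fun f y h => if_neg (by simpa using h)
  have hc4 : ∀ (f : V → ℂ) y, y ∉ C → cutL Cᶜ f y = f y := fun f y h => if_pos (by simpa using h)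
  have hinj : Function.Injective N := by
    rw [injective_iff_map_eq_zero]
    intro f hf
    by_contra hne
    have hz : ∀ y, y ∉ C → f y = 0 := by
      intro y hy
      have := congrFun hf y
      rw [hNf, TB_out hy, hc2 f y hy, hc4 f y hy, mul_zero, sub_zero, zero_add] at this
      exact this
    apply hno
    obtain ⟨x0, hx0⟩ := Function.ne_iff.1 hne
    refine ⟨f, ⟨x0, hx0⟩, hz, fun y hy => ?_⟩
    have := congrFun hf y
    rw [hNf, cutL_eq hz, hc3 f y hy, TB_in hy, add_zero] at this
    exact sub_eq_zero.1 this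
  set e := LinearEquiv.ofInjectiveEndo N hinj with he
  have hef : ∀ f, e f = N f := fun f => rfl
  set P : Module.End ℂ (V → ℂ) := TB G (fun _ => 0) p C with hP
  set Q : Module.End ℂ (V → ℂ) := e.symm.toLinearMap ∘ₗ P with hQ
  refine ((Module.End.finite_hasEigenvalue Q).image (fun μ => -μ⁻¹)).subset ?_
  rintro x ⟨f, ⟨x0, hx0⟩, hz, hfe⟩
  have hx : x ≠ 0 := by
    rintro rfl
    apply hno
    refine ⟨f, ⟨x0, hx0⟩, hz, fun y hy => ?_⟩
    rw [← hfe y hy]
    simp
  have h1 : N f = -(x • P f) := by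
    funext y
    by_cases hy : y ∈ C
    · rw [hNf, cutL_eq hz, hc3 f y hy, TB_in hy, add_zero, Pi.neg_apply, Pi.smul_apply, hP,
        TB_in hy, smul_eq_mul]
      have h2 := hfe y hy
      have h3 : ∑ d ∈ univ.filter (fun d => G.s d = y), (a d + x * p d) * f (G.t d) =
          ∑ d ∈ univ.filter (fun d => G.s d = y), a d * f (G.t d) +
          x * ∑ d ∈ univ.filter (fun d => G.s d = y), p d * f (G.t d) := by
        rw [Finset.mul_sum, ← Finset.sum_add_distrib]
        exact Finset.sum_congr rfl (fun d _ => by ring)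
      rw [h3] at h2
      linear_combination h2
    · rw [hNf, TB_out hy, hc2 f y hy, hc4 f y hy, hz y hy, Pi.neg_apply, Pi.smul_apply, hP,
        TB_out hy]
      simp
  refine ⟨-x⁻¹, ?_, ?_⟩
  · refine Module.End.hasEigenvalue_of_hasEigenvector (x := f) ⟨?_, ?_⟩
    · rw [Module.End.mem_eigenspace_iff]
      show e.symm (P f) = -x⁻¹ • f
      rw [LinearEquiv.symm_apply_eq, map_smul, hef, h1, smul_neg, neg_smul, neg_neg, smul_smul,
        inv_mul_cancel₀ hx, one_smul]
    · intro h
      exact hx0 (congrFun h x0)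
  · show -(-x⁻¹)⁻¹ = x
    rw [inv_neg, inv_inv, neg_neg]

theorem eig_unch {p : D → ℂ} {C : Finset V} (hp : ∀ d, p d ≠ 0 → G.s d ∈ C → G.t d ∉ C) {x : ℂ}
    (h : G.Eig b (fun d => a d + x * p d) lam C) : G.Eig b a lam C := by
  obtain ⟨f, h0, hz, he⟩ := h
  refine ⟨f, h0, hz, fun y hy => ?_⟩
  rw [← he y hy]
  congr 1
  refine Finset.sum_congr rfl (fun d hd => ?_)
  have hd1 : G.s d = y := (Finset.mem_filter.1 hd).2
  show a d * f (G.t d) = (a d + x * p d) * f (G.t d)
  by_cases h1 : p d = 0
  · rw [h1]; ring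
  · rw [hz _ (hp d h1 (hd1 ▸ hy))]; ring

theorem pair_fin {p : D → ℂ} {d0 : D} (hp : ∀ d, p d ≠ 0 → d = d0 ∨ d = G.r d0)
    {C C' : Finset V} (hd : Disjoint C C')
    (ih : ∀ lam : ℂ, lam ≠ 0 → ¬ (G.Eig b a lam C ∧ G.Eig b a lam C')) :
    {x : ℂ | ∃ lam : ℂ, lam ≠ 0 ∧ G.Eig b (fun d => a d + x * p d) lam C ∧
      G.Eig b (fun d => a d + x * p d) lam C'}.Finite := by
  have key : ∀ C C' : Finset V, Disjoint C C' →
      (∀ lam : ℂ, lam ≠ 0 → ¬ (G.Eig b a lam C ∧ G.Eig b a lam C')) →
      G.s d0 ∈ C → G.t d0 ∈ C → {x : ℂ | ∃ lam : ℂ, lam ≠ 0 ∧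
        G.Eig b (fun d => a d + x * p d) lam C ∧
        G.Eig b (fun d => a d + x * p d) lam C'}.Finite := by
    intro C C' hd ih hs ht
    have h1 : ({lam : ℂ | G.Eig b a lam C'} ∩ {lam | lam ≠ 0}).Finite :=
      (eig_finite C').subset Set.inter_subset_left
    refine (h1.biUnion (fun lam hlam => fin_x (G := G) (b := b) (a := a) (lam := lam) p C
      (fun h => ih lam hlam.2 ⟨h, hlam.1⟩))).subset ?_
    rintro x ⟨lam, hl, h2, h3⟩
    rw [Set.mem_iUnion₂]
    refine ⟨lam, ⟨eig_unch ?_ h3, hl⟩, h2⟩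
    intro d hd1 hd2 _
    rcases hp d hd1 with rfl | rfl
    · exact Finset.disjoint_left.1 hd hs hd2
    · exact Finset.disjoint_left.1 hd ht hd2
  by_cases h1 : G.s d0 ∈ C ∧ G.t d0 ∈ C
  · exact key C C' hd ih h1.1 h1.2
  · by_cases h2 : G.s d0 ∈ C' ∧ G.t d0 ∈ C'
    · refine (key C' C hd.symm (fun lam hl h => ih lam hl h.symm) h2.1 h2.2).subset ?_
      rintro x ⟨lam, hl, h3, h4⟩
      exact ⟨lam, hl, h4, h3⟩
    · have : {x : ℂ | ∃ lam : ℂ, lam ≠ 0 ∧ G.Eig b (fun d => a d + x * p d) lam C ∧
          G.Eig b (fun d => a d + x * p d) lam C'} = ∅ := by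
        rw [Set.eq_empty_iff_forall_notMem]
        rintro x ⟨lam, hl, h3, h4⟩
        refine ih lam hl ⟨eig_unch ?_ h3, eig_unch ?_ h4⟩
        · intro d hd1 hd2 hd3
          rcases hp d hd1 with rfl | rfl
          · exact h1 ⟨hd2, hd3⟩
          · rw [G.t_r] at hd3
            exact h1 ⟨hd3, hd2⟩
        · intro d hd1 hd2 hd3
          rcases hp d hd1 with rfl | rfl
          · exact h2 ⟨hd2, hd3⟩
          · rw [G.t_r] at hd3
            exact h2 ⟨hd3, hd2⟩
      rw [this]
      exact Set.finite_empty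

/-- positive symmetric weights without common nonzero eigenvalues of disjoint parts -/
theorem generic_weights (G : Gr V D) : ∃ a : D → ℝ, (∀ d, a (G.r d) = a d) ∧ (∀ d, 0 < a d) ∧
    ∀ C C' : Finset V, Disjoint C C' → ∀ lam : ℂ, lam ≠ 0 →
      ¬ (G.Eig (fun _ => 0) (fun d => (a d : ℂ)) lam C ∧
        G.Eig (fun _ => 0) (fun d => (a d : ℂ)) lam C') := by
  have key : ∀ W : Finset D, ∃ a : D → ℝ, (∀ d, a (G.r d) = a d) ∧ (∀ d, 0 ≤ a d) ∧
      (∀ d ∈ W, 0 < a d) ∧
      ∀ C C' : Finset V, Disjoint C C' → ∀ lam : ℂ, lam ≠ 0 →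
      ¬ (G.Eig (fun _ => 0) (fun d => (a d : ℂ)) lam C ∧
        G.Eig (fun _ => 0) (fun d => (a d : ℂ)) lam C') := by
    intro W
    induction W using Finset.induction_on with
    | empty =>
      refine ⟨fun _ => 0, fun _ => rfl, fun _ => le_rfl, by simp, ?_⟩
      rintro C C' _ lam hl ⟨⟨f, ⟨x0, hx0⟩, hz, he⟩, _⟩
      have hx : x0 ∈ C := by
        by_contra h
        exact hx0 (hz x0 h)
      have h1 := he x0 hx
      simp only [Complex.ofReal_zero, zero_mul, Finset.sum_const_zero, add_zero] at h1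
      exact mul_ne_zero hl hx0 h1.symm
    | insert d0 W _ ih =>
      obtain ⟨a, h1, h2, h3, h4⟩ := ih
      set p : D → ℝ := fun d => if d = d0 ∨ d = G.r d0 then 1 else 0 with hp
      have hpc : ∀ d, (p d : ℂ) ≠ 0 → d = d0 ∨ d = G.r d0 := by
        intro d hd
        by_contra h
        apply hd
        simp only [hp, if_neg h, Complex.ofReal_zero]
      have hbad : {x : ℂ | ∃ C C' : Finset V, Disjoint C C' ∧ ∃ lam : ℂ, lam ≠ 0 ∧
          G.Eig (fun _ => 0) (fun d => (a d : ℂ) + x * (p d : ℂ)) lam C ∧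
          G.Eig (fun _ => 0) (fun d => (a d : ℂ) + x * (p d : ℂ)) lam C'}.Finite := by
        refine (Set.finite_iUnion (fun q : {q : Finset V × Finset V // Disjoint q.1 q.2} =>
          pair_fin (G := G) (b := fun _ => 0) (a := fun d => (a d : ℂ)) (p := fun d => (p d : ℂ))
            hpc q.2 (h4 _ _ q.2))).subset ?_
        rintro x ⟨C, C', hd, hx⟩
        rw [Set.mem_iUnion]
        exact ⟨⟨(C, C'), hd⟩, hx⟩
      have hinf : (Set.Ioi (0 : ℝ)).Infinite := Set.Ioi_infinite 0
      have hfin : ((fun x : ℝ => (x : ℂ)) ⁻¹' {x : ℂ | ∃ C C' : Finset V, Disjoint C C' ∧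
          ∃ lam : ℂ, lam ≠ 0 ∧
          G.Eig (fun _ => 0) (fun d => (a d : ℂ) + x * (p d : ℂ)) lam C ∧
          G.Eig (fun _ => 0) (fun d => (a d : ℂ) + x * (p d : ℂ)) lam C'}).Finite :=
        hbad.preimage Complex.ofReal_injective.injOn
      obtain ⟨x, hx0, hx1⟩ := hinf.exists_notMem_finite hfin
      have hx0' : 0 < x := hx0
      have hp0 : ∀ d, 0 ≤ p d := by
        intro d
        simp only [hp]
        split_ifs <;> norm_num
      refine ⟨fun d => a d + x * p d, ?_, ?_, ?_, ?_⟩
      · intro d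
        have : p (G.r d) = p d := by
          have hiff : (G.r d = d0 ∨ G.r d = G.r d0) ↔ (d = d0 ∨ d = G.r d0) := by
            constructor
            · rintro (h | h)
              · right; rw [← h, G.rr]
              · left
                have := congrArg G.r h
                rwa [G.rr, G.rr] at this
            · rintro (h | h)
              · right; rw [h]
              · left; rw [h, G.rr]
          simp only [hp, hiff]
        show a (G.r d) + x * p (G.r d) = a d + x * p d
        rw [h1, this]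
      · intro d
        have := h2 d
        have := hp0 d
        positivity
      · intro d hd
        rcases Finset.mem_insert.1 hd with rfl | hd
        · have h5 := h2 d
          have h6 : p d = 1 := if_pos (Or.inl rfl)
          show 0 < a d + x * p d
          rw [h6]; linarith
        · have h5 := h3 d hd
          have h6 := hp0 d
          show 0 < a d + x * p d
          have := mul_nonneg hx0'.le h6
          linarith
      · intro C C' hd lam hl hcon
        apply hx1
        refine ⟨C, C', hd, lam, hl, ?_⟩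
        simpa using hcon
  obtain ⟨a, h1, _, h3, h4⟩ := key univ
  exact ⟨a, h1, fun d => h3 d (mem_univ d), h4⟩

end

end Pool.Agent.NSA
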