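import Pool.Agent.NSA.Adj

/-!
helper26: weighted adjacency operators (zero potential): for which graphs the existence of a point
eigenvalue does not depend on the weights; and the same for fixed weights and varying potential.
-/

set_option autoImplicit false
set_option linter.unusedSectionVars false
set_option linter.deprecated false
set_option linter.unusedVariables false

namespace Pool.Agent.NSA

open scoped ENNReal ComplexConjugate
open Filter Topology Classical Finset

noncomputable section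

variable {V D : Type*} [Fintype V] [Fintype D] {G : Gr V D}
variable {v0 : V} {b : V → ℂ} {a : D → ℂ} {lam : ℂ}

/-- weights for which the given trees have the common eigenvalue `1` -/
theorem weights_one (T : Finset (Finset V)) (hdisj : ∀ C ∈ T, ∀ C' ∈ T, ∀ x, x ∈ C → x ∈ C' → C = C')
    (htree : ∀ C ∈ T, G.IsTree C) (h2 : ∀ C ∈ T, 1 < C.card) :
    ∃ a : D → ℝ, (∀ d, a (G.r d) = a d) ∧ (∀ d, 0 < a d) ∧
      ∀ C ∈ T, G.Eig (fun _ => 0) (fun d => (a d : ℂ)) 1 C := by
  obtain ⟨R, hR⟩ : ∃ R : D → Prop, ∀ d, R d ↔ ∃ C ∈ T, G.s d ∈ C ∧ G.t d ∈ C :=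
    ⟨fun d => ∃ C ∈ T, G.s d ∈ C ∧ G.t d ∈ C, fun _ => Iff.rfl⟩
  have hRr : ∀ d, R (G.r d) ↔ R d := by
    intro d
    rw [hR, hR]
    constructor
    · rintro ⟨C, hC, h3, h4⟩
      rw [G.t_r] at h4
      exact ⟨C, hC, h4, h3⟩
    · rintro ⟨C, hC, h3, h4⟩
      refine ⟨C, hC, h4, ?_⟩
      rw [G.t_r]; exact h3
  set n : V → ℝ := fun x => ((univ.filter (fun d => G.s d = x ∧ R d)).card : ℝ) with hn
  have hnpos : ∀ d, R d → 0 < n (G.s d) := by
    intro d hd
    simp only [hn]
    have h3 : 0 < (univ.filter (fun e => G.s e = G.s d ∧ R e)).card :=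
      Finset.card_pos.2 ⟨d, Finset.mem_filter.2 ⟨mem_univ _, rfl, hd⟩⟩
    exact_mod_cast h3
  have hnpos' : ∀ d, R d → 0 < n (G.t d) := by
    intro d hd
    exact hnpos (G.r d) ((hRr d).2 hd)
  refine ⟨fun d => if R d then (√(n (G.s d)) * √(n (G.t d)))⁻¹ else 1, ?_, ?_, ?_⟩
  · intro d
    show (if R (G.r d) then (√(n (G.s (G.r d))) * √(n (G.t (G.r d))))⁻¹ else 1) =
      (if R d then (√(n (G.s d)) * √(n (G.t d)))⁻¹ else 1)
    rw [G.t_r]
    by_cases h : R d
    · rw [if_pos h, if_pos ((hRr d).2 h), mul_comm]; rfl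
    · rw [if_neg h, if_neg (fun h' => h ((hRr d).1 h'))]
  · intro d
    show 0 < (if R d then (√(n (G.s d)) * √(n (G.t d)))⁻¹ else 1)
    split_ifs with h
    · have h3 := Real.sqrt_pos.2 (hnpos d h)
      have h4 := Real.sqrt_pos.2 (hnpos' d h)
      positivity
    · exact one_pos
  · intro C hC
    set f : V → ℝ := fun y => if y ∈ C then √(n y) else 0 with hf
    have hnC : ∀ x ∈ C, 0 < n x := by
      intro x hx
      obtain ⟨y, hy, hxy⟩ := Finset.exists_mem_ne (h2 C hC) x
      obtain ⟨l, hl⟩ := (htree C hC).conn x hx y hy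
      cases l with
      | nil => exact absurd (walk_nil.1 hl).1.symm hxy
      | cons d l =>
        obtain ⟨h3, _, h5⟩ := walk_cons.1 hl
        rw [← h3]
        exact hnpos d ((hR d).2 ⟨C, hC, by rw [h3]; exact hx, h5.memL⟩)
    obtain ⟨x0, hx0⟩ := (htree C hC).nonempty
    refine ⟨fun y => ((f y : ℝ) : ℂ), ⟨x0, ?_⟩, ?_, ?_⟩
    · have h3 : 0 < f x0 := by
        simp only [hf, if_pos hx0]
        exact Real.sqrt_pos.2 (hnC x0 hx0)
      show ((f x0 : ℝ) : ℂ) ≠ 0
      exact_mod_cast h3.ne'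
    · intro x hx
      show ((f x : ℝ) : ℂ) = 0
      simp only [hf, if_neg hx, Complex.ofReal_zero]
    · intro x hx
      have h3 : ∑ d ∈ univ.filter (fun d => G.s d = x),
          (if R d then (√(n (G.s d)) * √(n (G.t d)))⁻¹ else 1) * f (G.t d) = f x := by
        have h4 : ∀ d ∈ univ.filter (fun d => G.s d = x),
            (if R d then (√(n (G.s d)) * √(n (G.t d)))⁻¹ else 1) * f (G.t d) =
            if R d then (√(n x))⁻¹ else 0 := by
          intro d hd
          have hd1 : G.s d = x := (Finset.mem_filter.1 hd).2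
          by_cases ht : G.t d ∈ C
          · have h5 : R d := (hR d).2 ⟨C, hC, by rw [hd1]; exact hx, ht⟩
            have h6 := Real.sqrt_pos.2 (hnpos' d h5)
            rw [if_pos h5, if_pos h5, hd1]
            simp only [hf, if_pos ht]
            rw [mul_inv, mul_assoc, inv_mul_cancel₀ h6.ne', mul_one]
          · have h5 : ¬ R d := by
              intro h5
              obtain ⟨C', hC', h6, h7⟩ := (hR d).1 h5
              rw [hd1] at h6
              rw [hdisj C' hC' C hC x h6 hx] at h7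
              exact ht h7
            rw [if_neg h5, if_neg h5]
            simp only [hf, if_neg ht, mul_zero]
        rw [Finset.sum_congr rfl h4, ← Finset.sum_filter, Finset.filter_filter,
          Finset.sum_const, nsmul_eq_mul]
        have h5 := Real.sqrt_pos.2 (hnC x hx)
        have h6 : ((univ.filter (fun d => G.s d = x ∧ R d)).card : ℝ) = √(n x) * √(n x) := by
          rw [Real.mul_self_sqrt (hnC x hx).le]
        rw [h6, mul_assoc, mul_inv_cancel₀ h5.ne', mul_one]
        simp only [hf, if_pos hx]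
      have h4 := congrArg (fun z : ℝ => (z : ℂ)) h3
      simp only [Complex.ofReal_sum, Complex.ofReal_mul] at h4
      rw [zero_mul, zero_add, one_mul]
      exact h4

theorem iso_le_TCE (hb : ∀ x, b x = lam) (S : Finset V) :
    (G.iso S).card ≤ (G.TCE b a lam S).card := by
  rw [← Finset.card_image_of_injective (G.iso S)
    (f := fun x : V => ({x} : Finset V)) (Finset.singleton_injective)]
  apply Finset.card_le_card
  intro C hC
  obtain ⟨x, hx, rfl⟩ := Finset.mem_image.1 hC
  exact single_TCE hb hx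

theorem exists_iso (ha : ∀ d, a d ≠ 0) (hb : ∀ x, b x = lam)
    (h : ∃ u : G.Cov v0 → ℂ, G.Sol b a lam u ∧ u ≠ 0) : ∃ S : Finset V, S.card < (G.iso S).card := by
  obtain ⟨u, hu, h0⟩ := exists_sol.1 h
  obtain ⟨v, hv, hv0⟩ := exists_push hu h0
  have h4 := dm_pos (invS_E G b a lam) hv hv0
  obtain ⟨S, hS⟩ := dm_le_iso (G := G) ha hb
  refine ⟨S, ?_⟩
  have h5 : (S.card : ℝ) < (G.iso S).card := by linarith
  exact_mod_cast h5

theorem one_lt_of_eig (hb : ∀ x, b x = 0) (hl : lam ≠ 0) {C : Finset V} (hC : G.IsTree C)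
    (he : G.Eig b a lam C) : 1 < C.card := by
  by_contra hcon
  have h1 : C.card = 1 := by
    have := Finset.card_pos.2 hC.nonempty
    omega
  obtain ⟨x, rfl⟩ := Finset.card_eq_one.1 h1
  obtain ⟨f, ⟨x0, hx0⟩, hz, hfe⟩ := he
  have hx : x0 = x := by
    by_contra h
    exact hx0 (hz x0 (by simpa using h))
  subst hx
  have h2 := hfe x0 (by simp)
  have h3 : ∑ d ∈ univ.filter (fun d => G.s d = x0), a d * f (G.t d) = 0 := by
    refine Finset.sum_eq_zero (fun d hd => ?_)
    have hd1 : G.s d = x0 := (Finset.mem_filter.1 hd).2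
    rw [hz, mul_zero]
    intro ht
    rw [Finset.mem_singleton] at ht
    have h4 := hC.acyc x0 [d] (walk_cons.2 ⟨hd1, by simp, walk_nil.2 ⟨ht, by simp [ht]⟩⟩)
      (G.nb_single d)
    simp at h4
  rw [h3, hb, zero_mul, zero_add] at h2
  exact mul_ne_zero hl hx0 h2.symm

/-- **weighted adjacency operators**: the graphs for which the existence of a point eigenvalue
does not depend on the weights -/
theorem adj_iff (hc : ∀ x z, ∃ l, G.IsWalk univ x l z)
    (hcyc : ∃ x l, G.IsWalk univ x l x ∧ G.NB l ∧ l ≠ []) (v0 : V) :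
    (∀ a a' : D → ℝ, (∀ d, a (G.r d) = a d) → (∀ d, 0 < a d) → (∀ d, a' (G.r d) = a' d) →
      (∀ d, 0 < a' d) → G.HasPt v0 (fun _ => 0) a → G.HasPt v0 (fun _ => 0) a') ↔
    ((∃ S : Finset V, S.card < (G.iso S).card) ∨
      ∀ S : Finset V, ((G.TC S).filter (fun C => 1 < C.card)).card ≤ S.card) := by
  have hcast : ∀ x : V, (fun x : V => (((fun _ => 0 : V → ℝ) x : ℝ) : ℂ)) x = ((0 : ℝ) : ℂ) :=
    fun _ => rfl
  -- eigenvalue zero for all weights
  have hF1 : (∃ S : Finset V, S.card < (G.iso S).card) → ∀ a : D → ℝ, (∀ d, 0 < a d) →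
      G.HasPt v0 (fun _ => 0) a := by
    rintro ⟨S, hS⟩ a hpos
    refine ⟨0, (exists_iff_S hc (fun d => by exact_mod_cast (hpos d).ne') v0).2
      ⟨S, lt_of_lt_of_le hS (iso_le_TCE hcast S)⟩⟩
  -- a nonzero eigenvalue needs nontrivial trees
  have hF3 : ∀ (a : D → ℝ), (∀ d, 0 < a d) → G.HasPt v0 (fun _ => 0) a →
      (∃ S : Finset V, S.card < (G.iso S).card) ∨
      ∃ S : Finset V, S.card < ((G.TC S).filter (fun C => 1 < C.card)).card := by
    rintro a hpos ⟨lam, hu⟩
    by_cases hl : lam = 0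
    · subst hl
      left
      exact exists_iso (fun d => by exact_mod_cast (hpos d).ne') hcast hu
    · right
      obtain ⟨S, hS⟩ := (exists_iff_S hc (fun d => by exact_mod_cast (hpos d).ne') v0).1 hu
      refine ⟨S, lt_of_lt_of_le hS (Finset.card_le_card ?_)⟩
      intro C hC
      obtain ⟨h1, h2⟩ := Finset.mem_filter.1 hC
      refine Finset.mem_filter.2 ⟨h1, ?_⟩
      exact one_lt_of_eig (fun x => by simp) (by exact_mod_cast hl) (mem_TC.1 h1).1 h2
  constructor
  · intro hU
    by_contra hcon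
    push Not at hcon
    obtain ⟨hno, S, hS⟩ := hcon
    -- weights with the eigenvalue one
    set T := (G.TC S).filter (fun C => 1 < C.card) with hT
    obtain ⟨a, ha1, ha2, ha3⟩ := weights_one (G := G) T
      (fun C hC C' hC' x hx hx' => Finset.Subset.antisymm
        (comp_sub (Finset.mem_filter.1 hC').1 (Finset.mem_filter.1 hC).1 hx' hx)
        (comp_sub (Finset.mem_filter.1 hC).1 (Finset.mem_filter.1 hC').1 hx hx'))
      (fun C hC => (mem_TC.1 (Finset.mem_filter.1 hC).1).1)
      (fun C hC => (Finset.mem_filter.1 hC).2)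
    have h1 : G.HasPt v0 (fun _ => 0) a := by
      refine ⟨1, (exists_iff_S hc (fun d => by exact_mod_cast (ha2 d).ne') v0).2
        ⟨S, lt_of_lt_of_le hS (Finset.card_le_card ?_)⟩⟩
      intro C hC
      refine Finset.mem_filter.2 ⟨(Finset.mem_filter.1 hC).1, ?_⟩
      have := ha3 C hC
      simpa using this
    -- weights without eigenvalue
    obtain ⟨a', hb1, hb2, hb3⟩ := generic_weights G
    obtain ⟨lam, hu⟩ := hU a a' ha1 ha2 hb1 hb2 h1
    by_cases hl : lam = 0
    · subst hl
      obtain ⟨S', hS'⟩ := exists_iso (fun d => by exact_mod_cast (hb2 d).ne') hcast hu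
      exact absurd hS' (not_lt.2 (hno S'))
    · obtain ⟨C, C', hd, h3, h4⟩ := pair_of_exists hc hcyc
        (fun d => by exact_mod_cast (hb2 d).ne') hu
      refine hb3 C C' hd lam (by exact_mod_cast hl) ⟨?_, ?_⟩
      · simpa using h3
      · simpa using h4
  · rintro (h | h) a a' _ ha _ ha' hp
    · exact hF1 h a' ha'
    · rcases hF3 a ha hp with h1 | ⟨S, hS⟩
      · exact hF1 h1 a' ha'
      · exact absurd hS (not_lt.2 (h S))

end

end Pool.Agent.NSA
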