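import Pool.Agent.NSA.Uni

/-!
helper26: families of trees and tree components of `G - S`.
-/

set_option autoImplicit false
set_option linter.unusedSectionVars false
set_option linter.deprecated false
set_option linter.unusedVariables false

namespace Pool.Agent.NSA

open scoped ENNReal ComplexConjugate
open Filter Topology Classical Finset

noncomputable section

variable {V D : Type*} [Fintype V] [Fintype D] {G : Gr V D}
variable {v0 : V} {b : V → ℂ} {a : D → ℂ} {lam : ℂ}

theorem mem_TC {S C : Finset V} : C ∈ G.TC S ↔ G.IsTree C ∧ Disjoint C S ∧ G.nb C ⊆ S := by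
  simp [Gr.TC]

/-- a walk in `C'` from a point of `C` stays in `C` -/
theorem stay_comp {S C C' : Finset V} (hC : G.nb C ⊆ S) (hC' : Disjoint C' S) :
    ∀ (l : List D) (x z : V), G.IsWalk C' x l z → x ∈ C → z ∈ C
  | [], x, z, h, hx => (walk_nil.1 h).1 ▸ hx
  | d :: l, x, z, h, hx => by
      obtain ⟨h1, h2, h3⟩ := walk_cons.1 h
      refine stay_comp hC hC' l (G.t d) z h3 ?_
      by_contra ht
      have h4 : G.t d ∈ G.nb C := G.mem_nb.2 ⟨ht, G.r d, rfl, by rw [G.t_r, h1]; exact hx⟩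
      exact Finset.disjoint_left.1 hC' h3.memL (hC h4)

theorem comp_sub {S C C' : Finset V} (hC : C ∈ G.TC S) (hC' : C' ∈ G.TC S) {x : V}
    (hx : x ∈ C) (hx' : x ∈ C') : C' ⊆ C := by
  intro z hz
  obtain ⟨h1, h2, h3⟩ := mem_TC.1 hC
  obtain ⟨h1', h2', h3'⟩ := mem_TC.1 hC'
  obtain ⟨l, hl⟩ := h1'.conn x hx' z hz
  exact stay_comp h3 h2' l x z hl hx

theorem fam_of_S (S : Finset V) (P : Finset V → Prop) :
    ∃ C : Fin ((G.TC S).filter P).card → Finset V, G.Fam _ C ∧ (∀ i, P (C i)) ∧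
      G.nb (univ.biUnion C) ⊆ S := by
  set T := (G.TC S).filter P with hT
  set e := T.equivFin.symm with he
  have hmem : ∀ i, ((e i : T) : Finset V) ∈ G.TC S := fun i => (Finset.mem_filter.1 (e i).2).1
  have hinj : ∀ i j, ((e i : T) : Finset V) = (e j : T) → i = j := by
    intro i j hij
    exact e.injective (Subtype.ext hij)
  have hdisj : ∀ i j, i ≠ j → Disjoint ((e i : T) : Finset V) (e j : T) := by
    intro i j hij
    rw [Finset.disjoint_left]
    intro x hx hx'
    exact hij (hinj i j (Finset.Subset.antisymm (comp_sub (hmem j) (hmem i) hx' hx)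
      (comp_sub (hmem i) (hmem j) hx hx')))
  refine ⟨fun i => (e i : T), ⟨fun i => (mem_TC.1 (hmem i)).1, hdisj, ?_⟩,
    fun i => (Finset.mem_filter.1 (e i).2).2, ?_⟩
  · intro i j d hij hs ht
    by_cases h : G.t d ∈ ((e i : T) : Finset V)
    · exact Finset.disjoint_left.1 (hdisj i j hij) h ht
    · have h1 : G.t d ∈ G.nb ((e i : T) : Finset V) :=
        G.mem_nb.2 ⟨h, G.r d, rfl, by rw [G.t_r]; exact hs⟩
      exact Finset.disjoint_left.1 (mem_TC.1 (hmem j)).2.1 ht ((mem_TC.1 (hmem i)).2.2 h1)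
  · intro x hx
    obtain ⟨h1, d, h2, h3⟩ := G.mem_nb.1 hx
    obtain ⟨i, _, hi⟩ := Finset.mem_biUnion.1 h3
    refine (mem_TC.1 (hmem i)).2.2 (G.mem_nb.2 ⟨fun h => h1 ?_, d, h2, hi⟩)
    exact Finset.mem_biUnion.2 ⟨i, mem_univ _, h⟩

theorem card_of_fam {k : ℕ} {C : Fin k → Finset V} (hC : G.Fam k C) {P : Finset V → Prop}
    (hP : ∀ i, P (C i)) : k ≤ ((G.TC (G.nb (univ.biUnion C))).filter P).card := by
  have hinj : Function.Injective C := by
    intro i j hij
    by_contra hne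
    obtain ⟨x, hx⟩ := (hC.tree i).nonempty
    exact Finset.disjoint_left.1 (hC.disj i j hne) hx (hij ▸ hx)
  have h1 : univ.image C ⊆ (G.TC (G.nb (univ.biUnion C))).filter P := by
    intro A hA
    obtain ⟨i, _, rfl⟩ := Finset.mem_image.1 hA
    refine Finset.mem_filter.2 ⟨mem_TC.2 ⟨hC.tree i, ?_, ?_⟩, hP i⟩
    · rw [Finset.disjoint_left]
      intro x hx hx'
      exact (G.mem_nb.1 hx').1 (Finset.mem_biUnion.2 ⟨i, mem_univ _, hx⟩)
    · intro x hx
      obtain ⟨h2, d, h3, h4⟩ := G.mem_nb.1 hx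
      refine G.mem_nb.2 ⟨?_, d, h3, Finset.mem_biUnion.2 ⟨i, mem_univ _, h4⟩⟩
      intro h5
      obtain ⟨j, _, hj⟩ := Finset.mem_biUnion.1 h5
      have hji : j ≠ i := by
        rintro rfl
        exact h2 hj
      exact hC.sep j i d hji (by rw [h3]; exact hj) h4
  have h2 := Finset.card_le_card h1
  rwa [Finset.card_image_of_injective _ hinj, Finset.card_univ, Fintype.card_fin] at h2

/-- **a formula of Tutte-Berge type for the dimension of the eigenspace** -/
theorem dim_max (ha : ∀ d, a d ≠ 0) (lift : V → G.Cov v0) (hl : ∀ x, (lift x).1.2 = x) :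
    IsGreatest (Set.range fun S : Finset V => ((G.TCE b a lam S).card : ℝ) - S.card)
      (G.dim lift b a lam) := by
  have h0 := index_max (G := G) (b := b) (lam := lam) ha lift hl
  have hub : ∀ S : Finset V, ((G.TCE b a lam S).card : ℝ) - S.card ≤ G.dim lift b a lam := by
    intro S
    obtain ⟨C, h1, h2, h3⟩ := fam_of_S (G := G) S (fun C => G.Eig b a lam C)
    have h4 := h0.2 ⟨_, C, h1, h2, rfl⟩
    have h5 : ((G.nb (univ.biUnion C)).card : ℝ) ≤ S.card := by
      exact_mod_cast Finset.card_le_card h3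
    have e : G.TCE b a lam S = (G.TC S).filter (fun C => G.Eig b a lam C) := rfl
    rw [e]
    linarith
  constructor
  · obtain ⟨k, C, h1, h2, h3⟩ := h0.1
    refine ⟨G.nb (univ.biUnion C), le_antisymm (hub _) ?_⟩
    have h4 := card_of_fam h1 (P := fun C => G.Eig b a lam C) h2
    have h5 : (k : ℝ) ≤ (G.TCE b a lam (G.nb (univ.biUnion C))).card := by exact_mod_cast h4
    show G.dim lift b a lam ≤ _
    rw [h3]
    linarith
  · rintro m ⟨S, rfl⟩
    exact hub S

theorem exists_iff_S (hc : ∀ x z, ∃ l, G.IsWalk univ x l z) (ha : ∀ d, a d ≠ 0) (v0 : V) :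
    (∃ u : G.Cov v0 → ℂ, G.Sol b a lam u ∧ u ≠ 0) ↔
      ∃ S : Finset V, S.card < (G.TCE b a lam S).card := by
  rw [exists_iff hc ha v0]
  constructor
  · rintro ⟨k, C, h1, h2, h3⟩
    exact ⟨_, lt_of_lt_of_le h3 (card_of_fam h1 (P := fun C => G.Eig b a lam C) h2)⟩
  · rintro ⟨S, hS⟩
    obtain ⟨C, h1, h2, h3⟩ := fam_of_S (G := G) S (fun C => G.Eig b a lam C)
    exact ⟨_, C, h1, h2, lt_of_le_of_lt (Finset.card_le_card h3) hS⟩

theorem no_fam_iff : (¬ ∃ (k : ℕ) (C : Fin k → Finset V), G.Fam k C ∧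
    (G.nb (univ.biUnion C)).card < k) ↔ ∀ S : Finset V, (G.TC S).card ≤ S.card := by
  constructor
  · intro h S
    by_contra hcon
    push Not at hcon
    obtain ⟨C, h1, h2, h3⟩ := fam_of_S (G := G) S (fun _ => True)
    refine h ⟨_, C, h1, lt_of_le_of_lt (Finset.card_le_card h3) ?_⟩
    simpa using hcon
  · rintro h ⟨k, C, h1, h2⟩
    have h3 := (card_of_fam h1 (P := fun C => G.IsTree C) h1.tree).trans
      (Finset.card_le_card (Finset.filter_subset _ _))
    have h4 := h (G.nb (univ.biUnion C))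
    omega

end

end Pool.Agent.NSA
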