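import Pool.Agent.NSA.Comp

/-!
helper26: constant potential. The multiplicity of the eigenvalue `b` does not depend on the
weights.
-/

set_option autoImplicit false
set_option linter.unusedSectionVars false
set_option linter.deprecated false
set_option linter.unusedVariables false

namespace Pool.Agent.NSA

open scoped ENNReal ComplexConjugate
open Filter Topology Classical ContinuousLinearMap Finset

noncomputable section

variable {V D : Type*} [Fintype V] [Fintype D] {G : Gr V D}
variable {v0 : V} {b : V → ℂ} {a : D → ℂ} {lam : ℂ}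

/-- converse of `mem_K` -/
theorem mem_K' {v : HH V (FreeGroup D)} (h : ∀ x ∈ G.X b a lam, ∀ g, b x * conj (v (x, g)) +
      ∑ d ∈ univ.filter (fun d => G.s d = x), a (G.r d) * conj (v (G.t d, g * G.y d)) =
        lam * conj (v (x, g))) : v ∈ G.K b a lam := by
  show adjoint (G.A b a lam) v = 0
  have e : adjoint (G.A b a lam) = adjoint (mulV (ind (G.X b a lam))) *
      adjoint (G.H b a - lam • (1 : HH V (FreeGroup D) →L[ℂ] HH V (FreeGroup D))) :=
    adjoint_comp _ _
  have e1 : adjoint (1 : HH V (FreeGroup D) →L[ℂ] HH V (FreeGroup D)) = 1 := by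
    symm
    rw [eq_adjoint_iff]
    intro x y; rfl
  rw [e, adjoint_mulV, conj_ind, map_sub, adjoint_H, map_smulₛₗ, e1]
  ext ⟨x, g⟩
  show ind (G.X b a lam) x * ((G.H (fun v => conj (b v)) (fun d => conj (a (G.r d))) v) (x, g)
      - conj lam * v (x, g)) = 0
  rw [ind]
  split_ifs with hx
  · rw [one_mul, H_apply, sub_eq_zero]
    have h3 := congrArg conj (h x hx g)
    simpa using h3
  · rw [zero_mul]

/-- a sign which changes along every dart -/
def sg (D : Type*) [Fintype D] (r : D → D) : FreeGroup D →* ℂˣ :=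
  FreeGroup.lift (fun d => if (Fintype.equivFin D d) < (Fintype.equivFin D (r d)) then -1 else 1)

theorem sg_y (d : D) : sg D G.r (G.y d) = -1 := by
  unfold sg Gr.y
  rw [map_mul, map_inv, FreeGroup.lift_apply_of, FreeGroup.lift_apply_of, G.rr]
  have hne : Fintype.equivFin D d ≠ Fintype.equivFin D (G.r d) := fun h =>
    G.rne d ((Fintype.equivFin D).injective h).symm
  rcases lt_or_gt_of_ne hne with h | h
  · rw [if_pos h, if_neg (not_lt.2 h.le)]; simp
  · rw [if_neg (not_lt.2 h.le), if_pos h]; simp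

theorem norm_sg (r : D → D) (g : FreeGroup D) : ‖((sg D r g : ℂˣ) : ℂ)‖ = 1 := by
  have h : ∀ g : FreeGroup D, ((sg D r g : ℂˣ) : ℂ) = 1 ∨ ((sg D r g : ℂˣ) : ℂ) = -1 := by
    intro g
    induction g using FreeGroup.induction_on with
    | C1 => left; simp
    | of d =>
      unfold sg
      rw [FreeGroup.lift_apply_of]
      split_ifs
      · right; simp
      · left; simp
    | inv_of d ih =>
      rw [map_inv]
      rcases ih with ih | ih
      · left
        rw [Units.val_inv_eq_inv_val, ih]; simp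
      · right
        rw [Units.val_inv_eq_inv_val, ih]; norm_num
    | mul x y hx hy =>
      rw [map_mul, Units.val_mul]
      rcases hx with hx | hx <;> rcases hy with hy | hy <;> rw [hx, hy] <;> simp
  rcases h g with h | h <;> rw [h] <;> simp

/-- multiplication by the sign -/
def sv (r : D → D) (v : HH V (FreeGroup D)) : HH V (FreeGroup D) :=
  mulB (fun p : V × FreeGroup D => ((sg D r p.2 : ℂˣ) : ℂ)) 1 (fun p => (norm_sg r p.2).le) v

theorem sv_apply (r : D → D) (v : HH V (FreeGroup D)) (x : V) (g : FreeGroup D) :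
    sv r v (x, g) = ((sg D r g : ℂˣ) : ℂ) * v (x, g) := rfl

theorem sg_mul_y (g : FreeGroup D) (d : D) :
    ((sg D G.r (g * G.y d) : ℂˣ) : ℂ) = -((sg D G.r g : ℂˣ) : ℂ) := by
  rw [map_mul, sg_y]; simp

theorem sv_go (v : HH V (FreeGroup D)) (g : FreeGroup D) (d : D) :
    sv G.r v (G.t d, g * G.y d) = -((sg D G.r g : ℂˣ) : ℂ) * v (G.t d, g * G.y d) := by
  rw [sv_apply, sg_mul_y]

theorem sv_mem (hb : ∀ x, b x = lam) {v : HH V (FreeGroup D)} (hv : v ∈ G.K b a lam) :
    sv G.r v ∈ G.K b a lam := by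
  apply mem_K'
  intro x hx g
  have h := mem_K hv hx g
  rw [hb x] at h ⊢
  rw [sv_apply]
  have h2 : ∑ d ∈ univ.filter (fun d => G.s d = x), a (G.r d) * conj (v (G.t d, g * G.y d)) = 0 := by
    linear_combination h
  have h3 : ∀ d ∈ univ.filter (fun d => G.s d = x),
      a (G.r d) * conj (sv G.r v (G.t d, g * G.y d)) =
      -conj ((sg D G.r g : ℂˣ) : ℂ) * (a (G.r d) * conj (v (G.t d, g * G.y d))) := by
    intro d _
    have e := congrArg conj (sv_go (G := G) v g d)
    rw [map_mul, map_neg] at e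
    linear_combination a (G.r d) * e
  rw [Finset.sum_congr rfl h3, ← Finset.mul_sum, h2]
  ring

/-- with constant potential the elements of `K` have isolated supports -/
theorem isolated (ha : ∀ d, a d ≠ 0) (hb : ∀ x, b x = lam) {v : HH V (FreeGroup D)}
    (hv : v ∈ G.K b a lam) {x : V} (hx : x ∈ G.X b a lam) {g : FreeGroup D}
    (h0 : v (x, g) ≠ 0) (d : D) (hd : G.s d = x) : G.t d ∉ G.X b a lam := by
  intro ht
  have hst : G.stp (G.X b a lam) (x, g) (G.t d, g * G.y d) := ⟨d, hd, hx, ht, rfl⟩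
  have h1 := K_step_pair ha hv (sv_mem hb hv) hst
  have h2 : v (G.t d, g * G.y d) ≠ 0 := fun h => h0 (K_step_zero ha hv (stp_symm hst) h)
  rw [sv_go, sv_apply] at h1
  have h3 : ((sg D G.r g : ℂˣ) : ℂ) ≠ 0 := Units.ne_zero _
  have h4 : (2 : ℂ) * (((sg D G.r g : ℂˣ) : ℂ) * (v (x, g) * v (G.t d, g * G.y d))) = 0 := by
    linear_combination -h1
  have h5 : ((sg D G.r g : ℂˣ) : ℂ) * (v (x, g) * v (G.t d, g * G.y d)) ≠ 0 :=
    mul_ne_zero h3 (mul_ne_zero h0 h2)
  exact mul_ne_zero two_ne_zero h5 h4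

variable (G) in
/-- the isolated vertices of `G - S` -/
def Gr.iso (S : Finset V) : Finset V := univ.filter (fun x => x ∉ S ∧ ∀ d, G.s d = x → G.t d ∈ S)

theorem mem_iso {S : Finset V} {x : V} : x ∈ G.iso S ↔ x ∉ S ∧ ∀ d, G.s d = x → G.t d ∈ S := by
  simp [Gr.iso]

theorem dm_le_iso (ha : ∀ d, a d ≠ 0) (hb : ∀ x, b x = lam) :
    ∃ S : Finset V, dm (G.E b a lam) ≤ ((G.iso S).card : ℝ) - S.card := by
  set X := G.X b a lam with hX
  set X' : Finset V := X.filter (fun x => ∃ v ∈ G.K b a lam, ∃ g, v (x, g) ≠ 0) with hX'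
  have hdisj : Disjoint X (G.nb X) := by
    rw [Finset.disjoint_left]
    intro x hx hx'
    exact (G.mem_nb.1 hx').1 hx
  set Y : Finset V := X' ∪ (X ∪ G.nb X)ᶜ with hY
  have hdm : dm (G.K b a lam) ≤ Y.card := by
    apply dm_le_card (invS_K G b a lam)
    intro v hv h0
    ext ⟨x, g⟩
    show v (x, g) = 0
    by_cases hx : x ∈ X
    · by_contra h1
      have hx' : x ∈ X' := Finset.mem_filter.2 ⟨hx, v, hv, g, h1⟩
      exact h1 (h0 x (Finset.mem_union_left _ hx') g)
    · by_cases hn : x ∈ G.nb X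
      · exact K_nb ha hv hn g
      · refine h0 x (Finset.mem_union_right _ ?_) g
        rw [Finset.mem_compl, Finset.mem_union]
        tauto
  have hYc : (Y.card : ℝ) ≤ X'.card + ((Fintype.card V : ℝ) - (X.card + (G.nb X).card)) := by
    have h1 : Y.card ≤ X'.card + (X ∪ G.nb X)ᶜ.card := Finset.card_union_le _ _
    have h2 : ((X ∪ G.nb X)ᶜ.card : ℝ) = (Fintype.card V : ℝ) - (X.card + (G.nb X).card) := by
      rw [Finset.card_compl, Nat.cast_sub (Finset.card_le_univ _),
        Finset.card_union_of_disjoint hdisj]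
      push_cast; ring
    rw [← h2]
    exact_mod_cast h1
  have hlow := dm_ker_A (G := G) (b := b) (a := a) (lam := lam)
  rw [← hX] at hlow
  refine ⟨G.nb X, ?_⟩
  have hsub : X' ⊆ G.iso (G.nb X) := by
    intro x hx
    obtain ⟨h1, v, hv, g, h2⟩ := Finset.mem_filter.1 hx
    refine mem_iso.2 ⟨fun h => Finset.disjoint_left.1 hdisj h1 h, fun d hd => ?_⟩
    refine G.mem_nb.2 ⟨isolated ha hb hv h1 h2 d hd, G.r d, rfl, ?_⟩
    rw [G.t_r, hd]; exact h1
  have h3 : (X'.card : ℝ) ≤ (G.iso (G.nb X)).card := by exact_mod_cast Finset.card_le_card hsub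
  linarith

theorem single_TCE (hb : ∀ x, b x = lam) {S : Finset V} {x : V} (hx : x ∈ G.iso S) :
    ({x} : Finset V) ∈ G.TCE b a lam S := by
  obtain ⟨h1, h2⟩ := mem_iso.1 hx
  have hno : ∀ d, G.s d = x → G.t d ≠ x := fun d hd ht => h1 (ht ▸ h2 d hd)
  refine Finset.mem_filter.2 ⟨mem_TC.2 ⟨⟨⟨x, by simp⟩, ?_, ?_⟩, ?_, ?_⟩, ?_⟩
  · intro y hy z hz
    rw [Finset.mem_singleton] at hy hz
    subst hy; subst hz
    exact ⟨[], walk_nil.2 ⟨rfl, by simp⟩⟩
  · intro y l hl hn
    cases l with
    | nil => rfl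
    | cons d l =>
      obtain ⟨h3, h4, h5⟩ := walk_cons.1 hl
      rw [Finset.mem_singleton] at h4
      have h6 := h5.memL
      rw [Finset.mem_singleton] at h6
      exact absurd h6 (hno d (h3.trans h4))
  · simpa using h1
  · intro y hy
    obtain ⟨h3, d, h4, h5⟩ := G.mem_nb.1 hy
    rw [Finset.mem_singleton] at h5
    have := h2 (G.r d) h5
    rwa [G.t_r, h4] at this
  · refine ⟨fun y => if y = x then 1 else 0, ⟨x, by simp⟩, ?_, ?_⟩
    · intro y hy
      rw [Finset.mem_singleton] at hy
      exact if_neg hy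
    · intro y hy
      rw [Finset.mem_singleton] at hy
      subst hy
      have h3 : ∑ d ∈ univ.filter (fun d => G.s d = y), a d * (if G.t d = y then (1 : ℂ) else 0)
          = 0 := by
        refine Finset.sum_eq_zero (fun d hd => ?_)
        rw [if_neg (hno d (Finset.mem_filter.1 hd).2), mul_zero]
      show b y * (if y = y then (1 : ℂ) else 0) +
        ∑ d ∈ univ.filter (fun d => G.s d = y), a d * (if G.t d = y then (1 : ℂ) else 0) =
        lam * (if y = y then (1 : ℂ) else 0)
      rw [h3, hb y, add_zero]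

/-- **constant potential**: the multiplicity does not depend on the weights -/
theorem dim_const (ha : ∀ d, a d ≠ 0) (hb : ∀ x, b x = lam) (lift : V → G.Cov v0)
    (hl : ∀ x, (lift x).1.2 = x) :
    IsGreatest (Set.range fun S : Finset V => ((G.iso S).card : ℝ) - S.card)
      (G.dim lift b a lam) := by
  have hub : ∀ S : Finset V, ((G.iso S).card : ℝ) - S.card ≤ G.dim lift b a lam := by
    intro S
    have h1 := (dim_max (b := b) (lam := lam) ha lift hl).2 ⟨S, rfl⟩
    refine le_trans ?_ h1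
    have h2 : (G.iso S).card ≤ (G.TCE b a lam S).card := by
      rw [← Finset.card_image_of_injective (G.iso S)
        (f := fun x : V => ({x} : Finset V)) (Finset.singleton_injective)]
      apply Finset.card_le_card
      intro C hC
      obtain ⟨x, hx, rfl⟩ := Finset.mem_image.1 hC
      exact single_TCE hb hx
    have h3 : ((G.iso S).card : ℝ) ≤ (G.TCE b a lam S).card := by exact_mod_cast h2
    show _ ≤ ((G.TCE b a lam S).card : ℝ) - S.card
    linarith
  constructor
  · obtain ⟨S, hS⟩ := dm_le_iso (G := G) ha hb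
    rw [← dim_eq lift hl, ← dim_eq_dimP] at hS
    exact ⟨S, le_antisymm (hub S) hS⟩
  · rintro m ⟨S, rfl⟩
    exact hub S

end

end Pool.Agent.NSA
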