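import Pool.Agent.NSA.Fam

/-!
helper26: families of trees give square summable eigenfunctions on the covering forest.
-/

set_option autoImplicit false
set_option linter.unusedSectionVars false
set_option linter.deprecated false
set_option linter.unusedVariables false

namespace Pool.Agent.NSA

open scoped ENNReal ComplexConjugate
open Filter Topology Classical ContinuousLinearMap Finset

noncomputable section

section

variable {V Γ : Type*} [Fintype V] [Group Γ]

theorem dm_sub {K L W : Submodule ℂ (HH V Γ)} [K.HasOrthogonalProjection]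
    [L.HasOrthogonalProjection] [W.HasOrthogonalProjection] (hL : L ≤ W)
    (hK : ∀ u ∈ W, u ∈ Lᗮ → u ∈ K) : dm W ≤ dm K + dm L := by
  unfold dm
  rw [← Finset.sum_add_distrib]
  refine Finset.sum_le_sum (fun v _ => ?_)
  set x : HH V Γ := dl (v, 1)
  set y := W.starProjection x with hy
  have h2 : L.starProjection y = L.starProjection x := by
    have := Submodule.starProjection_comp_starProjection_of_le hL
    exact DFunLike.congr_fun this x
  have h3 := Submodule.norm_sq_eq_add_norm_sq_starProjection y L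
  rw [h2] at h3
  set z := y - L.starProjection y with hz
  have hzL : z ∈ Lᗮ := Submodule.sub_starProjection_mem_orthogonal y
  have hzW : z ∈ W := W.sub_mem (Submodule.starProjection_apply_mem W x)
    (hL (Submodule.starProjection_apply_mem L y))
  have hzK : z ∈ K := hK z hzW hzL
  have h4 : ‖Lᗮ.starProjection y‖ = ‖z‖ := by
    congr 1
    rw [hz, Submodule.starProjection_orthogonal_val]
  have h5 : inner ℂ z z = inner ℂ z (K.starProjection x) := by
    have a1 : inner ℂ z (K.starProjection x) = inner ℂ z x := by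
      rw [← Submodule.inner_starProjection_left_eq_right,
        (Submodule.starProjection_eq_self_iff).2 hzK]
    have a2 : inner ℂ z x = inner ℂ z y := by
      rw [hy, ← Submodule.inner_starProjection_left_eq_right,
        (Submodule.starProjection_eq_self_iff).2 hzW]
    have a3 : inner ℂ z y = inner ℂ z z := by
      conv_rhs => rw [hz, inner_sub_right]
      rw [← hz, (Submodule.mem_orthogonal' L z).1 hzL _ (Submodule.starProjection_apply_mem L y),
        sub_zero]
    rw [a1, a2, a3]
  have h6 : ‖z‖ ^ 2 ≤ ‖z‖ * ‖K.starProjection x‖ := by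
    have a1 := norm_inner_le_norm (𝕜 := ℂ) z (K.starProjection x)
    rw [← h5, inner_self_eq_norm_sq_to_K] at a1
    simpa using a1
  have h7 : ‖z‖ ≤ ‖K.starProjection x‖ := by
    by_cases hz0 : ‖z‖ = 0
    · rw [hz0]; exact norm_nonneg _
    · have : 0 < ‖z‖ := lt_of_le_of_ne (norm_nonneg _) (Ne.symm hz0)
      rw [pow_two] at h6
      exact le_of_mul_le_mul_left h6 this
  rw [h3, h4, add_comm]
  gcongr

/-- an invariant operator mapping `K` injectively into `E` -/
theorem dm_inj {K E : Submodule ℂ (HH V Γ)} [K.HasOrthogonalProjection]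
    [E.HasOrthogonalProjection] (hK : InvS K) {Φ : HH V Γ →L[ℂ] HH V Γ} (hΦ : Inv Φ)
    (hm : ∀ u ∈ K, Φ u ∈ E) (hi : ∀ u ∈ K, Φ u = 0 → u = 0) : dm K ≤ dm E := by
  set T := Φ * K.starProjection with hT
  have h1 := dm_ker (hΦ.mul hK.proj)
  rw [← hT] at h1
  have h2 : dm (LinearMap.ker T.toLinearMap) ≤ dm Kᗮ := by
    apply dm_mono
    intro u hu
    have hu' : Φ (K.starProjection u) = 0 := hu
    exact (Submodule.starProjection_apply_eq_zero_iff K).1
      (hi _ (Submodule.starProjection_apply_mem K u) hu')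
  have h3 : dm Eᗮ ≤ dm (LinearMap.ker (adjoint T).toLinearMap) := by
    apply dm_mono
    intro w hw
    show adjoint T w = 0
    apply ext_inner_right ℂ
    intro c
    rw [adjoint_inner_left, inner_zero_left]
    exact (Submodule.mem_orthogonal' E w).1 hw _ (hm _ (Submodule.starProjection_apply_mem K c))
  rw [dm_orth] at h2 h3
  linarith

theorem inner_disj {Y : Finset V} {u w : HH V Γ} (hu : ∀ x ∈ Y, ∀ g, u (x, g) = 0)
    (hw : ∀ x, x ∉ Y → ∀ g, w (x, g) = 0) : inner ℂ u w = (0 : ℂ) := by
  rw [lp.inner_eq_tsum]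
  have : ∀ p : V × Γ, inner ℂ (u p) (w p) = (0 : ℂ) := by
    rintro ⟨x, g⟩
    by_cases hx : x ∈ Y
    · rw [hu x hx g, inner_zero_left]
    · rw [hw x hx g, inner_zero_right]
  rw [tsum_congr this, tsum_zero]

end

variable {V D : Type*} [Fintype V] [Fintype D] {G : Gr V D}
variable {b : V → ℂ} {a : D → ℂ} {lam : ℂ}

/-- the map from coefficients on the roots to functions -/
def Ph {k : ℕ} (f : Fin k → V → ℂ) (x0 : Fin k → V) (pt : Fin k → V → FreeGroup D) :
    HH V (FreeGroup D) →L[ℂ] HH V (FreeGroup D) :=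
  ∑ i, ∑ x, f i x • mv x (x0 i) (pt i x)⁻¹

theorem inv_Ph {k : ℕ} (f : Fin k → V → ℂ) (x0 : Fin k → V) (pt : Fin k → V → FreeGroup D) :
    Inv (Ph f x0 pt) := Inv.sum (fun _ _ => Inv.sum (fun _ _ => (inv_mv _ _ _).smul _))

theorem Ph_apply {k : ℕ} (f : Fin k → V → ℂ) (x0 : Fin k → V) (pt : Fin k → V → FreeGroup D)
    (c : HH V (FreeGroup D)) (x : V) (g : FreeGroup D) :
    Ph f x0 pt c (x, g) = ∑ i, f i x * c (x0 i, g * (pt i x)⁻¹) := by
  have e : Ph f x0 pt c = ∑ i, ∑ x, f i x • mv x (x0 i) (pt i x)⁻¹ c := by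
    simp [Ph]
  rw [e, lp.coeFn_sum, Finset.sum_apply]
  refine Finset.sum_congr rfl (fun i _ => ?_)
  rw [lp.coeFn_sum, Finset.sum_apply, Finset.sum_eq_single x]
  · rw [lp.coeFn_smul, Pi.smul_apply, smul_eq_mul, mv_apply, if_pos rfl]
  · intro w _ hw
    rw [lp.coeFn_smul, Pi.smul_apply, smul_eq_mul, mv_apply, if_neg hw.symm, mul_zero]
  · intro h; exact absurd (mem_univ x) h

/-- **families of trees give eigenfunctions** -/
theorem E_of_fam {k : ℕ} {C : Fin k → Finset V} (hC : G.Fam k C)
    (heig : ∀ i, G.Eig b a lam (C i)) :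
    (k : ℝ) - (G.nb (univ.biUnion C)).card ≤ dm (G.E b a lam) := by
  obtain ⟨htree, hdisj, hsep⟩ := hC
  choose f hf0 hfz hfe using heig
  choose x0 hx0 pt hpt using fun i => (htree i).potential
  set N := G.nb (univ.biUnion C) with hN
  set R : Finset V := univ.image x0 with hR
  have hx0inj : Function.Injective x0 := by
    intro i j hij
    by_contra hne
    exact Finset.disjoint_left.1 (hdisj i j hne) (hx0 i) (hij ▸ hx0 j)
  have hRcard : R.card = k := by
    rw [hR, Finset.card_image_of_injective _ hx0inj]; simp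
  set Φ := Ph f x0 pt with hΦ
  have hΦi : Inv Φ := inv_Ph _ _ _
  set L := G.H b a - lam • (1 : HH V (FreeGroup D) →L[ℂ] HH V (FreeGroup D)) with hL
  set Dd := L * Φ with hD
  have hDi : Inv Dd := (inv_HL G b a lam).mul hΦi
  have hLap : ∀ w x g, L w (x, g) = b x * w (x, g) +
      ∑ d ∈ univ.filter (fun d => G.s d = x), a d * w (G.t d, g * G.y d) - lam * w (x, g) := by
    intro w x g
    rw [← H_apply]; rfl
  -- range over `N`
  have hrange : ∀ c x, x ∉ N → ∀ g, Dd c (x, g) = 0 := by
    intro c x hx g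
    show L (Φ c) (x, g) = 0
    rw [hLap, Ph_apply, sub_eq_zero]
    have h1 : ∀ d ∈ univ.filter (fun d => G.s d = x), a d * Φ c (G.t d, g * G.y d) =
        ∑ i, a d * f i (G.t d) * c (x0 i, g * G.y d * (pt i (G.t d))⁻¹) := by
      intro d _
      rw [Ph_apply, Finset.mul_sum]
      exact Finset.sum_congr rfl (fun i _ => by ring)
    rw [Finset.sum_congr rfl h1, Finset.sum_comm, Finset.mul_sum, Finset.mul_sum,
      ← Finset.sum_add_distrib]
    refine Finset.sum_congr rfl (fun i _ => ?_)
    by_cases hxi : x ∈ C i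
    · have h2 : ∀ d ∈ univ.filter (fun d => G.s d = x),
          a d * f i (G.t d) * c (x0 i, g * G.y d * (pt i (G.t d))⁻¹) =
          a d * f i (G.t d) * c (x0 i, g * (pt i x)⁻¹) := by
        intro d hd
        have hd1 : G.s d = x := (Finset.mem_filter.1 hd).2
        by_cases ht : G.t d ∈ C i
        · have h3 := hpt i d (hd1 ▸ hxi) ht
          have h4 : g * G.y d * (pt i (G.t d))⁻¹ = g * (pt i x)⁻¹ := by
            rw [h3, hd1]; group
          rw [h4]
        · rw [hfz i _ ht]; ring
      rw [Finset.sum_congr rfl h2, ← Finset.sum_mul]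
      linear_combination c (x0 i, g * (pt i x)⁻¹) * hfe i x hxi
    · rw [hfz i x hxi]
      have h2 : ∀ d ∈ univ.filter (fun d => G.s d = x),
          a d * f i (G.t d) * c (x0 i, g * G.y d * (pt i (G.t d))⁻¹) = 0 := by
        intro d hd
        have hd1 : G.s d = x := (Finset.mem_filter.1 hd).2
        have h3 : G.t d ∉ C i := by
          intro ht
          by_cases hu : x ∈ univ.biUnion C
          · obtain ⟨j, _, hj⟩ := Finset.mem_biUnion.1 hu
            have hji : j ≠ i := by
              rintro rfl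
              exact hxi hj
            exact hsep j i d hji (hd1 ▸ hj) ht
          · exact hx (G.mem_nb.2 ⟨hu, d, hd1,
              Finset.mem_biUnion.2 ⟨i, mem_univ _, ht⟩⟩)
        rw [hfz i _ h3]; ring
      rw [Finset.sum_congr rfl h2]; simp
  -- the value of `Φ c` at a point of `C i`
  have hval : ∀ c i x, x ∈ C i → ∀ g, Φ c (x, g) = f i x * c (x0 i, g * (pt i x)⁻¹) := by
    intro c i x hx g
    rw [Ph_apply, Finset.sum_eq_single i]
    · intro j _ hj
      rw [hfz j x (Finset.disjoint_left.1 (hdisj i j hj.symm) hx), zero_mul]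
    · intro h; exact absurd (mem_univ i) h
  have hinjR : ∀ c : HH V (FreeGroup D), (∀ x, x ∉ R → ∀ g, c (x, g) = 0) → Φ c = 0 → c = 0 := by
    intro c hc h0
    ext ⟨x, g⟩
    show c (x, g) = 0
    by_cases hx : x ∈ R
    · obtain ⟨i, _, rfl⟩ := Finset.mem_image.1 hx
      obtain ⟨w, hw⟩ := hf0 i
      have hwC : w ∈ C i := by
        by_contra h
        exact hw (hfz i w h)
      have h1 := hval c i w hwC (g * pt i w)
      rw [h0, mul_inv_cancel_right] at h1
      have h2 : (0 : ℂ) = f i w * c (x0 i, g) := h1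
      rcases mul_eq_zero.1 h2.symm with h3 | h3
      · exact absurd h3 hw
      · exact h3
    · exact hc x hx g
  have hkill : ∀ c : HH V (FreeGroup D), (∀ x ∈ R, ∀ g, c (x, g) = 0) → Φ c = 0 := by
    intro c hc
    ext ⟨x, g⟩
    rw [Ph_apply]
    show _ = (0 : ℂ)
    refine Finset.sum_eq_zero (fun i _ => ?_)
    rw [hc (x0 i) (Finset.mem_image_of_mem _ (mem_univ _)), mul_zero]
  set K' : Submodule ℂ (HH V (FreeGroup D)) :=
    LinearMap.ker (Dd.prod (mulV (ind Rᶜ))).toLinearMap with hK'
  have hmemK' : ∀ u, u ∈ K' ↔ Dd u = 0 ∧ ∀ x, x ∉ R → ∀ g, u (x, g) = 0 := by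
    intro u
    rw [hK', LinearMap.mem_ker]
    have e : (Dd.prod (mulV (ind Rᶜ))).toLinearMap u = (Dd u, mulV (ind Rᶜ) u) := rfl
    rw [e, Prod.mk_eq_zero]
    have e2 : mulV (ind Rᶜ) u = 0 ↔ u ∈ sup (FreeGroup D) R := Iff.rfl
    rw [e2, mem_sup]
  have hK'i : InvS K' := by
    intro g u hu
    rw [hmemK'] at hu ⊢
    refine ⟨?_, ?_⟩
    · rw [hDi, hu.1, map_zero]
    · intro x hx h
      rw [shift_apply, lt_apply]
      exact hu.2 x hx _
  have h1 : (Fintype.card V : ℝ) - N.card ≤ dm (LinearMap.ker Dd.toLinearMap) := by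
    rw [dm_ker hDi]
    have h2 : dm (sup (FreeGroup D) Nᶜ) = (Fintype.card V : ℝ) - N.card := by
      rw [dm_sup, Finset.card_compl, Nat.cast_sub (Finset.card_le_univ _)]
    rw [← h2]
    apply dm_mono
    intro w hw
    show adjoint Dd w = 0
    apply ext_inner_right ℂ
    intro c
    rw [adjoint_inner_left, inner_zero_left]
    refine inner_disj (Y := N) ?_ (hrange c)
    intro x hx g
    exact mem_sup.1 hw x (by simpa using hx) g
  have h2 : dm (LinearMap.ker Dd.toLinearMap) ≤ dm K' + ((Fintype.card V : ℝ) - k) := by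
    have h3 : dm (sup (FreeGroup D) Rᶜ) = (Fintype.card V : ℝ) - k := by
      rw [dm_sup, Finset.card_compl, Nat.cast_sub (Finset.card_le_univ _), hRcard]
    rw [← h3]
    apply dm_sub
    · intro c hc
      show L (Φ c) = 0
      rw [hkill c (fun x hx g => mem_sup.1 hc x (by simpa using hx) g), map_zero]
    · intro u hu hu'
      rw [hmemK']
      refine ⟨hu, fun x hx g => ?_⟩
      have h4 : (dl (x, g) : HH V (FreeGroup D)) ∈ sup (FreeGroup D) Rᶜ := by
        rw [mem_sup]
        intro w hw h
        rw [dl_apply, if_neg]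
        rintro ⟨⟩
        exact hw (by simpa using hx)
      have h5 := (Submodule.mem_orthogonal _ u).1 hu' _ h4
      rwa [inner_dl_left] at h5
  have h3 : dm K' ≤ dm (G.E b a lam) := by
    apply dm_inj hK'i hΦi
    · intro u hu
      exact ((hmemK' u).1 hu).1
    · intro u hu h0
      exact hinjR u ((hmemK' u).1 hu).2 h0
  linarith

end

end Pool.Agent.NSA
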