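import Pool.Agent.NSA.Tr

/-!
helper26: multiplication by functions on `V`, moves, coordinate subspaces, and the bound
`dim K ≤ |Y|` for an invariant subspace which is determined by its values over `Y`.
-/

set_option autoImplicit false
set_option linter.unusedSectionVars false
set_option linter.deprecated false

namespace Pool.Agent.NSA

open scoped ENNReal ComplexConjugate
open Filter Topology Classical ContinuousLinearMap

noncomputable section

variable {V Γ : Type*} [Fintype V] [Group Γ]

/-- multiplication by a function of the first coordinate -/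
def mulV (m : V → ℂ) : HH V Γ →L[ℂ] HH V Γ :=
  mulB (fun p : V × Γ => m p.1) (∑ v, ‖m v‖)
    (fun p => Finset.single_le_sum (f := fun v => ‖m v‖) (fun _ _ => norm_nonneg _)
      (Finset.mem_univ p.1))

@[simp] theorem mulV_apply (m : V → ℂ) (u : HH V Γ) (v : V) (g : Γ) :
    mulV m u (v, g) = m v * u (v, g) := rfl

theorem inv_mulV (m : V → ℂ) : Inv (mulV (Γ := Γ) m) := by
  intro g u
  ext ⟨v, h⟩
  rfl

theorem adjoint_mulV (m : V → ℂ) :
    adjoint (mulV (Γ := Γ) m) = mulV (fun v => conj (m v)) := by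
  symm
  rw [ContinuousLinearMap.eq_adjoint_iff]
  intro x y
  rw [lp.inner_eq_tsum, lp.inner_eq_tsum]
  refine tsum_congr (fun ⟨v, g⟩ => ?_)
  rw [mulV_apply, mulV_apply]
  simp
  ring

/-- indicator -/
def ind (Y : Finset V) (v : V) : ℂ := if v ∈ Y then 1 else 0

theorem conj_ind (Y : Finset V) : (fun v => conj (ind Y v)) = ind Y := by
  funext v
  unfold ind
  split_ifs <;> simp

/-- vectors supported over `Y` -/
def sup (Γ : Type*) [Group Γ] (Y : Finset V) : Submodule ℂ (HH V Γ) :=
  LinearMap.ker (mulV (Γ := Γ) (ind Yᶜ)).toLinearMap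

theorem mem_sup {Y : Finset V} {u : HH V Γ} :
    u ∈ sup Γ Y ↔ ∀ v, v ∉ Y → ∀ g, u (v, g) = 0 := by
  rw [sup, LinearMap.mem_ker]
  constructor
  · intro h v hv g
    have h1 : mulV (ind Yᶜ) u (v, g) = 0 := by
      have : mulV (ind Yᶜ) u = 0 := h
      rw [this]; rfl
    rw [mulV_apply, ind, if_pos (by simpa using hv), one_mul] at h1
    exact h1
  · intro h
    show mulV (ind Yᶜ) u = 0
    ext ⟨v, g⟩
    rw [mulV_apply, ind]
    split_ifs with hv
    · rw [h v (by simpa using hv) g]; simp
    · simp

instance (Y : Finset V) : (sup Γ Y).HasOrthogonalProjection := by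
  unfold sup; infer_instance

theorem dm_sup (Y : Finset V) : dm (sup Γ Y) = Y.card := by
  unfold dm
  have h : ∀ v : V, ‖(sup Γ Y).starProjection (dl (v, (1 : Γ)))‖ ^ 2 = if v ∈ Y then 1 else 0 := by
    intro v
    split_ifs with hv
    · rw [(Submodule.starProjection_eq_self_iff).2, norm_dl, one_pow]
      rw [mem_sup]
      intro w hw g
      rw [dl_apply, if_neg]
      rintro ⟨⟩
      exact hw hv
    · have : (sup Γ Y).starProjection (dl (v, (1 : Γ))) = 0 := by
        rw [Submodule.starProjection_apply_eq_zero_iff, Submodule.mem_orthogonal]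
        intro u hu
        rw [inner_dl_right, mem_sup.1 hu v hv 1, map_zero]
      rw [this]; simp
  rw [Finset.sum_congr rfl (fun v _ => h v)]
  simp

theorem inv_ind_proj {K : Submodule ℂ (HH V Γ)} [K.HasOrthogonalProjection] (hK : InvS K)
    (Y : Finset V) : Inv (mulV (ind Y) * K.starProjection) := (inv_mulV _).mul hK.proj

theorem dm_le_card {K : Submodule ℂ (HH V Γ)} [K.HasOrthogonalProjection] (hK : InvS K)
    (Y : Finset V)
    (h : ∀ u ∈ K, (∀ v ∈ Y, ∀ g, u (v, g) = 0) → u = 0) : dm K ≤ Y.card := by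
  set A := mulV (ind Y) * K.starProjection with hA
  have h1 := dm_ker (inv_ind_proj hK Y)
  rw [← hA] at h1
  have h2 : dm (LinearMap.ker A.toLinearMap) ≤ dm Kᗮ := by
    apply dm_mono
    intro u hu
    have hu' : mulV (ind Y) (K.starProjection u) = 0 := hu
    have h3 : K.starProjection u = 0 := by
      apply h _ (Submodule.starProjection_apply_mem K u)
      intro v hv g
      have h4 : mulV (ind Y) (K.starProjection u) (v, g) = 0 := by rw [hu']; rfl
      rw [mulV_apply, ind, if_pos hv, one_mul] at h4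
      exact h4
    exact (Submodule.starProjection_apply_eq_zero_iff K).1 h3
  have h5 : dm (sup Γ Yᶜ) ≤ dm (LinearMap.ker (adjoint A).toLinearMap) := by
    apply dm_mono
    intro u hu
    have e : adjoint A = adjoint K.starProjection * adjoint (mulV (ind Y)) := by
      rw [hA]; exact adjoint_comp _ _
    show adjoint A u = 0
    rw [e, adjoint_mulV, conj_ind]
    show adjoint K.starProjection (mulV (ind Y) u) = 0
    have : mulV (ind Y) u = 0 := by
      ext ⟨v, g⟩
      rw [mulV_apply, ind]
      split_ifs with hv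
      · rw [mem_sup.1 hu v (by simpa using hv) g]; simp
      · simp
    rw [this, map_zero]
  rw [dm_sup] at h5
  rw [dm_orth] at h2
  rw [Finset.card_compl, Nat.cast_sub (Finset.card_le_univ _)] at h5
  linarith

/-! ### moves -/

/-- the permutation of a move -/
def mvE (x y : V) (h : Γ) : Equiv.Perm (V × Γ) :=
  Equiv.prodCongr (Equiv.swap x y) (Equiv.mulRight h)

@[simp] theorem mvE_apply (x y : V) (h : Γ) (v : V) (g : Γ) :
    mvE x y h (v, g) = (Equiv.swap x y v, g * h) := rfl

theorem mvE_inv (x y : V) (h : Γ) : (mvE x y h)⁻¹ = mvE y x h⁻¹ := by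
  rw [inv_eq_iff_mul_eq_one]
  ext ⟨v, g⟩
  · simp [mvE, Equiv.Perm.mul_apply, Equiv.swap_comm y x]
  · simp [mvE, Equiv.Perm.mul_apply]

/-- `(mv x y h u)(x, g) = u (y, g h)`, zero off `x` -/
def mv (x y : V) (h : Γ) : HH V Γ →L[ℂ] HH V Γ := mulV (ind {x}) * shift (mvE x y h)

theorem mv_apply (x y : V) (h : Γ) (u : HH V Γ) (v : V) (g : Γ) :
    mv x y h u (v, g) = if v = x then u (y, g * h) else 0 := by
  show ind {x} v * u (Equiv.swap x y v, g * h) = _
  unfold ind
  by_cases hv : v = x
  · subst hv; simp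
  · simp [hv]

theorem inv_shift_mvE (x y : V) (h : Γ) : Inv (shift (mvE x y h)) := by
  intro g u
  ext ⟨v, k⟩
  rw [shift_apply, shift_apply, shift_apply, shift_apply]
  congr 1
  simp [mul_assoc]

theorem inv_mv (x y : V) (h : Γ) : Inv (mv x y h) := (inv_mulV _).mul (inv_shift_mvE _ _ _)

theorem adjoint_mv (x y : V) (h : Γ) : adjoint (mv x y h) = mv y x h⁻¹ := by
  have e : adjoint (mv x y h) = adjoint (shift (mvE x y h)) * adjoint (mulV (ind {x})) :=
    adjoint_comp _ _
  rw [e, adjoint_shift, adjoint_mulV, conj_ind, mvE_inv]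
  ext u ⟨v, g⟩
  rw [mv_apply]
  show ind {x} (Equiv.swap y x v) * u (Equiv.swap y x v, g * h⁻¹) = _
  unfold ind
  by_cases hv : v = y
  · subst hv; simp
  · have : Equiv.swap y x v ≠ x := by
      intro h1
      apply hv
      have := congrArg (Equiv.swap y x) h1
      simpa using this
    simp [hv, this]

end

end Pool.Agent.NSA
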