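import Pool.Agent.NSA.Transfer

/-!
helper26: the index theorem and its consequences.
-/

set_option autoImplicit false
set_option linter.unusedSectionVars false
set_option linter.deprecated false
set_option linter.unusedVariables false

namespace Pool.Agent.NSA

open scoped ENNReal ComplexConjugate
open Filter Topology Classical Finset

noncomputable section

variable {V D : Type*} [Fintype V] [Fintype D] {G : Gr V D}
variable {v0 : V} {b : V → ℂ} {a : D → ℂ} {lam : ℂ}

theorem index_max (ha : ∀ d, a d ≠ 0) (lift : V → G.Cov v0) (hl : ∀ x, (lift x).1.2 = x) :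
    IsGreatest {m : ℝ | ∃ (k : ℕ) (C : Fin k → Finset V), G.Fam k C ∧
      (∀ i, G.Eig b a lam (C i)) ∧ m = (k : ℝ) - (G.nb (univ.biUnion C)).card}
      (G.dim lift b a lam) := by
  rw [dim_eq_dimP, dim_eq lift hl]
  constructor
  · obtain ⟨k, C, h1, h2, h3⟩ := fam_of_E (G := G) (b := b) (lam := lam) ha
    exact ⟨k, C, h1, h2, le_antisymm h3 (E_of_fam h1 h2)⟩
  · rintro m ⟨k, C, h1, h2, rfl⟩
    exact E_of_fam h1 h2

theorem exists_iff (hc : ∀ x z, ∃ l, G.IsWalk univ x l z) (ha : ∀ d, a d ≠ 0) (v0 : V) :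
    (∃ u : G.Cov v0 → ℂ, G.Sol b a lam u ∧ u ≠ 0) ↔
    ∃ (k : ℕ) (C : Fin k → Finset V), G.Fam k C ∧
      (∀ i, G.Eig b a lam (C i)) ∧ (G.nb (univ.biUnion C)).card < k := by
  rw [exists_sol]
  constructor
  · rintro ⟨u, hu, h0⟩
    obtain ⟨v, hv, hv0⟩ := exists_push hu h0
    obtain ⟨k, C, h1, h2, h3⟩ := fam_of_E (G := G) (b := b) (lam := lam) ha
    refine ⟨k, C, h1, h2, ?_⟩
    have h4 := dm_pos (invS_E G b a lam) hv hv0
    have h5 : ((G.nb (univ.biUnion C)).card : ℝ) < k := by linarith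
    exact_mod_cast h5
  · rintro ⟨k, C, h1, h2, h3⟩
    apply exists_of_dm hc v0
    have h4 := E_of_fam h1 h2
    have h5 : ((G.nb (univ.biUnion C)).card : ℝ) < k := by exact_mod_cast h3
    linarith

/-! ### the finite matrix -/

/-- the operator of the finite graph, minus `lam` -/
def Lf (G : Gr V D) (b : V → ℂ) (a : D → ℂ) (lam : ℂ) : (V → ℂ) →ₗ[ℂ] (V → ℂ) where
  toFun f x := b x * f x + ∑ d ∈ univ.filter (fun d => G.s d = x), a d * f (G.t d) - lam * f x
  map_add' f f' := by
    funext x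
    simp only [Pi.add_apply, mul_add, Finset.sum_add_distrib]
    ring
  map_smul' c f := by
    funext x
    simp only [Pi.smul_apply, smul_eq_mul, RingHom.id_apply]
    have : ∑ d ∈ univ.filter (fun d => G.s d = x), a d * (c * f (G.t d)) =
        c * ∑ d ∈ univ.filter (fun d => G.s d = x), a d * f (G.t d) := by
      rw [Finset.mul_sum]
      exact Finset.sum_congr rfl (fun d _ => by ring)
    rw [this]; ring

variable (G) in
/-- the eigenspace of the finite matrix -/
def Gr.EF (b : V → ℂ) (a : D → ℂ) (lam : ℂ) : Submodule ℂ (V → ℂ) where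
  carrier := {f | ∀ x, b x * f x +
    ∑ d ∈ univ.filter (fun d => G.s d = x), a d * f (G.t d) = lam * f x}
  add_mem' := by
    intro f f' hf hf' x
    have h1 := hf x
    have h2 := hf' x
    simp only [Pi.add_apply, mul_add, Finset.sum_add_distrib]
    linear_combination h1 + h2
  zero_mem' := by intro x; simp
  smul_mem' := by
    intro c f hf x
    have h1 := hf x
    simp only [Pi.smul_apply, smul_eq_mul]
    have : ∑ d ∈ univ.filter (fun d => G.s d = x), a d * (c * f (G.t d)) =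
        c * ∑ d ∈ univ.filter (fun d => G.s d = x), a d * f (G.t d) := by
      rw [Finset.mul_sum]
      exact Finset.sum_congr rfl (fun d _ => by ring)
    rw [this]
    linear_combination c * h1

theorem mem_EF_iff {f : V → ℂ} : f ∈ G.EF b a lam ↔ Lf G b a lam f = 0 := by
  constructor
  · intro h
    funext x
    show b x * f x + ∑ d ∈ univ.filter (fun d => G.s d = x), a d * f (G.t d) - lam * f x = 0
    rw [sub_eq_zero]
    exact h x
  · intro h x
    have := congrFun h x
    exact sub_eq_zero.1 this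

theorem finrank_EF {k : ℕ} {C : Fin k → Finset V} (hC : G.Fam k C)
    (heig : ∀ i, G.Eig b a lam (C i)) :
    (k : ℝ) - (G.nb (univ.biUnion C)).card ≤ Module.finrank ℂ (G.EF b a lam) := by
  obtain ⟨htree, hdisj, hsep⟩ := hC
  choose f hf0 hfz hfe using heig
  set N := G.nb (univ.biUnion C) with hN
  have hL : ∀ i x, x ∉ N → Lf G b a lam (f i) x = 0 := by
    intro i x hx
    show b x * f i x + ∑ d ∈ univ.filter (fun d => G.s d = x), a d * f i (G.t d)
      - lam * f i x = 0
    rw [sub_eq_zero]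
    by_cases hxi : x ∈ C i
    · exact hfe i x hxi
    · rw [hfz i x hxi, mul_zero, mul_zero, zero_add]
      refine Finset.sum_eq_zero (fun d hd => ?_)
      have hd1 : G.s d = x := (Finset.mem_filter.1 hd).2
      have h3 : G.t d ∉ C i := by
        intro ht
        by_cases hu : x ∈ univ.biUnion C
        · obtain ⟨j, _, hj⟩ := Finset.mem_biUnion.1 hu
          have hji : j ≠ i := by
            rintro rfl
            exact hxi hj
          exact hsep j i d hji (hd1 ▸ hj) ht
        · exact hx (G.mem_nb.2 ⟨hu, d, hd1, Finset.mem_biUnion.2 ⟨i, mem_univ _, ht⟩⟩)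
      rw [hfz i _ h3, mul_zero]
  set Ψ : (Fin k → ℂ) →ₗ[ℂ] (V → ℂ) := Fintype.linearCombination ℂ f with hΨ
  have hΨa : ∀ c x, Ψ c x = ∑ i, c i * f i x := by
    intro c x
    rw [hΨ, Fintype.linearCombination_apply, Finset.sum_apply]
    rfl
  have hinj : Function.Injective Ψ := by
    rw [injective_iff_map_eq_zero]
    intro c hc
    funext i
    obtain ⟨w, hw⟩ := hf0 i
    have hwC : w ∈ C i := by
      by_contra h
      exact hw (hfz i w h)
    have h1 := hΨa c w
    rw [hc, Finset.sum_eq_single i] at h1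
    · rcases mul_eq_zero.1 h1.symm with h2 | h2
      · exact h2
      · exact absurd h2 hw
    · intro j _ hj
      rw [hfz j w (Finset.disjoint_left.1 (hdisj i j hj.symm) hwC), mul_zero]
    · intro h; exact absurd (mem_univ i) h
  set Θ : (Fin k → ℂ) →ₗ[ℂ] (N → ℂ) :=
    (LinearMap.funLeft ℂ ℂ (fun x : N => (x : V))) ∘ₗ (Lf G b a lam) ∘ₗ Ψ with hΘ
  have h1 := LinearMap.finrank_range_add_finrank_ker Θ
  have h2 : Module.finrank ℂ (LinearMap.range Θ) ≤ N.card := by
    have := Submodule.finrank_le (LinearMap.range Θ)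
    simpa using this
  have h3 : Submodule.map Ψ (LinearMap.ker Θ) ≤ G.EF b a lam := by
    rintro _ ⟨c, hc, rfl⟩
    rw [mem_EF_iff]
    funext x
    by_cases hx : x ∈ N
    · have h4 : Θ c = 0 := hc
      have := congrFun h4 ⟨x, hx⟩
      exact this
    · have h4 : Ψ c = ∑ i, c i • f i := by
        rw [hΨ, Fintype.linearCombination_apply]
      rw [h4, map_sum, Finset.sum_apply]
      refine Finset.sum_eq_zero (fun i _ => ?_)
      rw [map_smul, Pi.smul_apply, hL i x hx, smul_zero]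
  have h4 := (Submodule.equivMapOfInjective Ψ hinj (LinearMap.ker Θ)).finrank_eq
  have h5 := Submodule.finrank_mono h3
  have h6 : Module.finrank ℂ (Fin k → ℂ) = k := by simp
  have h7 : k ≤ N.card + Module.finrank ℂ (G.EF b a lam) := by omega
  have h8 : (k : ℝ) ≤ N.card + Module.finrank ℂ (G.EF b a lam) := by exact_mod_cast h7
  linarith

/-! ### Gershgorin -/

theorem gersh {C : Finset V} (h : G.Eig b a lam C) :
    ∃ x ∈ C, ‖lam - b x‖ ≤ ∑ d ∈ univ.filter (fun d => G.s d = x), ‖a d‖ := by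
  obtain ⟨f, ⟨w, hw⟩, hfz, hfe⟩ := h
  obtain ⟨x, _, hx⟩ := Finset.exists_max_image univ (fun x => ‖f x‖) ⟨w, mem_univ _⟩
  have hfx : 0 < ‖f x‖ := lt_of_lt_of_le (norm_pos_iff.2 hw) (hx w (mem_univ _))
  have hxC : x ∈ C := by
    by_contra h
    rw [hfz x h, norm_zero] at hfx
    exact lt_irrefl _ hfx
  refine ⟨x, hxC, ?_⟩
  have h1 : (lam - b x) * f x = ∑ d ∈ univ.filter (fun d => G.s d = x), a d * f (G.t d) := by
    linear_combination -hfe x hxC
  have h2 : ‖lam - b x‖ * ‖f x‖ ≤ (∑ d ∈ univ.filter (fun d => G.s d = x), ‖a d‖) * ‖f x‖ := by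
    rw [← norm_mul, h1, Finset.sum_mul]
    refine (norm_sum_le _ _).trans (Finset.sum_le_sum (fun d _ => ?_))
    rw [norm_mul]
    gcongr
    exact hx _ (mem_univ _)
  exact le_of_mul_le_mul_right h2 hfx

/-! ### cycles -/

theorem walk_stay {U : Finset V} (hU : G.nb U = ∅) : ∀ (l : List D) (x z : V),
    G.IsWalk univ x l z → x ∈ U → z ∈ U
  | [], x, z, h, hx => (walk_nil.1 h).1 ▸ hx
  | d :: l, x, z, h, hx => by
      obtain ⟨h1, h2, h3⟩ := walk_cons.1 h
      refine walk_stay hU l (G.t d) z h3 ?_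
      by_contra ht
      have : G.t d ∈ G.nb U := G.mem_nb.2 ⟨ht, G.r d, rfl, by rw [G.t_r, h1]; exact hx⟩
      rw [hU] at this
      simp at this

theorem two_le (hc : ∀ x z, ∃ l, G.IsWalk univ x l z)
    (hcyc : ∃ x l, G.IsWalk univ x l x ∧ G.NB l ∧ l ≠ []) {k : ℕ} {C : Fin k → Finset V}
    (hC : G.Fam k C) (hk : (G.nb (univ.biUnion C)).card < k) : 2 ≤ k := by
  by_contra hcon
  have h1 : k = 1 := by omega
  subst h1
  have h2 : G.nb (univ.biUnion C) = ∅ := Finset.card_eq_zero.1 (by omega)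
  obtain ⟨z, hz⟩ := (hC.tree 0).nonempty
  have h3 : C 0 = univ := by
    apply Finset.eq_univ_of_forall
    intro x
    obtain ⟨l, hl⟩ := hc z x
    have h4 := walk_stay h2 l z x hl (Finset.mem_biUnion.2 ⟨0, mem_univ _, hz⟩)
    obtain ⟨i, _, hi⟩ := Finset.mem_biUnion.1 h4
    rwa [Subsingleton.elim i 0] at hi
  obtain ⟨x, l, h5, h6, h7⟩ := hcyc
  have h8 := (hC.tree 0).acyc x l
  rw [h3] at h8
  exact h7 (h8 h5 h6)

/-- a walk following `nx` -/
def run (nx : D → D) : D → ℕ → List D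
  | _, 0 => []
  | d, m + 1 => d :: run nx (nx d) m

theorem run_walk {nx : D → D} (h1 : ∀ d, G.s (nx d) = G.t d) : ∀ (m : ℕ) (d : D),
    G.IsWalk univ (G.s d) (run nx d m) (G.s (nx^[m] d))
  | 0, d => walk_nil.2 ⟨rfl, mem_univ _⟩
  | m + 1, d => by
      refine walk_cons.2 ⟨rfl, mem_univ _, ?_⟩
      have := run_walk h1 m (nx d)
      rwa [h1] at this

theorem run_nb {nx : D → D} (h2 : ∀ d, nx d ≠ G.r d) : ∀ (m : ℕ) (d : D), G.NB (run nx d m)
  | 0, d => G.nb_nil
  | 1, d => G.nb_single d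
  | m + 2, d => List.isChain_cons_cons.2 ⟨h2 d, run_nb h2 (m + 1) (nx d)⟩

theorem cycle_of_leafless (hleaf : ∀ x, (univ.filter (fun d => G.s d = x)).card ≠ 1)
    (hD : Nonempty D) : ∃ x l, G.IsWalk univ x l x ∧ G.NB l ∧ l ≠ [] := by
  have h1 : ∀ d, ∃ e, G.s e = G.t d ∧ e ≠ G.r d := by
    intro d
    have h2 : G.r d ∈ univ.filter (fun e => G.s e = G.t d) :=
      Finset.mem_filter.2 ⟨mem_univ _, rfl⟩
    have h3 : 1 < (univ.filter (fun e => G.s e = G.t d)).card := by
      have h4 := hleaf (G.t d)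
      have h5 := Finset.card_pos.2 ⟨_, h2⟩
      omega
    obtain ⟨e, he, hne⟩ := Finset.exists_mem_ne h3 (G.r d)
    exact ⟨e, (Finset.mem_filter.1 he).2, hne⟩
  choose nx hn1 hn2 using h1
  obtain ⟨d0⟩ := hD
  have key : ∀ i j : ℕ, i < j → nx^[i] d0 = nx^[j] d0 →
      ∃ x l, G.IsWalk univ x l x ∧ G.NB l ∧ l ≠ [] := by
    intro i j hij he
    obtain ⟨m, rfl⟩ := Nat.exists_eq_add_of_lt hij
    refine ⟨G.s (nx^[i] d0), run nx (nx^[i] d0) (m + 1), ?_, run_nb hn2 _ _, ?_⟩
    · have h3 := run_walk hn1 (m + 1) (nx^[i] d0)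
      rw [← Function.iterate_add_apply] at h3
      have e : m + 1 + i = i + m + 1 := by ring
      rw [e, ← he] at h3
      exact h3
    · simp [run]
  obtain ⟨i, j, hij, he⟩ := Finite.exists_ne_map_eq_of_infinite (fun n : ℕ => nx^[n] d0)
  rcases lt_or_gt_of_ne hij with h | h
  · exact key i j h he
  · exact key j i h he.symm

end

end Pool.Agent.NSA
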