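import Pool.Agent.NSA.Main

/-!
helper26: propagation of zeros, acyclicity, count of the components.
-/

set_option autoImplicit false
set_option linter.unusedSectionVars false
set_option linter.deprecated false
set_option linter.unusedVariables false

namespace Pool.Agent.NSA

open scoped ENNReal ComplexConjugate
open Filter Topology Classical ContinuousLinearMap Finset

noncomputable section

variable {V D : Type*} [Fintype V] [Fintype D] {G : Gr V D}
variable {b : V → ℂ} {a : D → ℂ} {lam : ℂ}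

theorem K_nb (ha : ∀ d, a d ≠ 0) {v : HH V (FreeGroup D)} (hv : v ∈ G.K b a lam) {x : V}
    (hx : x ∈ G.nb (G.X b a lam)) (g : FreeGroup D) : v (x, g) = 0 := by
  obtain ⟨h1, d, rfl, h2⟩ := G.mem_nb.1 hx
  obtain ⟨u, hu, h3⟩ := E_nonvanish h2 (g * G.y d)
  have h4 := flow_W ha hu hv g d
  rw [E_vanish hu h1 g, mul_zero, zero_mul, mul_eq_zero] at h4
  rcases h4 with h4 | h4
  · exact absurd h4 (mul_ne_zero (ha d) h3)
  · simpa using h4

theorem K_step_zero (ha : ∀ d, a d ≠ 0) {v : HH V (FreeGroup D)} (hv : v ∈ G.K b a lam)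
    {p q : V × FreeGroup D} (h : G.stp (G.X b a lam) p q) (h0 : v p = 0) : v q = 0 := by
  obtain ⟨x, g⟩ := p
  obtain ⟨d, h1, h2, h3, rfl⟩ := h
  simp only at h1 h2
  subst h1
  obtain ⟨u, hu, h4⟩ := E_nonvanish h2 g
  have h5 := flow_W ha hu hv g d
  rw [h0, map_zero, mul_zero, eq_comm, mul_eq_zero] at h5
  rcases h5 with h5 | h5
  · exact absurd h5 (mul_ne_zero (ha _) h4)
  · simpa using h5

theorem K_step_pair (ha : ∀ d, a d ≠ 0) {v v' : HH V (FreeGroup D)} (hv : v ∈ G.K b a lam)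
    (hv' : v' ∈ G.K b a lam)
    {p q : V × FreeGroup D} (h : G.stp (G.X b a lam) p q) : v p * v' q = v' p * v q := by
  obtain ⟨x, g⟩ := p
  obtain ⟨d, h1, h2, h3, rfl⟩ := h
  simp only at h1 h2
  subst h1
  obtain ⟨u, hu, h4⟩ := E_nonvanish h2 g
  have h5 := flow_W ha hu hv g d
  have h6 := flow_W ha hu hv' g d
  have h7 : (a (G.r d) * u (G.s d, g)) * conj (v (G.s d, g) * v' (G.t d, g * G.y d) -
      v' (G.s d, g) * v (G.t d, g * G.y d)) = 0 := by
    rw [map_sub, map_mul, map_mul]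
    linear_combination conj (v' (G.s d, g)) * h5 - conj (v (G.s d, g)) * h6
  rw [mul_eq_zero] at h7
  rcases h7 with h7 | h7
  · exact absurd h7 (mul_ne_zero (ha _) h4)
  · rw [map_eq_zero, sub_eq_zero] at h7
    exact h7

theorem K_rel_zero (ha : ∀ d, a d ≠ 0) {v : HH V (FreeGroup D)} (hv : v ∈ G.K b a lam)
    {p q : V × FreeGroup D} (h : G.Rel (G.X b a lam) p q) (h0 : v p = 0) : v q = 0 := by
  induction h with
  | refl => exact h0
  | tail _ h ih => exact K_step_zero ha hv h ih

theorem K_rel_pair (ha : ∀ d, a d ≠ 0) {v v' : HH V (FreeGroup D)} (hv : v ∈ G.K b a lam)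
    (hv' : v' ∈ G.K b a lam)
    {p q : V × FreeGroup D} (h : G.Rel (G.X b a lam) p q) : v p * v' q = v' p * v q := by
  induction h with
  | refl => rw [mul_comm]
  | tail hr h ih =>
    rename_i q q'
    have h1 := K_step_pair ha hv hv' h
    by_cases h2 : v q = 0
    · rw [K_step_zero ha hv h h2, K_rel_zero ha hv (Gr.Rel.symm hr) h2]
      ring
    · apply mul_left_cancel₀ h2
      linear_combination v p * h1 + v q' * ih

/-- a bi-infinite geometric sequence is not square summable -/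
theorem no_geom (f : ℤ → ℂ) (h0 : f 0 ≠ 0) (h : ∀ n, f 0 * f (n + 1) = f 1 * f n)
    (hs : Summable (fun n => ‖f n‖ ^ 2)) : False := by
  have hn : ∀ n, ‖f 0‖ * ‖f (n + 1)‖ = ‖f 1‖ * ‖f n‖ := by
    intro n
    rw [← norm_mul, h, norm_mul]
  have hp : 0 < ‖f 0‖ := norm_pos_iff.2 h0
  rcases le_total ‖f 0‖ ‖f 1‖ with h1 | h1
  · have h2 : ∀ n : ℕ, ‖f 0‖ ≤ ‖f (n : ℤ)‖ := by
      intro n
      induction n with
      | zero => simp
      | succ n ih =>
        have h3 := hn n
        push_cast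
        have h4 : ‖f 0‖ * ‖f (n : ℤ)‖ ≤ ‖f 0‖ * ‖f ((n : ℤ) + 1)‖ := by
          rw [h3]; gcongr
        exact ih.trans (le_of_mul_le_mul_left h4 hp)
    have h3 := (hs.comp_injective (i := fun n : ℕ => (n : ℤ)) Nat.cast_injective).tendsto_atTop_zero
    have h4 := ge_of_tendsto' h3 (fun n => (by
      show ‖f 0‖ ^ 2 ≤ ‖f (n : ℤ)‖ ^ 2
      have := h2 n
      gcongr : ‖f 0‖ ^ 2 ≤ _))
    have : 0 < ‖f 0‖ ^ 2 := by positivity
    linarith
  · have h2 : ∀ n : ℕ, ‖f 0‖ ≤ ‖f (-(n : ℤ))‖ := by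
      intro n
      induction n with
      | zero => simp
      | succ n ih =>
        have h3 := hn (-((n : ℤ) + 1))
        have e : -((n : ℤ) + 1) + 1 = -(n : ℤ) := by ring
        rw [e] at h3
        push_cast
        have h4 : ‖f 0‖ * ‖f (-(n : ℤ))‖ ≤ ‖f 0‖ * ‖f (-((n : ℤ) + 1))‖ := by
          rw [h3]; gcongr
        exact ih.trans (le_of_mul_le_mul_left h4 hp)
    have h3 := (hs.comp_injective (i := fun n : ℕ => (-(n : ℤ)))
      (fun m n h => by simpa using h)).tendsto_atTop_zero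
    have h4 := ge_of_tendsto' h3 (fun n => (by
      show ‖f 0‖ ^ 2 ≤ ‖f (-(n : ℤ))‖ ^ 2
      have := h2 n
      gcongr : ‖f 0‖ ^ 2 ≤ _))
    have : 0 < ‖f 0‖ ^ 2 := by positivity
    linarith

theorem acyc (ha : ∀ d, a d ≠ 0) {v : HH V (FreeGroup D)} (hv : v ∈ G.K b a lam)
    {x : V} {h z : FreeGroup D} (h0 : v (x, h) ≠ 0)
    (hr : G.Rel (G.X b a lam) (x, 1) (x, z)) : z = 1 := by
  by_contra hz
  have h1 : ∀ k : FreeGroup D, G.Rel (G.X b a lam) (x, k) (x, k * z) := by
    intro k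
    have := hr.smul k
    simpa using this
  have h2 : ∀ n : ℤ, G.Rel (G.X b a lam) (x, h) (x, h * z ^ n) := by
    intro n
    induction n using Int.induction_on with
    | zero => rw [zpow_zero, mul_one]; exact Gr.Rel.refl _
    | succ n ih =>
      have := h1 (h * z ^ (n : ℤ))
      rw [mul_assoc, ← zpow_add_one] at this
      exact ih.trans this
    | pred n ih =>
      have := h1 (h * z ^ (-(n : ℤ) - 1))
      rw [mul_assoc, ← zpow_add_one, sub_add_cancel] at this
      exact ih.trans this.symm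
  have hinj : Function.Injective (fun n : ℤ => z ^ n) := by
    rw [injective_zpow_iff_not_isOfFinOrder]
    exact not_isOfFinOrder_of_isMulTorsionFree hz
  have hinj2 : Function.Injective (fun n : ℤ => ((x, h * z ^ n) : V × FreeGroup D)) := by
    intro m n hmn
    apply hinj
    exact mul_left_cancel (Prod.mk.inj hmn).2
  refine no_geom (fun n => v (x, h * z ^ n)) ?_ ?_ ((summ v).comp_injective hinj2)
  · simpa using h0
  · intro n
    have h3 := K_rel_pair ha hv (invS_K G b a lam (h * z * h⁻¹) v hv) (h2 n)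
    rw [shift_apply, shift_apply, lt_apply, lt_apply] at h3
    have e1 : h * z * h⁻¹ * h = h * z := by group
    have e2 : h * z * h⁻¹ * (h * z ^ n) = h * z ^ (n + 1) := by
      rw [zpow_add_one, ← (Commute.refl z).zpow_right n |>.eq]; group
    rw [e1, e2] at h3
    simpa using h3

end

end Pool.Agent.NSA
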