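import Mathlib

/-!
helper26: square summable functions, shifts, multiplications, translations by a group, trace.
-/

set_option autoImplicit false

namespace Pool.Agent.NSA

open scoped ENNReal ComplexConjugate
open Filter Topology Classical

noncomputable section

/-- the Hilbert space of square summable functions -/
abbrev L2 (ι : Type*) := lp (fun _ : ι => ℂ) 2

variable {ι : Type*}

theorem normsq (u : L2 ι) : ‖u‖ ^ 2 = ∑' i, ‖u i‖ ^ 2 := by
  have h := lp.norm_rpow_eq_tsum (p := 2) (by norm_num) u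
  simpa using h

theorem summ (u : L2 ι) : Summable (fun i => ‖u i‖ ^ 2) := by
  have h := (lp.memℓp u).summable (by norm_num)
  simpa using h

theorem mem_of_summ {f : ι → ℂ} (h : Summable fun i => ‖f i‖ ^ 2) :
    Memℓp (E := fun _ : ι => ℂ) f 2 := by
  apply memℓp_gen
  simpa using h

/-- vectors from square summable functions -/
def mk (f : ι → ℂ) (h : Summable fun i => ‖f i‖ ^ 2) : L2 ι := ⟨f, mem_of_summ h⟩

@[simp] theorem mk_apply (f : ι → ℂ) (h : Summable fun i => ‖f i‖ ^ 2) (i : ι) :
    mk f h i = f i := rfl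

theorem norm_le_of {κ : Type*} (u : L2 ι) (w : L2 κ) (C : ℝ) (hC : 0 ≤ C) (σ : ι ≃ κ)
    (h : ∀ i, ‖u i‖ ≤ C * ‖w (σ i)‖) : ‖u‖ ≤ C * ‖w‖ := by
  have h1 : ‖u‖ ^ 2 ≤ (C * ‖w‖) ^ 2 := by
    rw [mul_pow, normsq u, normsq w, ← tsum_mul_left, ← σ.tsum_eq]
    refine Summable.tsum_le_tsum (fun i => ?_) (summ u) ?_
    · calc ‖u i‖ ^ 2 ≤ (C * ‖w (σ i)‖) ^ 2 := by
            gcongr; exact h i
        _ = C ^ 2 * ‖w (σ i)‖ ^ 2 := by ring
    · exact (σ.summable_iff.2 (summ w)).mul_left _
  exact le_of_sq_le_sq h1 (by positivity)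

/-- composition with a permutation of the index set -/
def shift (σ : Equiv.Perm ι) : L2 ι →L[ℂ] L2 ι :=
  LinearMap.mkContinuous
    { toFun := fun u => mk (fun i => u (σ i)) (σ.summable_iff.2 (summ u))
      map_add' := fun u w => by ext i; rfl
      map_smul' := fun c u => by ext i; rfl } 1
    (fun u => by
      apply norm_le_of _ _ 1 zero_le_one σ
      intro i
      simp)

@[simp] theorem shift_apply (σ : Equiv.Perm ι) (u : L2 ι) (i : ι) : shift σ u i = u (σ i) := rfl

theorem inner_shift (σ : Equiv.Perm ι) (u w : L2 ι) :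
    inner ℂ (shift σ u) w = inner ℂ u (shift σ⁻¹ w) := by
  rw [lp.inner_eq_tsum, lp.inner_eq_tsum, ← σ.tsum_eq (fun i => inner ℂ (u i) _)]
  simp

theorem adjoint_shift (σ : Equiv.Perm ι) :
    ContinuousLinearMap.adjoint (shift σ) = shift σ⁻¹ := by
  symm
  rw [ContinuousLinearMap.eq_adjoint_iff]
  intro x y
  rw [inner_shift, inv_inv]

/-- multiplication by a bounded function -/
def mulB (m : ι → ℂ) (C : ℝ) (hC : ∀ i, ‖m i‖ ≤ C) : L2 ι →L[ℂ] L2 ι :=
  LinearMap.mkContinuous
    { toFun := fun u => mk (fun i => m i * u i) (by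
        refine Summable.of_nonneg_of_le (fun i => by positivity) (fun i => ?_)
          ((summ u).mul_left (C ^ 2))
        rw [norm_mul, mul_pow]
        gcongr
        exact hC i)
      map_add' := fun u w => by
        ext i
        show m i * (u i + w i) = m i * u i + m i * w i
        ring
      map_smul' := fun c u => by
        ext i
        show m i * (c * u i) = c * (m i * u i)
        ring } |C|
    (fun u => by
      apply norm_le_of _ _ |C| (abs_nonneg _) (Equiv.refl ι)
      intro i
      show ‖m i * u i‖ ≤ _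
      rw [norm_mul]
      simp only [Equiv.refl_apply]
      gcongr
      exact (hC i).trans (le_abs_self C))

@[simp] theorem mulB_apply (m : ι → ℂ) (C : ℝ) (hC : ∀ i, ‖m i‖ ≤ C) (u : L2 ι) (i : ι) :
    mulB m C hC u i = m i * u i := rfl

/-- unit vectors -/
def dl (i : ι) : L2 ι := lp.single 2 i (1 : ℂ)

theorem inner_dl_left (i : ι) (u : L2 ι) : inner ℂ (dl i) u = u i := by
  rw [dl, lp.inner_single_left]
  simp

theorem inner_dl_right (i : ι) (u : L2 ι) : inner ℂ u (dl i) = conj (u i) := by
  rw [← inner_conj_symm, inner_dl_left]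

theorem dl_apply (i j : ι) : dl i j = if j = i then 1 else 0 := by
  rw [dl, lp.coeFn_single]
  by_cases h : j = i
  · subst h; simp
  · simp [h]

theorem norm_dl (i : ι) : ‖dl i‖ = 1 := by
  rw [dl, lp.norm_single (by norm_num)]
  simp

theorem shift_dl (σ : Equiv.Perm ι) (i : ι) : shift σ (dl i) = dl (σ⁻¹ i) := by
  ext j
  rw [shift_apply, dl_apply, dl_apply]
  congr 1
  rw [Equiv.Perm.eq_inv_iff_eq]

/-- products of two vectors are summable -/
theorem summ_mul (u w : L2 ι) : Summable (fun i => ‖u i‖ * ‖w i‖) := by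
  refine lp.summable_mul ?_ u w
  rw [Real.holderConjugate_iff]; norm_num

end

end Pool.Agent.NSA
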