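import Pool.Agent.NSA.Walk
import Pool.Agent.NSA.L2

/-!
helper26: the universal cover of a finite multigraph, the eigenspaces of the lifted operator and
their dimension per fundamental domain.
-/

set_option autoImplicit false
set_option linter.unusedSectionVars false
set_option linter.deprecated false
set_option linter.unusedVariables false

namespace Pool.Agent.NSA

open scoped ENNReal ComplexConjugate
open Filter Topology Classical Finset

noncomputable section

variable {V D : Type*} [Fintype V] [Fintype D] (G : Gr V D)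

/-- the vertices of the universal cover with base point `v0`: the walks without backtracking
which begin at `v0`, together with their end (the image in `G`) -/
abbrev Gr.Cov (v0 : V) : Type _ :=
  {w : List D × V // G.IsWalk univ v0 w.1 w.2 ∧ G.NB w.1}

/-- crossing the dart `d` -/
def Gr.crs (l : List D) (d : D) : List D :=
  if l.getLast? = some (G.r d) then l.dropLast else l ++ [d]

variable {G}

theorem isWalk_snoc {C : Finset V} (d : D) (z : V) : ∀ (l : List D) (x : V),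
    G.IsWalk C x (l ++ [d]) z ↔ G.IsWalk C x l (G.s d) ∧ G.t d = z ∧ z ∈ C
  | [], x => by
      rw [List.nil_append, walk_cons, walk_nil, walk_nil]
      constructor
      · rintro ⟨h1, h2, h3, h4⟩
        exact ⟨⟨h1.symm, h2⟩, h3, h3 ▸ h4⟩
      · rintro ⟨⟨h1, h2⟩, h3, h4⟩
        exact ⟨h1.symm, h2, h3, h3 ▸ h4⟩
  | e :: l, x => by
      rw [List.cons_append, walk_cons, walk_cons, isWalk_snoc d z l (G.t e)]
      tauto

theorem nb_snoc {l : List D} {d : D} : G.NB (l ++ [d]) ↔ G.NB l ∧ ∀ e ∈ l.getLast?, d ≠ G.r e := by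
  unfold Gr.NB
  rw [List.isChain_append]
  simp

theorem crs_ok {v0 x : V} {l : List D} (h : G.IsWalk univ v0 l x) (hn : G.NB l) {d : D}
    (hd : G.s d = x) : G.IsWalk univ v0 (G.crs l d) (G.t d) ∧ G.NB (G.crs l d) := by
  unfold Gr.crs
  split_ifs with hl
  · have e : l = l.dropLast ++ [G.r d] := by
      rw [← List.dropLast_append_getLast? _ hl]
      simp
    rw [e] at h hn
    exact ⟨((isWalk_snoc _ _ _ _).1 h).1, (nb_snoc.1 hn).1⟩
  · refine ⟨(isWalk_snoc _ _ _ _).2 ⟨hd ▸ h, rfl, mem_univ _⟩, nb_snoc.2 ⟨hn, ?_⟩⟩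
    rintro e he rfl
    apply hl
    rw [G.rr]
    exact he

theorem vol_crs (l : List D) (d : D) : G.vol (G.crs l d) = G.vol l * G.y d := by
  unfold Gr.crs
  split_ifs with hl
  · have e : l = l.dropLast ++ [G.r d] := by
      rw [← List.dropLast_append_getLast? _ hl]
      simp
    conv_rhs => rw [e]
    rw [G.vol_append, G.vol_cons, G.vol_nil, mul_one, G.y_r, inv_mul_cancel_right]
  · rw [G.vol_append, G.vol_cons, G.vol_nil, mul_one]

variable (G)

/-- the neighbour of `w` across the dart `d` (meaningful if `d` starts at the image of `w`) -/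
def Gr.nbr {v0 : V} (w : G.Cov v0) (d : D) : G.Cov v0 :=
  if h : G.s d = w.1.2 then ⟨(G.crs w.1.1 d, G.t d), crs_ok w.2.1 w.2.2 h⟩ else w

/-- the lifted operator on functions on the universal cover -/
def Gr.op {v0 : V} (b : V → ℂ) (a : D → ℂ) (u : G.Cov v0 → ℂ) (w : G.Cov v0) : ℂ :=
  b w.1.2 * u w + ∑ d ∈ univ.filter (fun d => G.s d = w.1.2), a d * u (G.nbr w d)

/-- `u` is square summable and `H u = lam u` on the universal cover -/
def Gr.Sol {v0 : V} (b : V → ℂ) (a : D → ℂ) (lam : ℂ) (u : G.Cov v0 → ℂ) : Prop :=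
  Summable (fun w => ‖u w‖ ^ 2) ∧ ∀ w, G.op b a u w = lam * u w

/-- the dimension of the eigenspace per fundamental domain: the sum over the vertices of `G` of
`⟪δ, P δ⟫ = sup |u|²`, at a lift of the vertex, over the eigenfunctions `u` of norm at most `1` -/
def Gr.dim {v0 : V} (lift : V → G.Cov v0) (b : V → ℂ) (a : D → ℂ) (lam : ℂ) : ℝ :=
  ∑ x, sSup {r : ℝ | ∃ u, G.Sol b a lam u ∧ ∑' w, ‖u w‖ ^ 2 ≤ 1 ∧ r = ‖u (lift x)‖ ^ 2}

theorem op_add {v0 : V} (b : V → ℂ) (a : D → ℂ) (lam : ℂ) {u u' : L2 (G.Cov v0)}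
    (hu : ∀ w, G.op b a u w = lam * u w) (hu' : ∀ w, G.op b a u' w = lam * u' w) :
    ∀ w, G.op b a (u + u' : L2 (G.Cov v0)) w = lam * (u + u' : L2 (G.Cov v0)) w := by
  intro w
  have h1 := hu w
  have h2 := hu' w
  unfold Gr.op at h1 h2 ⊢
  show b w.1.2 * (u w + u' w) + ∑ d ∈ univ.filter (fun d => G.s d = w.1.2),
    a d * (u (G.nbr w d) + u' (G.nbr w d)) = lam * (u w + u' w)
  have e : ∑ d ∈ univ.filter (fun d => G.s d = w.1.2),
      a d * (u (G.nbr w d) + u' (G.nbr w d)) =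
      ∑ d ∈ univ.filter (fun d => G.s d = w.1.2), a d * u (G.nbr w d) +
      ∑ d ∈ univ.filter (fun d => G.s d = w.1.2), a d * u' (G.nbr w d) := by
    rw [← Finset.sum_add_distrib]
    exact Finset.sum_congr rfl (fun d _ => mul_add _ _ _)
  rw [e]
  linear_combination h1 + h2

theorem op_zero {v0 : V} (b : V → ℂ) (a : D → ℂ) (lam : ℂ) :
    ∀ w, G.op b a (0 : L2 (G.Cov v0)) w = lam * (0 : L2 (G.Cov v0)) w := by
  intro w
  unfold Gr.op
  show b w.1.2 * (0 : ℂ) + ∑ d ∈ univ.filter (fun d => G.s d = w.1.2),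
    a d * (0 : ℂ) = lam * (0 : ℂ)
  simp

theorem op_smul {v0 : V} (b : V → ℂ) (a : D → ℂ) (lam c : ℂ) {u : L2 (G.Cov v0)}
    (hu : ∀ w, G.op b a u w = lam * u w) :
    ∀ w, G.op b a (c • u : L2 (G.Cov v0)) w = lam * (c • u : L2 (G.Cov v0)) w := by
  intro w
  have h1 := hu w
  unfold Gr.op at h1 ⊢
  show b w.1.2 * (c * u w) + ∑ d ∈ univ.filter (fun d => G.s d = w.1.2),
    a d * (c * u (G.nbr w d)) = lam * (c * u w)
  have e : ∑ d ∈ univ.filter (fun d => G.s d = w.1.2), a d * (c * u (G.nbr w d)) =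
      c * ∑ d ∈ univ.filter (fun d => G.s d = w.1.2), a d * u (G.nbr w d) := by
    rw [Finset.mul_sum]
    exact Finset.sum_congr rfl (fun d _ => by ring)
  rw [e]
  linear_combination c * h1

/-- the eigenspace in `ℓ²` of the universal cover -/
def Gr.ES (v0 : V) (b : V → ℂ) (a : D → ℂ) (lam : ℂ) : Submodule ℂ (L2 (G.Cov v0)) where
  carrier := {u | ∀ w, G.op b a u w = lam * u w}
  add_mem' := op_add G b a lam
  zero_mem' := op_zero G b a lam
  smul_mem' := fun c _ => op_smul G b a lam c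

variable {G}

theorem continuous_ev {ι : Type*} (i : ι) : Continuous (fun u : L2 ι => u i) := by
  have : (fun u : L2 ι => u i) = fun u => inner ℂ (dl i) u := by
    funext u; rw [inner_dl_left]
  rw [this]
  exact continuous_const.inner continuous_id

theorem isClosed_ES (v0 : V) (b : V → ℂ) (a : D → ℂ) (lam : ℂ) :
    IsClosed (G.ES v0 b a lam : Set (L2 (G.Cov v0))) := by
  have : (G.ES v0 b a lam : Set (L2 (G.Cov v0))) = ⋂ w : G.Cov v0, {u | b w.1.2 * u w +
    ∑ d ∈ univ.filter (fun d => G.s d = w.1.2), a d * u (G.nbr w d) = lam * u w} := by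
    ext u
    rw [Set.mem_iInter]
    rfl
  rw [this]
  refine isClosed_iInter (fun w => isClosed_eq ?_ ?_)
  · refine (continuous_const.mul (continuous_ev _)).add (continuous_finset_sum _ (fun d _ => ?_))
    exact continuous_const.mul (continuous_ev _)
  · exact continuous_const.mul (continuous_ev _)

theorem complete_ES (v0 : V) (b : V → ℂ) (a : D → ℂ) (lam : ℂ) :
    CompleteSpace (G.ES v0 b a lam) := (isClosed_ES v0 b a lam).completeSpace_coe

instance (v0 : V) (b : V → ℂ) (a : D → ℂ) (lam : ℂ) :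
    (G.ES v0 b a lam).HasOrthogonalProjection := by
  have := complete_ES (G := G) v0 b a lam
  infer_instance

theorem mk_mem_ES {v0 : V} {b : V → ℂ} {a : D → ℂ} {lam : ℂ} {u : G.Cov v0 → ℂ}
    (hu : G.Sol b a lam u) : mk u hu.1 ∈ G.ES v0 b a lam := hu.2

theorem sol_of_mem {v0 : V} {b : V → ℂ} {a : D → ℂ} {lam : ℂ} {u : L2 (G.Cov v0)}
    (hu : u ∈ G.ES v0 b a lam) : G.Sol b a lam (fun w => u w) := ⟨summ u, hu⟩

theorem exists_sol {v0 : V} {b : V → ℂ} {a : D → ℂ} {lam : ℂ} :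
    (∃ u : G.Cov v0 → ℂ, G.Sol b a lam u ∧ u ≠ 0) ↔ ∃ u ∈ G.ES v0 b a lam, u ≠ 0 := by
  constructor
  · rintro ⟨u, hu, h0⟩
    refine ⟨mk u hu.1, mk_mem_ES hu, fun h => h0 ?_⟩
    funext w
    have := congrArg (fun v : L2 (G.Cov v0) => v w) h
    exact this
  · rintro ⟨u, hu, h0⟩
    refine ⟨fun w => u w, sol_of_mem hu, fun h => h0 ?_⟩
    ext w
    exact congrFun h w

variable (G)

/-- the trace of the orthogonal projection over a choice of lifts of the vertices -/
def Gr.dimP {v0 : V} (lift : V → G.Cov v0) (b : V → ℂ) (a : D → ℂ) (lam : ℂ) : ℝ :=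
  ∑ x, ‖(G.ES v0 b a lam).starProjection (dl (lift x))‖ ^ 2

variable {G}

theorem dim_eq_dimP {v0 : V} (lift : V → G.Cov v0) (b : V → ℂ) (a : D → ℂ) (lam : ℂ) :
    G.dim lift b a lam = G.dimP lift b a lam := by
  unfold Gr.dim Gr.dimP
  refine Finset.sum_congr rfl (fun x _ => ?_)
  set K := G.ES v0 b a lam with hK
  set δ : L2 (G.Cov v0) := dl (lift x) with hδ
  set z := K.starProjection δ with hz
  have hzK : z ∈ K := Submodule.starProjection_apply_mem K δ
  have hin : ∀ u ∈ K, inner ℂ z u = u (lift x) := by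
    intro u hu
    rw [hz, Submodule.inner_starProjection_left_eq_right,
      (Submodule.starProjection_eq_self_iff).2 hu, hδ, inner_dl_left]
  have hzz : ‖z (lift x)‖ = ‖z‖ ^ 2 := by
    rw [← hin z hzK, inner_self_eq_norm_sq_to_K]
    simp
  apply IsGreatest.csSup_eq
  constructor
  · by_cases h0 : ‖z‖ = 0
    · refine ⟨fun _ => 0, ⟨by simpa using summable_zero, ?_⟩, by simp, by simp [h0]⟩
      intro w
      simp [Gr.op]
    · have hzn : ((‖z‖ : ℂ)⁻¹ • z : L2 (G.Cov v0)) ∈ K := K.smul_mem _ hzK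
      have hval : ∀ w, ((‖z‖ : ℂ)⁻¹ • z : L2 (G.Cov v0)) w = (‖z‖ : ℂ)⁻¹ * z w := fun w => rfl
      refine ⟨_, sol_of_mem hzn, ?_, ?_⟩
      · rw [← normsq, norm_smul]
        have : ‖(‖z‖ : ℂ)⁻¹‖ * ‖z‖ = 1 := by
          rw [norm_inv, Complex.norm_real, norm_norm, inv_mul_cancel₀ h0]
        rw [this]; norm_num
      · rw [hval, norm_mul, hzz, norm_inv, Complex.norm_real, norm_norm]
        field_simp
  · rintro r ⟨u, hu, h1, rfl⟩
    have h2 := hin _ (mk_mem_ES hu)
    have h3 : ‖(mk u hu.1 : L2 (G.Cov v0))‖ ≤ 1 := by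
      have h4 : ‖(mk u hu.1 : L2 (G.Cov v0))‖ ^ 2 ≤ 1 := by
        rw [normsq]; exact h1
      nlinarith [norm_nonneg (mk u hu.1 : L2 (G.Cov v0))]
    have h5 : ‖u (lift x)‖ ≤ ‖z‖ := by
      have h6 := norm_inner_le_norm (𝕜 := ℂ) z (mk u hu.1)
      rw [h2] at h6
      calc ‖u (lift x)‖ ≤ ‖z‖ * ‖(mk u hu.1 : L2 (G.Cov v0))‖ := h6
        _ ≤ ‖z‖ * 1 := by gcongr
        _ = ‖z‖ := mul_one _
    gcongr

end

end Pool.Agent.NSA
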