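import Pool.Agent.NSA.Count

/-!
helper26: the families of trees; an eigenfunction on the covering forest gives such a family.
-/

set_option autoImplicit false
set_option linter.unusedSectionVars false
set_option linter.deprecated false
set_option linter.unusedVariables false

namespace Pool.Agent.NSA

open scoped ENNReal ComplexConjugate
open Filter Topology Classical ContinuousLinearMap Finset

noncomputable section

variable {V D : Type*} [Fintype V] [Fintype D] (G : Gr V D)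

variable {G}
variable {b : V → ℂ} {a : D → ℂ} {lam : ℂ}

theorem E_comp {C : Finset V} {z : V} (hz : z ∈ G.X b a lam)
    (hC : ∀ x, x ∈ C ↔ x ∈ G.X b a lam ∧ ∃ h, G.Rel (G.X b a lam) (z, 1) (x, h))
    (huniq : ∀ x ∈ C, ∀ g g', G.Rel (G.X b a lam) (x, g) (x, g') → g = g') :
    G.Eig b a lam C := by
  obtain ⟨u, hu, h1⟩ := E_nonvanish hz 1
  have h2 : ∀ x, ∃ g, x ∈ C → G.Rel (G.X b a lam) (z, 1) (x, g) := by
    intro x
    by_cases hx : x ∈ C
    · obtain ⟨h, hh⟩ := ((hC x).1 hx).2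
      exact ⟨h, fun _ => hh⟩
    · exact ⟨1, fun h => absurd h hx⟩
  choose pt hpt using h2
  have hzC : z ∈ C := (hC z).2 ⟨hz, 1, Gr.Rel.refl _⟩
  have hptz : pt z = 1 := (huniq z hzC _ _ (hpt z hzC)).symm
  obtain ⟨f, hf1, hf2⟩ : ∃ f : V → ℂ, (∀ x ∈ C, f x = u (x, pt x)) ∧ ∀ x, x ∉ C → f x = 0 :=
    ⟨fun x => if x ∈ C then u (x, pt x) else 0, fun x hx => if_pos hx, fun x hx => if_neg hx⟩
  refine ⟨f, ⟨z, ?_⟩, hf2, ?_⟩
  · rw [hf1 z hzC, hptz]; exact h1
  · intro x hx
    rw [hf1 x hx, ← mem_E.1 hu x (pt x)]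
    congr 1
    refine Finset.sum_congr rfl (fun d hd => ?_)
    have hd1 : G.s d = x := (Finset.mem_filter.1 hd).2
    subst hd1
    congr 1
    by_cases ht : G.t d ∈ G.X b a lam
    · have h3 : G.Rel (G.X b a lam) (z, 1) (G.t d, pt (G.s d) * G.y d) :=
        Relation.ReflTransGen.tail (hpt _ hx) ⟨d, rfl, ((hC _).1 hx).1, ht, rfl⟩
      have h4 : G.t d ∈ C := (hC _).2 ⟨ht, _, h3⟩
      rw [hf1 _ h4, huniq _ h4 _ _ ((hpt _ h4).symm.trans h3)]
    · rw [hf2 _ (fun h => ht ((hC _).1 h).1), E_vanish hu ht]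

/-- the relation between the vertices of a component -/
def relV (G : Gr V D) (X : Finset V) : Setoid V where
  r x w := ∃ h, G.Rel X (x, 1) (w, h)
  iseqv := by
    refine ⟨fun x => ⟨1, Gr.Rel.refl _⟩, ?_, ?_⟩
    · rintro x w ⟨h, hh⟩
      refine ⟨h⁻¹, ?_⟩
      have := hh.symm.smul h⁻¹
      simpa using this
    · rintro x w v ⟨h, hh⟩ ⟨k, hk⟩
      refine ⟨h * k, ?_⟩
      have := hk.smul h
      simp only [mul_one] at this
      exact hh.trans this

theorem dm_ker_A : (Fintype.card V : ℝ) - (G.X b a lam).card + dm (G.E b a lam) ≤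
    dm (G.K b a lam) := by
  have h1 := dm_ker (inv_A G b a lam)
  have h2 : dm (G.K b a lam) = dm (LinearMap.ker (G.A b a lam).toLinearMap) := h1.symm
  rw [h2]
  have h3 : dm (sup (FreeGroup D) (G.X b a lam)ᶜ) = (Fintype.card V : ℝ) - (G.X b a lam).card := by
    rw [dm_sup, Finset.card_compl, Nat.cast_sub (Finset.card_le_univ _)]
  rw [← h3]
  apply dm_add
  · intro u hu
    show (G.H b a - lam • (1 : HH V (FreeGroup D) →L[ℂ] HH V (FreeGroup D)))
      (mulV (ind (G.X b a lam)) u) = 0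
    have : mulV (ind (G.X b a lam)) u = 0 := by
      ext ⟨v, g⟩
      rw [mulV_apply, ind]
      split_ifs with hv
      · rw [mem_sup.1 hu v (by simpa using hv) g]; simp
      · simp
    rw [this, map_zero]
  · intro u hu
    show (G.H b a - lam • (1 : HH V (FreeGroup D) →L[ℂ] HH V (FreeGroup D)))
      (mulV (ind (G.X b a lam)) u) = 0
    have : mulV (ind (G.X b a lam)) u = u := by
      ext ⟨v, g⟩
      rw [mulV_apply, ind]
      split_ifs with hv
      · rw [one_mul]
      · rw [E_vanish hu hv, mul_zero]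
    rw [this]
    exact hu
  · intro u hu
    rw [Submodule.mem_orthogonal]
    intro w hw
    rw [lp.inner_eq_tsum]
    have : ∀ p : V × FreeGroup D, inner ℂ (w p) (u p) = (0 : ℂ) := by
      rintro ⟨v, g⟩
      by_cases hv : v ∈ G.X b a lam
      · rw [mem_sup.1 hu v (by simpa using hv) g, inner_zero_right]
      · rw [E_vanish hw hv, inner_zero_left]
    rw [tsum_congr this, tsum_zero]

/-- **eigenfunctions give families of trees** -/
theorem fam_of_E (ha : ∀ d, a d ≠ 0) : ∃ (k : ℕ) (C : Fin k → Finset V), G.Fam k C ∧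
      (∀ i, G.Eig b a lam (C i)) ∧
      dm (G.E b a lam) ≤ (k : ℝ) - (G.nb (univ.biUnion C)).card := by
  set X := G.X b a lam with hX
  set rep : V → V := fun x => Quotient.out (Quotient.mk (relV G X) x) with hrep
  have hrep1 : ∀ x, ∃ h, G.Rel X (x, 1) (rep x, h) := by
    intro x
    have h1 : (relV G X).r (rep x) x := Quotient.exact (Quotient.out_eq (Quotient.mk (relV G X) x))
    exact (relV G X).iseqv.symm h1
  have hrep2 : ∀ x w, (∃ h, G.Rel X (x, 1) (w, h)) → rep x = rep w := by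
    intro x w h
    have h1 : Quotient.mk (relV G X) x = Quotient.mk (relV G X) w := Quotient.sound h
    simp only [hrep, h1]
  set X' : Finset V := X.filter (fun x => ∃ v ∈ G.K b a lam, ∃ g, v (x, g) ≠ 0) with hX'
  -- saturation
  have hsat : ∀ x ∈ X', ∀ w, (∃ h, G.Rel X (x, 1) (w, h)) → w ∈ X' := by
    intro x hx w ⟨h, hh⟩
    obtain ⟨h1, v, hv, g, h2⟩ := Finset.mem_filter.1 hx
    refine Finset.mem_filter.2 ⟨hh.mem h1, v, hv, g * h, fun h3 => h2 ?_⟩
    have h4 := hh.smul g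
    simp only [mul_one] at h4
    exact K_rel_zero ha hv h4.symm h3
  set Z : Finset V := X'.image rep with hZ
  have hZX : Z ⊆ X' := by
    intro z hz
    obtain ⟨x, hx, rfl⟩ := Finset.mem_image.1 hz
    exact hsat x hx _ (hrep1 x)
  have hX'X : X' ⊆ X := Finset.filter_subset _ _
  have hZrep : ∀ z ∈ Z, rep z = z := by
    intro z hz
    obtain ⟨x, hx, rfl⟩ := Finset.mem_image.1 hz
    exact (hrep2 x _ (hrep1 x)).symm
  -- the bound
  have hdisj : Disjoint X (G.nb X) := by
    rw [Finset.disjoint_left]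
    intro x hx hx'
    exact (G.mem_nb.1 hx').1 hx
  set Y : Finset V := Z ∪ (X ∪ G.nb X)ᶜ with hY
  have hdm : dm (G.K b a lam) ≤ Y.card := by
    apply dm_le_card (invS_K G b a lam)
    intro v hv h0
    ext ⟨x, g⟩
    show v (x, g) = 0
    by_cases hx : x ∈ X
    · by_cases hx' : x ∈ X'
      · obtain ⟨h, hh⟩ := hrep1 x
        have h1 := hh.smul g
        simp only [mul_one] at h1
        refine K_rel_zero ha hv h1.symm ?_
        exact h0 _ (Finset.mem_union_left _ (Finset.mem_image_of_mem rep hx')) _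
      · by_contra h1
        exact hx' (Finset.mem_filter.2 ⟨hx, v, hv, g, h1⟩)
    · by_cases hn : x ∈ G.nb X
      · exact K_nb ha hv hn g
      · refine h0 x (Finset.mem_union_right _ ?_) g
        rw [Finset.mem_compl, Finset.mem_union]
        tauto
  have hYc : (Y.card : ℝ) ≤ Z.card + ((Fintype.card V : ℝ) - (X.card + (G.nb X).card)) := by
    have h1 : Y.card ≤ Z.card + (X ∪ G.nb X)ᶜ.card := Finset.card_union_le _ _
    have h2 : ((X ∪ G.nb X)ᶜ.card : ℝ) = (Fintype.card V : ℝ) - (X.card + (G.nb X).card) := by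
      rw [Finset.card_compl, Nat.cast_sub (Finset.card_le_univ _),
        Finset.card_union_of_disjoint hdisj]
      push_cast; ring
    rw [← h2]
    exact_mod_cast h1
  have hlow := dm_ker_A (G := G) (b := b) (a := a) (lam := lam)
  have hmain : dm (G.E b a lam) ≤ (Z.card : ℝ) - (G.nb X).card := by
    rw [← hX] at hlow
    linarith
  -- the family
  set comp : V → Finset V := fun z => univ.filter (fun x => x ∈ X ∧ ∃ h, G.Rel X (z, 1) (x, h))
    with hcomp
  have hmem : ∀ z x, x ∈ comp z ↔ x ∈ X ∧ ∃ h, G.Rel X (z, 1) (x, h) := by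
    intro z x; simp [hcomp]
  have hstep : ∀ z p q, G.stp X p q → p.1 ∈ comp z → q.1 ∈ comp z := by
    intro z p q hpq hp
    obtain ⟨h1, h, h2⟩ := (hmem _ _).1 hp
    refine (hmem _ _).2 ⟨?_, ?_⟩
    · obtain ⟨d, _, _, h3, rfl⟩ := hpq
      exact h3
    · obtain ⟨d, h3, h4, h5, rfl⟩ := hpq
      exact ⟨_, Relation.ReflTransGen.tail h2 ⟨d, h3, h1, h5, rfl⟩⟩
  have huniq : ∀ x ∈ X', ∀ g g', G.Rel X (x, g) (x, g') → g = g' := by
    intro x hx g g' hr
    obtain ⟨_, v, hv, h, h2⟩ := Finset.mem_filter.1 hx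
    have h3 := hr.smul g⁻¹
    simp only [inv_mul_cancel] at h3
    have h4 := acyc ha hv h2 h3
    rw [inv_mul_eq_one] at h4
    exact h4
  have hcX' : ∀ z ∈ Z, ∀ x ∈ comp z, x ∈ X' := fun z hz x hx =>
    hsat z (hZX hz) x ((hmem _ _).1 hx).2
  have hself : ∀ z ∈ Z, z ∈ comp z := fun z hz =>
    (hmem _ _).2 ⟨hX'X (hZX hz), 1, Gr.Rel.refl _⟩
  have htree : ∀ z ∈ Z, G.IsTree (comp z) := by
    intro z hz
    apply isTree_of ⟨z, hself z hz⟩
    · intro x hx w hw
      obtain ⟨_, hx2⟩ := (hmem _ _).1 hx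
      obtain ⟨_, hw2⟩ := (hmem _ _).1 hw
      obtain ⟨h, hh⟩ := (relV G X).iseqv.trans ((relV G X).iseqv.symm hx2) hw2
      exact ⟨h, (Gr.Rel.restrict (hstep z) hh hx).1⟩
    · intro x hx h hr
      have h1 := hr.mono (X := X) (fun w hw => ((hmem _ _).1 hw).1)
      exact (huniq x (hcX' z hz x hx) _ _ h1).symm
  have heq : ∀ z ∈ Z, ∀ z' ∈ Z, ∀ x, x ∈ comp z → x ∈ comp z' → z = z' := by
    intro z hz z' hz' x hx hx'
    have h1 := hrep2 _ _ ((hmem _ _).1 hx).2
    have h2 := hrep2 _ _ ((hmem _ _).1 hx').2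
    rw [← hZrep z hz, ← hZrep z' hz', h1, h2]
  set e := Z.equivFin.symm with he
  have hinj : ∀ i j, ((e i : Z) : V) = (e j : Z) → i = j := by
    intro i j hij
    exact e.injective (Subtype.ext hij)
  refine ⟨Z.card, fun i => comp (e i), ⟨fun i => htree _ (e i).2, ?_, ?_⟩, ?_, ?_⟩
  · intro i j hij
    rw [Finset.disjoint_left]
    intro x hx hx'
    exact hij (hinj i j (heq _ (e i).2 _ (e j).2 x hx hx'))
  · intro i j d hij hs ht
    apply hij
    apply hinj
    have h1 : G.t d ∈ comp (e i) := hstep (e i) (G.s d, 1) (G.t d, 1 * G.y d)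
      ⟨d, rfl, ((hmem _ _).1 hs).1, ((hmem _ _).1 ht).1, rfl⟩ hs
    exact heq _ (e i).2 _ (e j).2 _ h1 ht
  · intro i
    exact E_comp (z := e i) (hX'X (hZX (e i).2)) (fun x => hmem _ x)
      (fun x hx => huniq x (hcX' _ (e i).2 x hx))
  · have hsub : G.nb (univ.biUnion (fun i => comp (e i))) ⊆ G.nb X := by
      intro x hx
      obtain ⟨h1, d, rfl, h2⟩ := G.mem_nb.1 hx
      obtain ⟨i, _, hi⟩ := Finset.mem_biUnion.1 h2
      refine G.mem_nb.2 ⟨?_, d, rfl, ((hmem _ _).1 hi).1⟩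
      intro h3
      apply h1
      refine Finset.mem_biUnion.2 ⟨i, mem_univ _, ?_⟩
      refine hstep (e i) (G.t d, 1) (G.s d, 1 * G.y (G.r d)) ⟨G.r d, rfl, ((hmem _ _).1 hi).1,
        ?_, ?_⟩ hi
      · rw [G.t_r]; exact h3
      · rw [G.t_r]
    have h1 := Finset.card_le_card hsub
    have h2 : ((G.nb (univ.biUnion (fun i => comp (e i)))).card : ℝ) ≤ (G.nb X).card := by
      exact_mod_cast h1
    linarith

end

end Pool.Agent.NSA
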