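import Pool.Agent.NSA.AdjMain

/-!
helper26: fixed weights and varying potential.
-/

set_option autoImplicit false
set_option linter.unusedSectionVars false
set_option linter.deprecated false
set_option linter.unusedVariables false

namespace Pool.Agent.NSA

open scoped ENNReal ComplexConjugate
open Filter Topology Classical Finset

noncomputable section

variable {V D : Type*} [Fintype V] [Fintype D] {G : Gr V D}

theorem hasPt_of_fam_w (hc : ∀ x z, ∃ l, G.IsWalk univ x l z) (v0 : V) {k : ℕ}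
    {C : Fin k → Finset V} (hC : G.Fam k C) (hk : (G.nb (univ.biUnion C)).card < k)
    (a : D → ℝ) (ha : ∀ d, a d ≠ 0) :
    ∃ b : V → ℝ, G.HasPt v0 b a := by
  set n : Fin k → V → ℝ := fun i x =>
    ∑ d ∈ univ.filter (fun d => G.s d = x), if G.t d ∈ C i then a d else 0 with hn
  refine ⟨fun x => - ∑ i, if x ∈ C i then n i x else 0, 0, ?_⟩
  rw [Complex.ofReal_zero]
  refine (exists_iff hc (fun d => by exact_mod_cast ha d) v0).2 ⟨k, C, hC, fun i => ?_, hk⟩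
  obtain ⟨z, hz⟩ := (hC.tree i).nonempty
  refine ⟨fun x => if x ∈ C i then 1 else 0, ⟨z, by simp [hz]⟩, fun x hx => by simp [hx], ?_⟩
  intro x hx
  have e1 : (∑ j, if x ∈ C j then n j x else 0) = n i x := by
    rw [Finset.sum_eq_single i]
    · rw [if_pos hx]
    · intro j _ hj
      rw [if_neg]
      intro h
      exact Finset.disjoint_left.1 (hC.disj i j hj.symm) hx h
    · intro h; exact absurd (mem_univ i) h
  have e2 : ∑ d ∈ univ.filter (fun d => G.s d = x),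
      (a d : ℂ) * (if G.t d ∈ C i then (1 : ℂ) else 0) = ((n i x : ℝ) : ℂ) := by
    simp only [hn, Complex.ofReal_sum]
    refine Finset.sum_congr rfl (fun d _ => ?_)
    split_ifs <;> simp
  show ((-(∑ j, if x ∈ C j then n j x else 0) : ℝ) : ℂ) * (if x ∈ C i then 1 else 0) +
    ∑ d ∈ univ.filter (fun d => G.s d = x), (a d : ℂ) * (if G.t d ∈ C i then (1 : ℂ) else 0) =
    0 * (if x ∈ C i then 1 else 0)
  rw [e1, e2, if_pos hx]
  push_cast
  ring

/-- for fixed weights some potential has no point eigenvalue -/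
theorem exists_noPt (hc : ∀ x z, ∃ l, G.IsWalk univ x l z)
    (hcyc : ∃ x l, G.IsWalk univ x l x ∧ G.NB l ∧ l ≠ []) (v0 : V) (a : D → ℝ)
    (ha : ∀ d, a d ≠ 0) : ∃ b : V → ℝ, ¬ G.HasPt v0 b a := by
  set e := Fintype.equivFin V with he
  set M : ℝ := 2 * (∑ d, |a d|) + 1 with hM
  have hMpos : 0 < M := by
    have : 0 ≤ ∑ d, |a d| := Finset.sum_nonneg (fun _ _ => abs_nonneg _)
    linarith
  set b' : V → ℝ := fun x => M * ((e x : ℕ) : ℝ) with hb'
  refine ⟨b', ?_⟩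
  rintro ⟨lam, u, hu, h0⟩
  refine h0 (no_eig_of_gap hc hcyc (fun d => by exact_mod_cast ha d) ?_ u hu)
  intro x z hxz
  have h1 : ∀ y : V, ∑ d ∈ univ.filter (fun d => G.s d = y), ‖((a d : ℝ) : ℂ)‖ ≤
      ∑ d, |a d| := by
    intro y
    simp only [Complex.norm_real, Real.norm_eq_abs]
    exact Finset.sum_le_sum_of_subset_of_nonneg (Finset.filter_subset _ _)
      (fun _ _ _ => abs_nonneg _)
  have h2 : ‖((b' x : ℝ) : ℂ) - ((b' z : ℝ) : ℂ)‖ = M *
      |((e x : ℕ) : ℝ) - ((e z : ℕ) : ℝ)| := by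
    rw [← Complex.ofReal_sub, Complex.norm_real, hb', Real.norm_eq_abs, ← mul_sub, abs_mul,
      abs_of_pos hMpos]
  have h3 : (1 : ℝ) ≤ |((e x : ℕ) : ℝ) - ((e z : ℕ) : ℝ)| := by
    have h4 : ((e x : ℕ) : ℤ) - ((e z : ℕ) : ℤ) ≠ 0 := by
      rw [sub_ne_zero]
      intro h
      exact hxz (e.injective (Fin.ext (by exact_mod_cast h)))
    have h5 := Int.one_le_abs h4
    exact_mod_cast h5
  show _ < ‖((b' x : ℝ) : ℂ) - ((b' z : ℝ) : ℂ)‖
  rw [h2]
  have h6 := h1 x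
  have h7 := h1 z
  nlinarith

/-- for the fixed weights `a`, existence of a point eigenvalue does not depend on the potential -/
def Gr.UnivB (G : Gr V D) (v0 : V) (a : D → ℝ) : Prop :=
  ∀ b b' : V → ℝ, G.HasPt v0 b a → G.HasPt v0 b' a

theorem univB_iff (hc : ∀ x z, ∃ l, G.IsWalk univ x l z)
    (hcyc : ∃ x l, G.IsWalk univ x l x ∧ G.NB l ∧ l ≠ []) (v0 : V) (a : D → ℝ)
    (ha : ∀ d, a d ≠ 0) : G.UnivB v0 a ↔ ∀ S : Finset V, (G.TC S).card ≤ S.card := by
  rw [← no_fam_iff]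
  constructor
  · rintro hU ⟨k, C, hC, hk⟩
    obtain ⟨b, hb⟩ := hasPt_of_fam_w hc v0 hC hk a ha
    obtain ⟨b', hb'⟩ := exists_noPt hc hcyc v0 a ha
    exact hb' (hU b b' hb)
  · intro hno b b' hb
    exfalso
    apply hno
    obtain ⟨lam, hu⟩ := hb
    obtain ⟨k, C, h1, _, h3⟩ := (exists_iff hc (fun d => by exact_mod_cast ha d) v0).1 hu
    exact ⟨k, C, h1, h3⟩

theorem universal_tfae (hc : ∀ x z, ∃ l, G.IsWalk univ x l z)
    (hcyc : ∃ x l, G.IsWalk univ x l x ∧ G.NB l ∧ l ≠ []) (v0 : V) :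
    [G.Univ v0,
      ∀ a : D → ℝ, (∀ d, a (G.r d) = a d) → (∀ d, 0 < a d) → G.UnivB v0 a,
      ∃ a : D → ℝ, (∀ d, a (G.r d) = a d) ∧ (∀ d, 0 < a d) ∧ G.UnivB v0 a,
      ∀ (b : V → ℂ) (a : D → ℂ) (lam : ℂ), (∀ d, a d ≠ 0) →
        ∀ u : G.Cov v0 → ℂ, G.Sol b a lam u → u = 0,
      ∀ S : Finset V, (G.TC S).card ≤ S.card].TFAE := by
  tfae_have 1 → 2 := fun h a h1 h2 b b' hb => h a a b b' h1 h2 h1 h2 hb
  tfae_have 2 → 3 := fun h => ⟨fun _ => 1, fun _ => rfl, fun _ => one_pos,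
    h (fun _ => 1) (fun _ => rfl) (fun _ => one_pos)⟩
  tfae_have 3 → 5 := by
    rintro ⟨a, _, h2, h3⟩
    exact (univB_iff hc hcyc v0 a (fun d => (h2 d).ne')).1 h3
  tfae_have 5 → 4 := by
    intro h b a lam ha
    by_contra hcon
    push Not at hcon
    obtain ⟨k, C, h2, _, h3⟩ := (exists_iff hc ha v0).1 hcon
    exact no_fam_iff.2 h ⟨k, C, h2, h3⟩
  tfae_have 4 → 1 := by
    intro h a a' b b' _ hpos _ _ hb
    obtain ⟨lam, u, hu, h0⟩ := hb
    exact absurd (h _ _ _ (fun d => by exact_mod_cast (hpos d).ne') u hu) h0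
  tfae_finish

end

end Pool.Agent.NSA
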