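import Pool.Agent.NSA.Walk

/-!
helper26: a summable flow without divergence on the covering forest vanishes.
-/

set_option autoImplicit false
set_option linter.unusedSectionVars false
set_option linter.deprecated false

namespace Pool.Agent.NSA

open Classical Finset

noncomputable section

variable {V D : Type*} [Fintype V] [Fintype D] (G : Gr V D)

/-- last darts and end points of the walks without backtracking which begin with the dart
`(g0, d0)` -/
inductive Gr.T (g0 : FreeGroup D) (d0 : D) : FreeGroup D → D → Prop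
  | base : Gr.T g0 d0 (g0 * G.y d0) d0
  | step {g : FreeGroup D} {d e : D} : Gr.T g0 d0 g d → G.s e = G.t d → e ≠ G.r d →
      Gr.T g0 d0 (g * G.y e) e

variable {G}

theorem T_list {g0 : FreeGroup D} {d0 : D} {g : FreeGroup D} {d : D} (h : G.T g0 d0 g d) :
    ∃ l, G.NB (l ++ [d]) ∧ g = g0 * G.vol (l ++ [d]) := by
  induction h with
  | base => exact ⟨[], G.nb_single _, by simp⟩
  | step _ _ h2 ih =>
    rename_i g d e _ _
    obtain ⟨l, h3, h4⟩ := ih
    refine ⟨l ++ [d], ?_, ?_⟩
    · unfold Gr.NB at h3 ⊢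
      rw [List.isChain_append]
      refine ⟨h3, List.isChain_singleton _, ?_⟩
      intro x hx z hz
      simp at hx hz
      subst hx; subst hz
      exact h2
    · rw [h4]; simp [mul_assoc]

variable (G)

/-- the far side of the dart `(g0, d0)` -/
def Gr.side (g0 : FreeGroup D) (d0 : D) (x : V) (g : FreeGroup D) : Prop :=
  ∃ d, G.T g0 d0 g d ∧ G.t d = x

variable {G}

theorem not_side (g0 : FreeGroup D) (d0 : D) : ¬ G.side g0 d0 (G.s d0) g0 := by
  rintro ⟨d, h, _⟩
  obtain ⟨l, h1, h2⟩ := T_list h
  have h3 : G.vol (l ++ [d]) = 1 := by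
    have := h2.symm
    rwa [mul_eq_left] at this
  have h4 := G.vol_ne_one h1 h3
  simp at h4

theorem side_base (g0 : FreeGroup D) (d0 : D) : G.side g0 d0 (G.t d0) (g0 * G.y d0) :=
  ⟨d0, Gr.T.base, rfl⟩

/-- the only dart leaving the far side -/
theorem side_leave {g0 : FreeGroup D} {d0 : D} {g : FreeGroup D} {e : D}
    (h1 : G.side g0 d0 (G.s e) g) (h2 : ¬ G.side g0 d0 (G.t e) (g * G.y e)) :
    g = g0 * G.y d0 ∧ e = G.r d0 := by
  obtain ⟨d, h3, h4⟩ := h1
  have h5 : e = G.r d := by
    by_contra hne
    exact h2 ⟨e, Gr.T.step h3 h4.symm hne, rfl⟩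
  subst h5
  cases h3 with
  | base => exact ⟨rfl, rfl⟩
  | step h6 h7 h8 =>
    exfalso
    apply h2
    rename_i g1 d1
    refine ⟨d1, ?_, ?_⟩
    · rw [G.y_r, mul_inv_cancel_right]; exact h6
    · rw [G.t_r, h7]

theorem side_enter {g0 : FreeGroup D} {d0 : D} {g : FreeGroup D} {e : D}
    (h1 : ¬ G.side g0 d0 (G.s e) g) (h2 : G.side g0 d0 (G.t e) (g * G.y e)) :
    g = g0 ∧ e = d0 := by
  have h3 := side_leave (G := G) (g0 := g0) (d0 := d0) (g := g * G.y e) (e := G.r e) h2 (by
    rw [G.t_r, G.y_r, mul_inv_cancel_right]; exact h1)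
  have h4 : e = d0 := by
    have := congrArg G.r h3.2
    rwa [G.rr, G.rr] at this
  subst h4
  exact ⟨mul_right_cancel h3.1, rfl⟩

/-- a summable flow without divergence vanishes -/
theorem flow_zero (W : FreeGroup D → D → ℂ)
    (hanti : ∀ g d, W (g * G.y d) (G.r d) = - W g d)
    (hdiv : ∀ x g, ∑ d ∈ univ.filter (fun d => G.s d = x), W g d = 0)
    (hs : ∀ d, Summable (fun g => W g d)) (g0 : FreeGroup D) (d0 : D) : W g0 d0 = 0 := by
  set χ : V → FreeGroup D → ℂ := fun x g => if G.side g0 d0 x g then 1 else 0 with hχ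
  have hχn : ∀ x g, ‖χ x g‖ ≤ 1 := by
    intro x g
    simp only [hχ]
    split_ifs <;> simp
  have hsn : ∀ d, Summable (fun g => ‖W g d‖) := fun d => (hs d).norm
  have hs1 : ∀ d, Summable (fun g => χ (G.s d) g * W g d) := by
    intro d
    refine Summable.of_norm_bounded (hsn d) (fun g => ?_)
    rw [norm_mul]
    exact mul_le_of_le_one_left (norm_nonneg _) (hχn _ _)
  have hs2 : ∀ d, Summable (fun g => χ (G.t d) (g * G.y d) * W g d) := by
    intro d
    refine Summable.of_norm_bounded (hsn d) (fun g => ?_)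
    rw [norm_mul]
    exact mul_le_of_le_one_left (norm_nonneg _) (hχn _ _)
  have e1 : ∑ d, ∑' g, χ (G.s d) g * W g d = 0 := by
    rw [← Summable.tsum_finsetSum (fun d _ => hs1 d)]
    have : ∀ g, ∑ d, χ (G.s d) g * W g d = 0 := by
      intro g
      rw [← Finset.sum_fiberwise (s := univ) (g := G.s)]
      refine Finset.sum_eq_zero (fun x _ => ?_)
      have h1 : ∀ d ∈ univ.filter (fun d => G.s d = x), χ (G.s d) g * W g d = χ x g * W g d := by
        intro d hd
        rw [(Finset.mem_filter.1 hd).2]
      rw [Finset.sum_congr rfl h1, ← Finset.mul_sum, hdiv, mul_zero]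
    simp [this]
  have e2 : ∑ d, ∑' g, χ (G.t d) (g * G.y d) * W g d = 0 := by
    have h1 : ∀ d, ∑' g, χ (G.t d) (g * G.y d) * W g d =
        - ∑' g, χ (G.s (G.r d)) g * W g (G.r d) := by
      intro d
      rw [← tsum_neg, ← (Equiv.mulRight (G.y d)).tsum_eq
        (fun g => -(χ (G.s (G.r d)) g * W g (G.r d)))]
      refine tsum_congr (fun g => ?_)
      simp only [Equiv.coe_mulRight]
      rw [hanti]
      show χ (G.s (G.r d)) (g * G.y d) * W g d = _
      ring
    rw [Finset.sum_congr rfl (fun d _ => h1 d), Finset.sum_neg_distrib, neg_eq_zero, ← e1]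
    exact Equiv.sum_comp (Function.Involutive.toPerm G.r G.rr)
      (fun d => ∑' g, χ (G.s d) g * W g d)
  have e3 : ∑ d, ∑' g, (χ (G.t d) (g * G.y d) * W g d - χ (G.s d) g * W g d) = 0 := by
    have : ∀ d, ∑' g, (χ (G.t d) (g * G.y d) * W g d - χ (G.s d) g * W g d) =
        ∑' g, χ (G.t d) (g * G.y d) * W g d - ∑' g, χ (G.s d) g * W g d := fun d =>
      (hs2 d).tsum_sub (hs1 d)
    rw [Finset.sum_congr rfl (fun d _ => this d), Finset.sum_sub_distrib, e1, e2, sub_zero]
  have e4 : ∀ d, ∑' g, (χ (G.t d) (g * G.y d) * W g d - χ (G.s d) g * W g d) =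
      (if d = d0 then W g0 d0 else 0) + (if d = G.r d0 then W g0 d0 else 0) := by
    intro d
    have hne : G.r d0 ≠ d0 := G.rne d0
    by_cases h1 : d = d0
    · subst h1
      rw [if_pos rfl, if_neg (fun h => hne h.symm), add_zero, tsum_eq_single g0]
      · have a1 : χ (G.t d) (g0 * G.y d) = 1 := if_pos (side_base g0 d)
        have a2 : χ (G.s d) g0 = 0 := if_neg (not_side g0 d)
        rw [a1, a2]; ring
      · intro g hg
        by_cases h2 : G.side g0 d (G.s d) g
        · by_cases h3 : G.side g0 d (G.t d) (g * G.y d)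
          · simp only [hχ, if_pos h2, if_pos h3]; ring
          · exact absurd (side_leave h2 h3).2 (fun h => hne h.symm)
        · by_cases h3 : G.side g0 d (G.t d) (g * G.y d)
          · exact absurd (side_enter h2 h3).1 hg
          · simp only [hχ, if_neg h2, if_neg h3]; ring
    · by_cases h1' : d = G.r d0
      · rw [if_neg h1, if_pos h1', zero_add, tsum_eq_single (g0 * G.y d0)]
        · have a1 : χ (G.t d) (g0 * G.y d0 * G.y d) = 0 := by
            apply if_neg
            rw [h1', G.t_r, G.y_r, mul_inv_cancel_right]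
            exact not_side g0 d0
          have a2 : χ (G.s d) (g0 * G.y d0) = 1 := by
            apply if_pos
            rw [h1']
            exact side_base g0 d0
          rw [a1, a2, h1', hanti]; ring
        · intro g hg
          by_cases h2 : G.side g0 d0 (G.s d) g
          · by_cases h3 : G.side g0 d0 (G.t d) (g * G.y d)
            · simp only [hχ, if_pos h2, if_pos h3]; ring
            · exact absurd (side_leave h2 h3).1 hg
          · by_cases h3 : G.side g0 d0 (G.t d) (g * G.y d)
            · exact absurd (side_enter h2 h3).2 h1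
            · simp only [hχ, if_neg h2, if_neg h3]; ring
      · rw [if_neg h1, if_neg h1', zero_add]
        have : ∀ g, (χ (G.t d) (g * G.y d) * W g d - χ (G.s d) g * W g d) = 0 := by
          intro g
          by_cases h2 : G.side g0 d0 (G.s d) g
          · by_cases h3 : G.side g0 d0 (G.t d) (g * G.y d)
            · simp only [hχ, if_pos h2, if_pos h3]; ring
            · exact absurd (side_leave h2 h3).2 h1'
          · by_cases h3 : G.side g0 d0 (G.t d) (g * G.y d)
            · exact absurd (side_enter h2 h3).2 h1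
            · simp only [hχ, if_neg h2, if_neg h3]; ring
        simp [this]
  rw [Finset.sum_congr rfl (fun d _ => e4 d), Finset.sum_add_distrib] at e3
  simp only [Finset.sum_ite_eq', Finset.mem_univ, if_true] at e3
  have h5 : (2 : ℂ) * W g0 d0 = 0 := by rw [two_mul]; exact e3
  simpa using h5

end

end Pool.Agent.NSA
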