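import Pool.Agent.NSA.Coord
import Pool.Agent.NSA.Flow

/-!
helper26: a square summable eigenfunction on the covering forest gives more trees in the finite
graph, each with the same eigenvalue, than they have neighbours.
-/

set_option autoImplicit false
set_option linter.unusedSectionVars false
set_option linter.deprecated false

namespace Pool.Agent.NSA

open scoped ENNReal ComplexConjugate
open Filter Topology Classical ContinuousLinearMap Finset

noncomputable section

variable {V D : Type*} [Fintype V] [Fintype D] (G : Gr V D)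

/-- the operator on the covering forest -/
def Gr.H (b : V → ℂ) (a : D → ℂ) : HH V (FreeGroup D) →L[ℂ] HH V (FreeGroup D) :=
  mulV b + ∑ d, a d • mv (G.s d) (G.t d) (G.y d)

theorem H_apply (b : V → ℂ) (a : D → ℂ) (u : HH V (FreeGroup D)) (x : V) (g : FreeGroup D) :
    G.H b a u (x, g) = b x * u (x, g) +
      ∑ d ∈ univ.filter (fun d => G.s d = x), a d * u (G.t d, g * G.y d) := by
  have e : G.H b a u = mulV b u + ∑ d, a d • mv (G.s d) (G.t d) (G.y d) u := by
    simp [Gr.H, ContinuousLinearMap.sum_apply]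
  rw [e]
  show mulV b u (x, g) + (∑ d, a d • mv (G.s d) (G.t d) (G.y d) u) (x, g) = _
  rw [mulV_apply, lp.coeFn_sum, Finset.sum_apply, Finset.sum_filter]
  congr 1
  refine Finset.sum_congr rfl (fun d _ => ?_)
  rw [lp.coeFn_smul, Pi.smul_apply, smul_eq_mul, mv_apply]
  by_cases h : x = G.s d
  · rw [if_pos h, if_pos h.symm]
  · rw [if_neg h, if_neg (fun h' => h h'.symm), mul_zero]

theorem inv_H (b : V → ℂ) (a : D → ℂ) : Inv (G.H b a) :=
  (inv_mulV b).add (Inv.sum (fun _ _ => (inv_mv _ _ _).smul _))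

theorem adjoint_H (b : V → ℂ) (a : D → ℂ) :
    adjoint (G.H b a) = G.H (fun v => conj (b v)) (fun d => conj (a (G.r d))) := by
  unfold Gr.H
  rw [map_add, map_sum, adjoint_mulV]
  congr 1
  rw [← Equiv.sum_comp (Function.Involutive.toPerm G.r G.rr)]
  refine Finset.sum_congr rfl (fun d _ => ?_)
  rw [map_smulₛₗ]
  show (starRingEnd ℂ) (a (G.r d)) • adjoint (mv (G.s (G.r d)) (G.t (G.r d)) (G.y (G.r d))) = _
  rw [adjoint_mv, G.t_r, G.y_r, inv_inv]
  rfl

variable (b : V → ℂ) (a : D → ℂ) (lam : ℂ)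

/-- the eigenspace -/
def Gr.E : Submodule ℂ (HH V (FreeGroup D)) :=
  LinearMap.ker (G.H b a - lam • (1 : HH V (FreeGroup D) →L[ℂ] HH V (FreeGroup D))).toLinearMap

instance : (G.E b a lam).HasOrthogonalProjection := by
  unfold Gr.E; infer_instance

theorem inv_HL : Inv (G.H b a - lam • (1 : HH V (FreeGroup D) →L[ℂ] HH V (FreeGroup D))) :=
  (inv_H G b a).sub (Inv.one.smul _)

theorem invS_E : InvS (G.E b a lam) := (inv_HL G b a lam).ker

variable {G b a lam}

theorem mem_E {u : HH V (FreeGroup D)} : u ∈ G.E b a lam ↔ ∀ x g, b x * u (x, g) +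
      ∑ d ∈ univ.filter (fun d => G.s d = x), a d * u (G.t d, g * G.y d) = lam * u (x, g) := by
  rw [Gr.E, LinearMap.mem_ker]
  constructor
  · intro h x g
    have h1 : G.H b a u - lam • u = 0 := h
    have h2 : G.H b a u = lam • u := sub_eq_zero.1 h1
    rw [← H_apply, h2]; rfl
  · intro h
    show G.H b a u - lam • u = 0
    rw [sub_eq_zero]
    ext ⟨x, g⟩
    rw [H_apply, h]; rfl

variable (G b a lam)

/-- the support -/
def Gr.X : Finset V := univ.filter (fun x => ∃ u ∈ G.E b a lam, ∃ g, u (x, g) ≠ 0)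

variable {G b a lam}

theorem E_vanish {u : HH V (FreeGroup D)} (hu : u ∈ G.E b a lam) {x : V}
    (hx : x ∉ G.X b a lam) (g : FreeGroup D) : u (x, g) = 0 := by
  by_contra h
  exact hx (Finset.mem_filter.2 ⟨mem_univ _, u, hu, g, h⟩)

theorem E_nonvanish {x : V} (hx : x ∈ G.X b a lam) (g : FreeGroup D) :
    ∃ u ∈ G.E b a lam, u (x, g) ≠ 0 := by
  obtain ⟨u, hu, h, h1⟩ := (Finset.mem_filter.1 hx).2
  refine ⟨shift (lt V (h * g⁻¹)) u, invS_E G b a lam _ _ hu, ?_⟩
  rw [shift_apply, lt_apply, inv_mul_cancel_right]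
  exact h1

variable (G b a lam)

/-- the cut off operator -/
def Gr.A : HH V (FreeGroup D) →L[ℂ] HH V (FreeGroup D) :=
  (G.H b a - lam • (1 : HH V (FreeGroup D) →L[ℂ] HH V (FreeGroup D))) *
    mulV (ind (G.X b a lam))

theorem inv_A : Inv (G.A b a lam) := (inv_HL G b a lam).mul (inv_mulV _)

/-- the kernel of the adjoint of the cut off operator -/
def Gr.K : Submodule ℂ (HH V (FreeGroup D)) := LinearMap.ker (adjoint (G.A b a lam)).toLinearMap

instance : (G.K b a lam).HasOrthogonalProjection := by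
  unfold Gr.K; infer_instance

theorem invS_K : InvS (G.K b a lam) := (inv_A G b a lam).adj.ker

variable {G b a lam}

theorem mem_K {v : HH V (FreeGroup D)} (hv : v ∈ G.K b a lam) {x : V} (hx : x ∈ G.X b a lam)
    (g : FreeGroup D) : b x * conj (v (x, g)) +
      ∑ d ∈ univ.filter (fun d => G.s d = x), a (G.r d) * conj (v (G.t d, g * G.y d)) =
        lam * conj (v (x, g)) := by
  have h1 : adjoint (G.A b a lam) v = 0 := hv
  have e : adjoint (G.A b a lam) = adjoint (mulV (ind (G.X b a lam))) *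
      adjoint (G.H b a - lam • (1 : HH V (FreeGroup D) →L[ℂ] HH V (FreeGroup D))) :=
    adjoint_comp _ _
  rw [e, adjoint_mulV, conj_ind, map_sub, adjoint_H, map_smulₛₗ] at h1
  have e1 : adjoint (1 : HH V (FreeGroup D) →L[ℂ] HH V (FreeGroup D)) = 1 := by
    symm
    rw [eq_adjoint_iff]
    intro x y; rfl
  rw [e1] at h1
  have h2 : ind (G.X b a lam) x * ((G.H (fun v => conj (b v)) (fun d => conj (a (G.r d))) v) (x, g)
      - conj lam * v (x, g)) = 0 := by
    have := congrArg (fun w : HH V (FreeGroup D) => w (x, g)) h1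
    exact this
  rw [ind, if_pos hx, one_mul, H_apply, sub_eq_zero] at h2
  have h3 := congrArg conj h2
  simpa using h3

/-! ### the flow -/

/-- the flow of `u` and `v` -/
def Wf (G : Gr V D) (a : D → ℂ) (u v : HH V (FreeGroup D)) (g : FreeGroup D) (d : D) : ℂ :=
  a d * u (G.t d, g * G.y d) * conj (v (G.s d, g)) -
    a (G.r d) * u (G.s d, g) * conj (v (G.t d, g * G.y d))

theorem summ_fib (u v : HH V (FreeGroup D)) (x z : V) (h : FreeGroup D) :
    Summable (fun g => ‖u (x, g)‖ * ‖v (z, g * h)‖) := by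
  have h1 := summ_mul (mv x x 1 u) (mv x z h v)
  have h2 : Function.Injective (fun g : FreeGroup D => (x, g)) := fun g g' h => (Prod.mk.inj h).2
  have h3 := h1.comp_injective h2
  refine h3.congr (fun g => ?_)
  simp only [Function.comp]
  rw [mv_apply, mv_apply, if_pos rfl, if_pos rfl, mul_one]

theorem flow_W (ha : ∀ d, a d ≠ 0) {u v : HH V (FreeGroup D)} (hu : u ∈ G.E b a lam)
    (hv : v ∈ G.K b a lam) (g : FreeGroup D) (d : D) :
    a d * u (G.t d, g * G.y d) * conj (v (G.s d, g)) =
    a (G.r d) * u (G.s d, g) * conj (v (G.t d, g * G.y d)) := by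
  rw [← sub_eq_zero]
  refine flow_zero (G := G) (Wf G a u v) ?_ ?_ ?_ g d
  · intro g d
    unfold Wf
    rw [G.t_r, G.y_r, mul_inv_cancel_right, G.rr]
    show a (G.r d) * u (G.s d, g) * conj (v (G.t d, g * G.y d)) -
      a d * u (G.t d, g * G.y d) * conj (v (G.s d, g)) = _
    ring
  · intro x g
    have h1 : ∑ d ∈ univ.filter (fun d => G.s d = x), Wf G a u v g d =
        (∑ d ∈ univ.filter (fun d => G.s d = x), a d * u (G.t d, g * G.y d)) * conj (v (x, g)) -
        u (x, g) * ∑ d ∈ univ.filter (fun d => G.s d = x),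
          a (G.r d) * conj (v (G.t d, g * G.y d)) := by
      rw [Finset.sum_mul, Finset.mul_sum, ← Finset.sum_sub_distrib]
      refine Finset.sum_congr rfl (fun d hd => ?_)
      unfold Wf
      rw [(Finset.mem_filter.1 hd).2]
      ring
    rw [h1]
    have h2 := mem_E.1 hu x g
    by_cases hx : x ∈ G.X b a lam
    · have h3 := mem_K hv hx g
      linear_combination conj (v (x, g)) * h2 - u (x, g) * h3
    · have h3 := E_vanish hu hx g
      rw [h3] at h2 ⊢
      rw [mul_zero, mul_zero, zero_add] at h2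
      rw [h2]; ring
  · intro d
    unfold Wf
    refine Summable.sub ?_ ?_
    · refine Summable.of_norm ?_
      refine ((summ_fib v u (G.s d) (G.t d) (G.y d)).mul_left ‖a d‖).congr (fun g => ?_)
      rw [norm_mul, norm_mul, RCLike.norm_conj]; ring
    · refine Summable.of_norm ?_
      refine ((summ_fib u v (G.s d) (G.t d) (G.y d)).mul_left ‖a (G.r d)‖).congr (fun g => ?_)
      rw [norm_mul, norm_mul, RCLike.norm_conj]; ring

end

end Pool.Agent.NSA
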