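import Pool.Agent.NSA.L2

/-!
helper26: operators on `ℓ²(V × Γ)` commuting with the translations of the group `Γ`; the trace;
the dimension of invariant closed subspaces; `dim ker A = dim ker A†`.
-/

set_option autoImplicit false
set_option linter.unusedSectionVars false
set_option linter.deprecated false

namespace Pool.Agent.NSA

open scoped ENNReal ComplexConjugate
open Filter Topology Classical ContinuousLinearMap

noncomputable section

variable {V Γ : Type*} [Fintype V] [Group Γ]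

/-- left translation of the index set -/
def lt (V : Type*) {Γ : Type*} [Group Γ] (g : Γ) : Equiv.Perm (V × Γ) :=
  Equiv.prodCongr (Equiv.refl V) (Equiv.mulLeft g)

@[simp] theorem lt_apply (g : Γ) (v : V) (h : Γ) : lt V g (v, h) = (v, g * h) := rfl

theorem lt_inv (g : Γ) : (lt V g)⁻¹ = lt V g⁻¹ := by
  ext ⟨v, h⟩
  · rfl
  · rfl

/-- the space -/
abbrev HH (V Γ : Type*) := L2 (V × Γ)

/-- invariance under the translations -/
def Inv (A : HH V Γ →L[ℂ] HH V Γ) : Prop :=
  ∀ (g : Γ) (u : HH V Γ), A (shift (lt V g) u) = shift (lt V g) (A u)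

/-- the trace -/
def tr (A : HH V Γ →L[ℂ] HH V Γ) : ℂ := ∑ v : V, A (dl (v, 1)) (v, 1)

theorem Inv.mul {A B : HH V Γ →L[ℂ] HH V Γ} (hA : Inv A) (hB : Inv B) : Inv (A * B) := by
  intro g u
  show A (B (shift (lt V g) u)) = shift (lt V g) (A (B u))
  rw [hB g u, hA g]

theorem Inv.add {A B : HH V Γ →L[ℂ] HH V Γ} (hA : Inv A) (hB : Inv B) : Inv (A + B) := by
  intro g u
  simp only [ContinuousLinearMap.add_apply, hB g u, hA g, map_add]

theorem Inv.sub {A B : HH V Γ →L[ℂ] HH V Γ} (hA : Inv A) (hB : Inv B) : Inv (A - B) := by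
  intro g u
  simp only [ContinuousLinearMap.sub_apply, hB g u, hA g, map_sub]

theorem Inv.smul {A : HH V Γ →L[ℂ] HH V Γ} (hA : Inv A) (c : ℂ) : Inv (c • A) := by
  intro g u
  simp only [ContinuousLinearMap.smul_apply, hA g, map_smul]

theorem Inv.one : Inv (1 : HH V Γ →L[ℂ] HH V Γ) := fun _ _ => rfl

theorem Inv.zero : Inv (0 : HH V Γ →L[ℂ] HH V Γ) := fun g u => by simp

theorem Inv.pow {A : HH V Γ →L[ℂ] HH V Γ} (hA : Inv A) (n : ℕ) : Inv (A ^ n) := by
  induction n with
  | zero => rw [pow_zero]; exact Inv.one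
  | succ n ih => rw [pow_succ]; exact ih.mul hA

theorem Inv.sum {κ : Type*} {s : Finset κ} {A : κ → (HH V Γ →L[ℂ] HH V Γ)}
    (hA : ∀ k ∈ s, Inv (A k)) : Inv (∑ k ∈ s, A k) := by
  intro g u
  rw [ContinuousLinearMap.sum_apply, ContinuousLinearMap.sum_apply, map_sum]
  exact Finset.sum_congr rfl (fun k hk => hA k hk g u)

theorem Inv.adj {A : HH V Γ →L[ℂ] HH V Γ} (hA : Inv A) : Inv (adjoint A) := by
  intro g u
  apply ext_inner_right ℂ
  intro w
  rw [adjoint_inner_left, inner_shift, inner_shift, adjoint_inner_left, lt_inv, hA]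

theorem tr_add (A B : HH V Γ →L[ℂ] HH V Γ) : tr (A + B) = tr A + tr B := by
  simp [tr, Finset.sum_add_distrib]

theorem tr_sub (A B : HH V Γ →L[ℂ] HH V Γ) : tr (A - B) = tr A - tr B := by
  simp [tr, Finset.sum_sub_distrib]

theorem tr_smul (c : ℂ) (A : HH V Γ →L[ℂ] HH V Γ) : tr (c • A) = c * tr A := by
  simp [tr, Finset.mul_sum]

theorem coef_adj (A : HH V Γ →L[ℂ] HH V Γ) (i j : V × Γ) :
    conj (adjoint A (dl i) j) = A (dl j) i := by
  rw [← inner_dl_right j, adjoint_inner_left, inner_dl_left]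

theorem Inv.coef {A : HH V Γ →L[ℂ] HH V Γ} (hA : Inv A) (v w : V) (g : Γ) :
    A (dl (w, g)) (v, 1) = A (dl (w, 1)) (v, g⁻¹) := by
  have h : (dl (w, g) : HH V Γ) = shift (lt V g⁻¹) (dl (w, 1)) := by
    rw [shift_dl, lt_inv, inv_inv, lt_apply, mul_one]
  rw [h, hA, shift_apply, lt_apply, mul_one]

theorem tr_mul_formula {A B : HH V Γ →L[ℂ] HH V Γ} (hA : Inv A) :
    tr (A * B) = ∑ v : V, ∑ w : V, ∑' g : Γ, A (dl (w, 1)) (v, g⁻¹) * B (dl (v, 1)) (w, g) := by
  unfold tr
  refine Finset.sum_congr rfl (fun v _ => ?_)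
  have h1 : (A * B) (dl (v, 1)) (v, 1) =
      inner ℂ (adjoint A (dl (v, 1))) (B (dl (v, 1))) := by
    rw [adjoint_inner_left, inner_dl_left]; rfl
  have h2 := lp.summable_inner (𝕜 := ℂ) (adjoint A (dl (v, (1 : Γ)))) (B (dl (v, 1)))
  rw [h1, lp.inner_eq_tsum, h2.tsum_prod, tsum_fintype]
  refine Finset.sum_congr rfl (fun w _ => ?_)
  refine tsum_congr (fun g => ?_)
  rw [← hA.coef v w g, ← coef_adj A]
  simp [mul_comm]

theorem tr_comm {A B : HH V Γ →L[ℂ] HH V Γ} (hA : Inv A) (hB : Inv B) :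
    tr (A * B) = tr (B * A) := by
  rw [tr_mul_formula hA, tr_mul_formula hB, Finset.sum_comm]
  refine Finset.sum_congr rfl (fun w _ => Finset.sum_congr rfl (fun v _ => ?_))
  rw [← (Equiv.inv Γ).tsum_eq]
  refine tsum_congr (fun g => ?_)
  simp [mul_comm]

/-! ### dimensions -/

/-- dimension of a closed subspace -/
def dm (K : Submodule ℂ (HH V Γ)) [K.HasOrthogonalProjection] : ℝ :=
  ∑ v : V, ‖K.starProjection (dl (v, 1))‖ ^ 2

theorem dm_congr {K L : Submodule ℂ (HH V Γ)} [K.HasOrthogonalProjection]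
    [L.HasOrthogonalProjection] (h : K = L) : dm K = dm L := by
  subst h; rfl

theorem tr_proj (K : Submodule ℂ (HH V Γ)) [K.HasOrthogonalProjection] :
    tr K.starProjection = (dm K : ℂ) := by
  unfold tr dm
  push_cast
  refine Finset.sum_congr rfl (fun v _ => ?_)
  set x : HH V Γ := dl (v, 1) with hx
  have h1 : K.starProjection x (v, 1) = inner ℂ x (K.starProjection x) := by
    rw [hx, inner_dl_left]
  have h2 : K.starProjection (K.starProjection x) = K.starProjection x :=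
    (Submodule.starProjection_eq_self_iff).2 (Submodule.starProjection_apply_mem K x)
  have h3 : inner ℂ x (K.starProjection x) = inner ℂ (K.starProjection x) (K.starProjection x) := by
    conv_lhs => rw [← h2]
    rw [← Submodule.inner_starProjection_left_eq_right]
  rw [h1, h3, inner_self_eq_norm_sq_to_K]
  norm_cast

theorem norm_mono {K L : Submodule ℂ (HH V Γ)} [K.HasOrthogonalProjection]
    [L.HasOrthogonalProjection] (h : K ≤ L) (x : HH V Γ) :
    ‖K.starProjection x‖ ≤ ‖L.starProjection x‖ := by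
  have h1 : K.starProjection (L.starProjection x) = K.starProjection x := by
    have := Submodule.starProjection_comp_starProjection_of_le h
    exact DFunLike.congr_fun this x
  rw [← h1]
  exact Submodule.norm_starProjection_apply_le K _

theorem dm_mono {K L : Submodule ℂ (HH V Γ)} [K.HasOrthogonalProjection]
    [L.HasOrthogonalProjection] (h : K ≤ L) : dm K ≤ dm L := by
  unfold dm
  refine Finset.sum_le_sum (fun v _ => ?_)
  gcongr
  exact norm_mono h _

theorem dm_orth (K : Submodule ℂ (HH V Γ)) [K.HasOrthogonalProjection] :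
    dm Kᗮ = Fintype.card V - dm K := by
  unfold dm
  rw [eq_sub_iff_add_eq, ← Finset.sum_add_distrib]
  have : ∀ v : V, ‖Kᗮ.starProjection (dl (v, (1 : Γ)))‖ ^ 2 +
      ‖K.starProjection (dl (v, (1 : Γ)))‖ ^ 2 = 1 := by
    intro v
    have h := Submodule.norm_sq_eq_add_norm_sq_starProjection (dl (v, (1 : Γ))) K
    rw [norm_dl] at h
    linarith
  rw [Finset.sum_congr rfl (fun v _ => this v)]
  simp

theorem dm_add {K L W : Submodule ℂ (HH V Γ)} [K.HasOrthogonalProjection]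
    [L.HasOrthogonalProjection] [W.HasOrthogonalProjection] (hK : K ≤ W) (hL : L ≤ W)
    (hKL : K ≤ Lᗮ) : dm K + dm L ≤ dm W := by
  unfold dm
  rw [← Finset.sum_add_distrib]
  refine Finset.sum_le_sum (fun v _ => ?_)
  set x : HH V Γ := dl (v, 1)
  set y := W.starProjection x with hy
  have h1 : K.starProjection y = K.starProjection x := by
    have := Submodule.starProjection_comp_starProjection_of_le hK
    exact DFunLike.congr_fun this x
  have h2 : L.starProjection y = L.starProjection x := by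
    have := Submodule.starProjection_comp_starProjection_of_le hL
    exact DFunLike.congr_fun this x
  have h3 := Submodule.norm_sq_eq_add_norm_sq_starProjection y L
  have h4 := norm_mono hKL y
  rw [h1] at h4
  rw [h2] at h3
  rw [h3]
  have : ‖K.starProjection x‖ ^ 2 ≤ ‖Lᗮ.starProjection y‖ ^ 2 := by gcongr
  linarith

/-- invariant subspaces -/
def InvS (K : Submodule ℂ (HH V Γ)) : Prop :=
  ∀ (g : Γ) (u : HH V Γ), u ∈ K → shift (lt V g) u ∈ K

theorem Inv.ker {A : HH V Γ →L[ℂ] HH V Γ} (hA : Inv A) : InvS (LinearMap.ker A.toLinearMap) := by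
  intro g u hu
  rw [LinearMap.mem_ker] at hu ⊢
  have hu' : A u = 0 := hu
  show A (shift (lt V g) u) = 0
  rw [hA, hu', map_zero]

theorem InvS.proj {K : Submodule ℂ (HH V Γ)} [K.HasOrthogonalProjection] (hK : InvS K) :
    Inv K.starProjection := by
  intro g u
  apply Submodule.eq_starProjection_of_mem_orthogonal
  · exact hK g _ (Submodule.starProjection_apply_mem K u)
  · rw [← map_sub, Submodule.mem_orthogonal']
    intro k hk
    rw [inner_shift, lt_inv]
    exact (Submodule.mem_orthogonal' K _).1 (Submodule.sub_starProjection_mem_orthogonal u) _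
      (hK _ _ hk)

theorem dm_pos {K : Submodule ℂ (HH V Γ)} [K.HasOrthogonalProjection] (hK : InvS K)
    {u : HH V Γ} (hu : u ∈ K) (hu0 : u ≠ 0) : 0 < dm K := by
  by_contra hcon
  have h0 : dm K = 0 := le_antisymm (not_lt.1 hcon) (Finset.sum_nonneg fun _ _ => by positivity)
  have h1 : ∀ v : V, K.starProjection (dl (v, (1 : Γ))) = 0 := by
    intro v
    have := (Finset.sum_eq_zero_iff_of_nonneg (fun _ _ => by positivity)).1 h0 v
      (Finset.mem_univ _)
    simpa using this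
  apply hu0
  ext ⟨v, g⟩
  have h2 : (dl (v, g) : HH V Γ) = shift (lt V g⁻¹) (dl (v, 1)) := by
    rw [shift_dl, lt_inv, inv_inv, lt_apply, mul_one]
  have h3 : K.starProjection (dl (v, g)) = 0 := by
    rw [h2, hK.proj, h1, map_zero]
  have h4 : u (v, g) = inner ℂ (dl (v, g)) u := by rw [inner_dl_left]
  rw [h4, ← (Submodule.starProjection_eq_self_iff).2 hu,
    ← Submodule.inner_starProjection_left_eq_right, h3]
  simp

/-! ### kernels of an operator and of its adjoint -/

/-- the contraction -/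
def ctr (A : HH V Γ →L[ℂ] HH V Γ) (t : ℝ) : HH V Γ →L[ℂ] HH V Γ :=
  1 - (t : ℂ) • (adjoint A * A)

theorem ctr_norm (A : HH V Γ →L[ℂ] HH V Γ) (t : ℝ) (ht : 0 ≤ t) (h : t * ‖A‖ ^ 2 ≤ 1) :
    ‖ctr A t‖ ≤ 1 := by
  refine ContinuousLinearMap.opNorm_le_bound _ zero_le_one (fun x => ?_)
  rw [one_mul]
  have e : ctr A t x = x - (t : ℂ) • (adjoint A (A x)) := rfl
  have h1 : ‖ctr A t x‖ ^ 2 ≤ ‖x‖ ^ 2 := by
    rw [e, @norm_sub_sq ℂ]
    have h2 : RCLike.re (inner ℂ x ((t : ℂ) • (adjoint A (A x)))) = t * ‖A x‖ ^ 2 := by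
      rw [inner_smul_right, adjoint_inner_right, inner_self_eq_norm_sq_to_K]
      show ((t : ℂ) * ((‖A x‖ : ℂ) ^ 2)).re = _
      rw [← Complex.ofReal_pow, ← Complex.ofReal_mul, Complex.ofReal_re]
    have h3 : ‖(t : ℂ) • (adjoint A (A x))‖ ≤ t * (‖A‖ * ‖A x‖) := by
      rw [norm_smul]
      have : ‖(t : ℂ)‖ = t := by simp [abs_of_nonneg ht]
      rw [this]
      gcongr
      calc ‖adjoint A (A x)‖ ≤ ‖adjoint A‖ * ‖A x‖ := le_opNorm _ _
        _ = ‖A‖ * ‖A x‖ := by rw [LinearIsometryEquiv.norm_map]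
    have h4 : ‖(t : ℂ) • (adjoint A (A x))‖ ^ 2 ≤ t * ‖A x‖ ^ 2 := by
      calc ‖(t : ℂ) • (adjoint A (A x))‖ ^ 2 ≤ (t * (‖A‖ * ‖A x‖)) ^ 2 := by gcongr
        _ = (t * ‖A‖ ^ 2) * (t * ‖A x‖ ^ 2) := by ring
        _ ≤ 1 * (t * ‖A x‖ ^ 2) := by gcongr
        _ = t * ‖A x‖ ^ 2 := one_mul _
    have h5 : 0 ≤ t * ‖A x‖ ^ 2 := by positivity
    rw [h2]
    linarith
  exact le_of_sq_le_sq h1 (norm_nonneg _)

theorem ctr_fix (A : HH V Γ →L[ℂ] HH V Γ) (t : ℝ) (ht : 0 < t) :
    (ctr A t).eqLocus (1 : HH V Γ →L[ℂ] HH V Γ) = LinearMap.ker A.toLinearMap := by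
  ext x
  rw [LinearMap.mem_ker]
  have e : ctr A t x = x - (t : ℂ) • (adjoint A (A x)) := rfl
  constructor
  · intro h
    have h1 : ctr A t x = x := h
    rw [e, sub_eq_self, smul_eq_zero] at h1
    rcases h1 with h1 | h1
    · exact absurd (by exact_mod_cast h1) ht.ne'
    · have h2 : inner ℂ (A x) (A x) = 0 := by
        rw [← adjoint_inner_left, h1, inner_zero_left]
      exact inner_self_eq_zero.1 h2
  · intro h
    have h1 : A x = 0 := h
    show ctr A t x = x
    rw [e, h1]; simp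

theorem tr_ctr {A : HH V Γ →L[ℂ] HH V Γ} (hA : Inv A) (t : ℝ) (n : ℕ) :
    tr (ctr A t ^ n) = tr (ctr (adjoint A) t ^ n) := by
  have hc : ∀ B : HH V Γ →L[ℂ] HH V Γ, Inv B → Inv (ctr B t) := fun B hB =>
    Inv.one.sub ((hB.adj.mul hB).smul _)
  have hsemi : A * ctr A t = ctr (adjoint A) t * A := by
    unfold ctr
    rw [adjoint_adjoint, mul_sub, sub_mul, mul_one, one_mul, mul_smul_comm, smul_mul_assoc,
      mul_assoc]
  have hsemi2 : ∀ n, A * ctr A t ^ n = ctr (adjoint A) t ^ n * A := fun n =>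
    (SemiconjBy.pow_right (show SemiconjBy A (ctr A t) (ctr (adjoint A) t) from hsemi) n)
  induction n with
  | zero => simp
  | succ n ih =>
    have e1 : ctr A t ^ (n + 1) = ctr A t ^ n - (t : ℂ) • (adjoint A * (ctr (adjoint A) t ^ n * A)) := by
      rw [← hsemi2, pow_succ', ← mul_assoc]
      conv_lhs => rw [ctr, sub_mul, one_mul, smul_mul_assoc]
      rfl
    have e2 : ctr (adjoint A) t ^ (n + 1) = ctr (adjoint A) t ^ n -
        (t : ℂ) • ((ctr (adjoint A) t ^ n * A) * adjoint A) := by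
      have e3 : ctr (adjoint A) t = 1 - (t : ℂ) • (A * adjoint A) := by
        rw [ctr, adjoint_adjoint]
      calc ctr (adjoint A) t ^ (n + 1) = ctr (adjoint A) t ^ n * ctr (adjoint A) t := pow_succ _ _
        _ = ctr (adjoint A) t ^ n * (1 - (t : ℂ) • (A * adjoint A)) := congrArg _ e3
        _ = _ := by rw [mul_sub, mul_one, mul_smul_comm, mul_assoc]
    rw [e1, e2, tr_sub, tr_sub, tr_smul, tr_smul, ih,
      tr_comm hA.adj (((hc _ hA.adj).pow n).mul hA)]

theorem iter_eq (T : HH V Γ →L[ℂ] HH V Γ) (k : ℕ) (x : HH V Γ) : (⇑T)^[k] x = (T ^ k) x := by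
  induction k with
  | zero => rfl
  | succ k ih => rw [Function.iterate_succ_apply', ih, pow_succ']; rfl

theorem tr_lim {T : HH V Γ →L[ℂ] HH V Γ} (hT : ‖T‖ ≤ 1) :
    Tendsto (fun n : ℕ => (n : ℂ)⁻¹ * ∑ i ∈ Finset.range n, tr (T ^ i)) atTop
      (𝓝 ((dm (T.eqLocus (1 : HH V Γ →L[ℂ] HH V Γ)) : ℝ) : ℂ)) := by
  rw [← tr_proj]
  have h1 : ∀ x : HH V Γ, ∀ i : V × Γ,
      Tendsto (fun n : ℕ => (n : ℂ)⁻¹ * ∑ k ∈ Finset.range n, (T ^ k) x i) atTop
      (𝓝 ((T.eqLocus (1 : HH V Γ →L[ℂ] HH V Γ)).starProjection x i)) := by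
    intro x i
    have h2 := T.tendsto_birkhoffAverage_orthogonalProjection hT x
    have h3 : Tendsto (fun n : ℕ => inner ℂ (dl i) (birkhoffAverage ℂ T _root_.id n x)) atTop
        (𝓝 (inner ℂ (dl i) ((T.eqLocus (1 : HH V Γ →L[ℂ] HH V Γ)).starProjection x))) :=
      Tendsto.inner tendsto_const_nhds h2
    rw [inner_dl_left] at h3
    refine h3.congr (fun n => ?_)
    rw [inner_dl_left, birkhoffAverage, birkhoffSum, lp.coeFn_smul, Pi.smul_apply, smul_eq_mul,
      lp.coeFn_sum, Finset.sum_apply]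
    congr 1
    refine Finset.sum_congr rfl (fun k _ => ?_)
    rw [id_eq, iter_eq]
  have h4 : (fun n : ℕ => (n : ℂ)⁻¹ * ∑ i ∈ Finset.range n, tr (T ^ i)) =
      fun n : ℕ => ∑ v : V, (n : ℂ)⁻¹ * ∑ k ∈ Finset.range n, (T ^ k) (dl (v, (1 : Γ))) (v, 1) := by
    funext n
    rw [← Finset.mul_sum, Finset.sum_comm]
    rfl
  rw [h4]
  exact tendsto_finset_sum _ (fun v _ => h1 _ _)

/-- **dimension of the kernel of an invariant operator and of its adjoint** -/
theorem dm_ker {A : HH V Γ →L[ℂ] HH V Γ} (hA : Inv A) :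
    dm (LinearMap.ker A.toLinearMap) = dm (LinearMap.ker (adjoint A).toLinearMap) := by
  set t : ℝ := 1 / (‖A‖ ^ 2 + 1) with ht
  have ht0 : 0 < t := by positivity
  have h1 : t * ‖A‖ ^ 2 ≤ 1 := by
    rw [ht, div_mul_eq_mul_div, one_mul, div_le_one (by positivity)]
    linarith
  have h2 : t * ‖adjoint A‖ ^ 2 ≤ 1 := by
    rw [LinearIsometryEquiv.norm_map]; exact h1
  have l1 := tr_lim (ctr_norm A t ht0.le h1)
  have l2 := tr_lim (ctr_norm (adjoint A) t ht0.le h2)
  simp only [← tr_ctr hA] at l2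
  have h3 := tendsto_nhds_unique l1 l2
  have h4 : dm ((ctr A t).eqLocus (1 : HH V Γ →L[ℂ] HH V Γ)) =
      dm ((ctr (adjoint A) t).eqLocus (1 : HH V Γ →L[ℂ] HH V Γ)) := by exact_mod_cast h3
  rw [← dm_congr (ctr_fix A t ht0), ← dm_congr (ctr_fix (adjoint A) t ht0), h4]

end

end Pool.Agent.NSA
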