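import Pool.Agent.NSA.Conv
import Pool.Agent.NSA.Cover

/-!
helper26: the universal cover inside `V × F`; the dimension of the eigenspace.
-/

set_option autoImplicit false
set_option linter.unusedSectionVars false
set_option linter.deprecated false
set_option linter.unusedVariables false

namespace Pool.Agent.NSA

open scoped ENNReal ComplexConjugate
open Filter Topology Classical Finset

noncomputable section

section pushpull

variable {α β : Type*} (φ : α → β) (hφ : Function.Injective φ)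

/-- restriction along an injection -/
def pull (v : L2 β) : L2 α := mk (fun w => v (φ w)) ((summ v).comp_injective hφ)

/-- extension by zero along an injection -/
def push (u : L2 α) : L2 β := mk (Function.extend φ u 0) (by
  have h1 : (fun i => ‖Function.extend φ u 0 i‖ ^ 2) =
      Function.extend φ (fun w => ‖u w‖ ^ 2) 0 := by
    funext i
    by_cases h : ∃ w, φ w = i
    · obtain ⟨w, rfl⟩ := h
      rw [hφ.extend_apply, hφ.extend_apply]
    · rw [Function.extend_apply' _ _ _ h, Function.extend_apply' _ _ _ h]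
      simp
  rw [h1]
  exact (summable_extend_zero hφ).2 (summ u))

theorem push_apply (u : L2 α) (w : α) : push φ hφ u (φ w) = u w := by
  show Function.extend φ u 0 (φ w) = u w
  rw [hφ.extend_apply]

theorem push_off (u : L2 α) {p : β} (hp : ¬ ∃ w, φ w = p) : push φ hφ u p = 0 := by
  show Function.extend φ u 0 p = 0
  rw [Function.extend_apply' _ _ _ hp]
  rfl

theorem inner_push (v : L2 β) (u : L2 α) :
    inner ℂ v (push φ hφ u) = inner ℂ (pull φ hφ v) u := by
  rw [lp.inner_eq_tsum, lp.inner_eq_tsum]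
  rw [← hφ.tsum_eq]
  · refine tsum_congr (fun w => ?_)
    rw [push_apply]; rfl
  · intro p hp
    by_contra h
    apply hp
    show inner ℂ (v p) (push φ hφ u p) = (0 : ℂ)
    rw [push_off φ hφ u h, inner_zero_right]

theorem push_sub (u u' : L2 α) : push φ hφ (u - u') = push φ hφ u - push φ hφ u' := by
  ext p
  by_cases h : ∃ w, φ w = p
  · obtain ⟨w, rfl⟩ := h
    show push φ hφ (u - u') (φ w) = push φ hφ u (φ w) - push φ hφ u' (φ w)
    rw [push_apply, push_apply, push_apply]; rfl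
  · show push φ hφ (u - u') p = push φ hφ u p - push φ hφ u' p
    rw [push_off φ hφ _ h, push_off φ hφ _ h, push_off φ hφ _ h, sub_zero]

theorem norm_push (u : L2 α) : ‖push φ hφ u‖ = ‖u‖ := by
  have h1 : inner ℂ (push φ hφ u) (push φ hφ u) = inner ℂ u u := by
    rw [inner_push]
    congr 1
    ext w
    exact push_apply φ hφ u w
  rw [inner_self_eq_norm_sq_to_K, inner_self_eq_norm_sq_to_K] at h1
  have h2 : ‖push φ hφ u‖ ^ 2 = ‖u‖ ^ 2 := by exact_mod_cast h1
  exact (sq_eq_sq₀ (norm_nonneg _) (norm_nonneg _)).1 h2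

theorem push_dl (w : α) : push φ hφ (dl w) = dl (φ w) := by
  ext p
  by_cases h : ∃ w, φ w = p
  · obtain ⟨w', rfl⟩ := h
    rw [push_apply, dl_apply, dl_apply]
    by_cases h' : w' = w
    · rw [if_pos h', if_pos (by rw [h'])]
    · rw [if_neg h', if_neg (fun h => h' (hφ h))]
  · rw [push_off φ hφ _ h, dl_apply, if_neg]
    intro h'
    exact h ⟨w, h'.symm⟩

theorem norm_proj_push {Eα : Submodule ℂ (L2 α)} {Eβ : Submodule ℂ (L2 β)}
    [Eα.HasOrthogonalProjection] [Eβ.HasOrthogonalProjection]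
    (h1 : ∀ u ∈ Eα, push φ hφ u ∈ Eβ) (h2 : ∀ v ∈ Eβ, pull φ hφ v ∈ Eα) (w : α) :
    ‖Eβ.starProjection (dl (φ w))‖ = ‖Eα.starProjection (dl w)‖ := by
  have e : Eβ.starProjection (dl (φ w)) = push φ hφ (Eα.starProjection (dl w)) := by
    apply Submodule.eq_starProjection_of_mem_orthogonal
    · exact h1 _ (Submodule.starProjection_apply_mem Eα _)
    · rw [← push_dl φ hφ, ← push_sub, Submodule.mem_orthogonal]
      intro v hv
      rw [inner_push]
      exact (Submodule.mem_orthogonal _ _).1 (Submodule.sub_starProjection_mem_orthogonal _) _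
        (h2 v hv)
  rw [e, norm_push]

end pushpull

variable {V D : Type*} [Fintype V] [Fintype D] {G : Gr V D}
variable {v0 : V} {b : V → ℂ} {a : D → ℂ} {lam : ℂ}

/-- the embedding of the universal cover in `V × F` -/
def Gr.emb (G : Gr V D) (v0 : V) (w : G.Cov v0) : V × FreeGroup D := (w.1.2, G.vol w.1.1)

theorem emb_inj : Function.Injective (G.emb v0) := by
  intro w w' h
  have h1 := Prod.mk.inj h
  apply Subtype.ext
  exact Prod.ext (G.vol_inj w.2.2 w'.2.2 h1.2) h1.1

theorem emb_nbr (w : G.Cov v0) {d : D} (hd : G.s d = w.1.2) :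
    G.emb v0 (G.nbr w d) = (G.t d, (G.emb v0 w).2 * G.y d) := by
  unfold Gr.nbr
  rw [dif_pos hd]
  show (G.t d, G.vol (G.crs w.1.1 d)) = _
  rw [vol_crs]; rfl

theorem pull_mem {v : HH V (FreeGroup D)} (hv : v ∈ G.E b a lam) :
    pull (G.emb v0) emb_inj v ∈ G.ES v0 b a lam := by
  intro w
  show b w.1.2 * v (G.emb v0 w) + ∑ d ∈ univ.filter (fun d => G.s d = w.1.2),
    a d * v (G.emb v0 (G.nbr w d)) = lam * v (G.emb v0 w)
  have h := mem_E.1 hv w.1.2 (G.vol w.1.1)
  rw [show G.emb v0 w = (w.1.2, G.vol w.1.1) from rfl, ← h]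
  congr 1
  refine Finset.sum_congr rfl (fun d hd => ?_)
  rw [emb_nbr w (Finset.mem_filter.1 hd).2]
  rfl

theorem push_mem {u : L2 (G.Cov v0)} (hu : u ∈ G.ES v0 b a lam) :
    push (G.emb v0) emb_inj u ∈ G.E b a lam := by
  rw [mem_E]
  intro x g
  by_cases h : ∃ w, G.emb v0 w = (x, g)
  · obtain ⟨w, hw⟩ := h
    have hx : w.1.2 = x := (Prod.mk.inj hw).1
    rw [← hw, push_apply, ← hu w]
    unfold Gr.op
    rw [hx]
    congr 1
    refine Finset.sum_congr rfl (fun d hd => ?_)
    have h1 := emb_nbr w (d := d) (by rw [hx]; exact (Finset.mem_filter.1 hd).2)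
    rw [hw] at h1
    rw [← push_apply (G.emb v0) emb_inj u (G.nbr w d), h1]
  · rw [push_off _ _ _ h, mul_zero, mul_zero, zero_add]
    refine Finset.sum_eq_zero (fun d hd => ?_)
    rw [push_off, mul_zero]
    rintro ⟨w, hw⟩
    apply h
    have hx : G.s (G.r d) = w.1.2 := (Prod.mk.inj hw).1.symm
    refine ⟨G.nbr w (G.r d), ?_⟩
    rw [emb_nbr w hx, hw, G.t_r, G.y_r, mul_inv_cancel_right, (Finset.mem_filter.1 hd).2]

theorem norm_shift {ι : Type*} (σ : Equiv.Perm ι) (u : L2 ι) : ‖shift σ u‖ = ‖u‖ := by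
  have h2 : ‖shift σ u‖ ^ 2 = ‖u‖ ^ 2 := by
    rw [normsq, normsq, ← σ.tsum_eq (fun i => ‖u i‖ ^ 2)]
    rfl
  exact (sq_eq_sq₀ (norm_nonneg _) (norm_nonneg _)).1 h2

theorem norm_proj_dl {K : Submodule ℂ (HH V (FreeGroup D))} [K.HasOrthogonalProjection]
    (hK : InvS K) (x : V) (g : FreeGroup D) :
    ‖K.starProjection (dl (x, g))‖ = ‖K.starProjection (dl (x, 1))‖ := by
  have h : (dl (x, g) : HH V (FreeGroup D)) = shift (lt V g⁻¹) (dl (x, 1)) := by
    rw [shift_dl, lt_inv, inv_inv, lt_apply, mul_one]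
  rw [h, hK.proj, norm_shift]

/-- the dimension on the universal cover and on the forest -/
theorem dim_eq (lift : V → G.Cov v0) (hl : ∀ x, (lift x).1.2 = x) :
    G.dimP lift b a lam = dm (G.E b a lam) := by
  unfold Gr.dimP dm
  refine Finset.sum_congr rfl (fun x _ => ?_)
  rw [← norm_proj_push (G.emb v0) emb_inj (fun u hu => push_mem hu) (fun v hv => pull_mem hv)
    (lift x)]
  have : G.emb v0 (lift x) = (x, G.vol (lift x).1.1) := by
    show ((lift x).1.2, _) = _
    rw [hl]
  rw [this, norm_proj_dl (invS_E G b a lam)]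

theorem exists_push {u : L2 (G.Cov v0)} (hu : u ∈ G.ES v0 b a lam) (h0 : u ≠ 0) :
    ∃ v ∈ G.E b a lam, v ≠ 0 := by
  refine ⟨_, push_mem hu, fun h => h0 ?_⟩
  rw [← norm_eq_zero, ← norm_push (G.emb v0) emb_inj, h, norm_zero]

theorem exists_lift (hc : ∀ x z, ∃ l, G.IsWalk univ x l z) (v0 : V) :
    ∃ lift : V → G.Cov v0, ∀ x, (lift x).1.2 = x := by
  have h1 : ∀ x, ∃ w : G.Cov v0, w.1.2 = x := by
    intro x
    obtain ⟨l, hl⟩ := hc v0 x
    obtain ⟨m, h2, h3, _⟩ := (hl.rel 1).walk (mem_univ _)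
    exact ⟨⟨(m, x), h2, h3⟩, rfl⟩
  choose lift hlift using h1
  exact ⟨lift, hlift⟩

theorem exists_of_dm (hc : ∀ x z, ∃ l, G.IsWalk univ x l z) (v0 : V)
    (h : 0 < dm (G.E b a lam)) : ∃ u ∈ G.ES v0 b a lam, u ≠ 0 := by
  obtain ⟨lift, hl⟩ := exists_lift hc v0
  rw [← dim_eq lift hl] at h
  by_contra hcon
  push Not at hcon
  apply h.ne'
  unfold Gr.dimP
  refine Finset.sum_eq_zero (fun x _ => ?_)
  rw [hcon _ (Submodule.starProjection_apply_mem _ _)]
  simp

end

end Pool.Agent.NSA
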