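import Pool.Agent.NSA.Cor

/-!
helper26: absence of eigenvalues (explicit and for all but finitely many values of a parameter) and
the graphs for which existence of an eigenvalue is universal.
-/

set_option autoImplicit false
set_option linter.unusedSectionVars false
set_option linter.deprecated false
set_option linter.unusedVariables false

namespace Pool.Agent.NSA

open scoped ENNReal ComplexConjugate
open Filter Topology Classical Finset

noncomputable section

variable {V D : Type*} [Fintype V] [Fintype D] {G : Gr V D}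
variable {v0 : V} {b : V → ℂ} {a : D → ℂ} {lam : ℂ}

/-- two disjoint sets with a common eigenvalue -/
theorem pair_of_exists (hc : ∀ x z, ∃ l, G.IsWalk univ x l z)
    (hcyc : ∃ x l, G.IsWalk univ x l x ∧ G.NB l ∧ l ≠ []) (ha : ∀ d, a d ≠ 0)
    (h : ∃ u : G.Cov v0 → ℂ, G.Sol b a lam u ∧ u ≠ 0) :
    ∃ C C' : Finset V, Disjoint C C' ∧ G.Eig b a lam C ∧ G.Eig b a lam C' := by
  obtain ⟨k, C, h1, h2, h3⟩ := (exists_iff hc ha v0).1 h
  have hk := two_le hc hcyc h1 h3
  have hne : (⟨0, by omega⟩ : Fin k) ≠ ⟨1, by omega⟩ := by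
    intro h
    have := congrArg Fin.val h
    simp at this
  exact ⟨C ⟨0, by omega⟩, C ⟨1, by omega⟩, h1.disj _ _ hne, h2 _, h2 _⟩

theorem no_eig_of_gap (hc : ∀ x z, ∃ l, G.IsWalk univ x l z)
    (hcyc : ∃ x l, G.IsWalk univ x l x ∧ G.NB l ∧ l ≠ []) (ha : ∀ d, a d ≠ 0)
    (hgap : ∀ x z, x ≠ z → ∑ d ∈ univ.filter (fun d => G.s d = x), ‖a d‖ +
      ∑ d ∈ univ.filter (fun d => G.s d = z), ‖a d‖ < ‖b x - b z‖) :
    ∀ u : G.Cov v0 → ℂ, G.Sol b a lam u → u = 0 := by
  by_contra hcon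
  push Not at hcon
  obtain ⟨C, C', hd, h1, h2⟩ := pair_of_exists hc hcyc ha hcon
  obtain ⟨x, hx, hx'⟩ := gersh h1
  obtain ⟨z, hz, hz'⟩ := gersh h2
  have hxz : x ≠ z := by
    rintro rfl
    exact Finset.disjoint_left.1 hd hx hz
  have h3 := hgap x z hxz
  have h4 : ‖b x - b z‖ ≤ ‖lam - b x‖ + ‖lam - b z‖ := by
    have : b x - b z = (lam - b z) - (lam - b x) := by ring
    rw [this]
    exact (norm_sub_le _ _).trans (by rw [add_comm])
  linarith

/-- the auxiliary operator on functions of two variables -/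
def TT (G : Gr V D) (b : V → ℂ) (a : D → ℂ) (h : V → ℂ) (C C' : Finset V) :
    Module.End ℂ (V × V → ℂ) where
  toFun F p := if p.1 ∈ C ∧ p.2 ∈ C' then (h p.1 - h p.2)⁻¹ *
    (b p.1 * F p + ∑ d ∈ univ.filter (fun d => G.s d = p.1), a d * F (G.t d, p.2) -
      b p.2 * F p - ∑ d ∈ univ.filter (fun d => G.s d = p.2), a d * F (p.1, G.t d)) else 0
  map_add' F F' := by
    funext p
    simp only [Pi.add_apply, mul_add, Finset.sum_add_distrib]
    split_ifs
    · ring
    · simp
  map_smul' c F := by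
    funext p
    simp only [Pi.smul_apply, smul_eq_mul, RingHom.id_apply]
    have e1 : ∑ d ∈ univ.filter (fun d => G.s d = p.1), a d * (c * F (G.t d, p.2)) =
        c * ∑ d ∈ univ.filter (fun d => G.s d = p.1), a d * F (G.t d, p.2) := by
      rw [Finset.mul_sum]
      exact Finset.sum_congr rfl (fun d _ => by ring)
    have e2 : ∑ d ∈ univ.filter (fun d => G.s d = p.2), a d * (c * F (p.1, G.t d)) =
        c * ∑ d ∈ univ.filter (fun d => G.s d = p.2), a d * F (p.1, G.t d) := by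
      rw [Finset.mul_sum]
      exact Finset.sum_congr rfl (fun d _ => by ring)
    rw [e1, e2]
    split_ifs
    · ring
    · simp

theorem fin_pair (h : V → ℂ) (hh : Function.Injective h) (C C' : Finset V)
    (hd : Disjoint C C') : {t : ℂ | ∃ lam, G.Eig (fun x => b x + t * h x) a lam C ∧
      G.Eig (fun x => b x + t * h x) a lam C'}.Finite := by
  refine ((Module.End.finite_hasEigenvalue (TT G b a h C C')).image (fun μ => -μ)).subset ?_
  rintro t ⟨lam, ⟨u, ⟨x0, hx0⟩, huz, hue⟩, ⟨w, ⟨z0, hz0⟩, hwz, hwe⟩⟩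
  refine ⟨-t, ?_, neg_neg t⟩
  refine Module.End.hasEigenvalue_of_hasEigenvector (x := fun p : V × V => u p.1 * w p.2) ⟨?_, ?_⟩
  · rw [Module.End.mem_eigenspace_iff]
    funext ⟨x, z⟩
    show (if x ∈ C ∧ z ∈ C' then (h x - h z)⁻¹ *
      (b x * (u x * w z) + ∑ d ∈ univ.filter (fun d => G.s d = x), a d * (u (G.t d) * w z) -
      b z * (u x * w z) - ∑ d ∈ univ.filter (fun d => G.s d = z), a d * (u x * w (G.t d))) else 0)
      = (-t) * (u x * w z)
    split_ifs with hxz
    · have hne : h x - h z ≠ 0 := by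
        rw [sub_ne_zero]
        intro he
        have := hh he
        subst this
        exact Finset.disjoint_left.1 hd hxz.1 hxz.2
      have e1 : ∑ d ∈ univ.filter (fun d => G.s d = x), a d * (u (G.t d) * w z) =
          (∑ d ∈ univ.filter (fun d => G.s d = x), a d * u (G.t d)) * w z := by
        rw [Finset.sum_mul]
        exact Finset.sum_congr rfl (fun d _ => by ring)
      have e2 : ∑ d ∈ univ.filter (fun d => G.s d = z), a d * (u x * w (G.t d)) =
          u x * ∑ d ∈ univ.filter (fun d => G.s d = z), a d * w (G.t d) := by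
        rw [Finset.mul_sum]
        exact Finset.sum_congr rfl (fun d _ => by ring)
      rw [e1, e2]
      have h1 := hue x hxz.1
      have h2 := hwe z hxz.2
      have h3 : b x * (u x * w z) +
          (∑ d ∈ univ.filter (fun d => G.s d = x), a d * u (G.t d)) * w z -
          b z * (u x * w z) - u x * ∑ d ∈ univ.filter (fun d => G.s d = z), a d * w (G.t d) =
          (h x - h z) * ((-t) * (u x * w z)) := by
        linear_combination w z * h1 - u x * h2
      rw [h3, inv_mul_cancel_left₀ hne]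
    · rw [not_and_or] at hxz
      rcases hxz with hx | hz
      · rw [huz x hx]; ring
      · rw [hwz z hz]; ring
  · intro h0
    have := congrFun h0 (x0, z0)
    exact mul_ne_zero hx0 hz0 this

/-- **all but finitely many values of the coupling constant** -/
theorem fin_t (hc : ∀ x z, ∃ l, G.IsWalk univ x l z)
    (hcyc : ∃ x l, G.IsWalk univ x l x ∧ G.NB l ∧ l ≠ []) (ha : ∀ d, a d ≠ 0)
    (h : V → ℂ) (hh : Function.Injective h) :
    {t : ℂ | ∃ (lam : ℂ) (u : G.Cov v0 → ℂ), G.Sol (fun x => b x + t * h x) a lam u ∧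
      u ≠ 0}.Finite := by
  refine (Set.finite_iUnion (fun p : {p : Finset V × Finset V // Disjoint p.1 p.2} =>
    fin_pair (G := G) (b := b) (a := a) h hh p.1.1 p.1.2 p.2)).subset ?_
  rintro t ⟨lam, hu⟩
  obtain ⟨C, C', hd, h1, h2⟩ := pair_of_exists hc hcyc ha hu
  rw [Set.mem_iUnion]
  exact ⟨⟨(C, C'), hd⟩, lam, h1, h2⟩

/-! ### universality -/

variable (G) in
/-- the lift of the real matrix `(b, a)` to the universal cover has a point eigenvalue -/
def Gr.HasPt (v0 : V) (b : V → ℝ) (a : D → ℝ) : Prop :=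
  ∃ (lam : ℝ) (u : G.Cov v0 → ℂ), G.Sol (fun x => (b x : ℂ)) (fun d => (a d : ℂ)) lam u ∧ u ≠ 0

variable (G) in
/-- existence of a point eigenvalue does not depend on the Jacobi matrix -/
def Gr.Univ (v0 : V) : Prop := ∀ (a a' : D → ℝ) (b b' : V → ℝ),
  (∀ d, a (G.r d) = a d) → (∀ d, 0 < a d) → (∀ d, a' (G.r d) = a' d) → (∀ d, 0 < a' d) →
  G.HasPt v0 b a → G.HasPt v0 b' a'

theorem hasPt_of_fam (hc : ∀ x z, ∃ l, G.IsWalk univ x l z) (v0 : V) {k : ℕ}
    {C : Fin k → Finset V} (hC : G.Fam k C) (hk : (G.nb (univ.biUnion C)).card < k) :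
    ∃ b : V → ℝ, G.HasPt v0 b (fun _ => 1) := by
  set n : Fin k → V → ℕ := fun i x =>
    (univ.filter (fun d => G.s d = x ∧ G.t d ∈ C i)).card with hn
  refine ⟨fun x => - ∑ i, if x ∈ C i then (n i x : ℝ) else 0, 0, ?_⟩
  rw [Complex.ofReal_zero]
  refine (exists_iff hc (fun _ => by simp) v0).2 ⟨k, C, hC, fun i => ?_, hk⟩
  obtain ⟨z, hz⟩ := (hC.tree i).nonempty
  refine ⟨fun x => if x ∈ C i then 1 else 0, ⟨z, by simp [hz]⟩, fun x hx => by simp [hx], ?_⟩
  intro x hx
  have e1 : (∑ j, if x ∈ C j then (n j x : ℝ) else 0) = n i x := by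
    rw [Finset.sum_eq_single i]
    · rw [if_pos hx]
    · intro j _ hj
      rw [if_neg]
      intro h
      exact Finset.disjoint_left.1 (hC.disj i j hj.symm) hx h
    · intro h; exact absurd (mem_univ i) h
  have e2 : ∑ d ∈ univ.filter (fun d => G.s d = x),
      ((1 : ℝ) : ℂ) * (if G.t d ∈ C i then (1 : ℂ) else 0) = n i x := by
    simp only [hn, Complex.ofReal_one, one_mul]
    rw [← Finset.sum_filter, Finset.filter_filter]
    simp
  show ((-(∑ j, if x ∈ C j then (n j x : ℝ) else 0) : ℝ) : ℂ) * (if x ∈ C i then 1 else 0) +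
    ∑ d ∈ univ.filter (fun d => G.s d = x), ((1 : ℝ) : ℂ) * (if G.t d ∈ C i then (1 : ℂ) else 0) =
    0 * (if x ∈ C i then 1 else 0)
  rw [e1, e2, if_pos hx]
  push_cast
  ring

theorem univ_iff (hc : ∀ x z, ∃ l, G.IsWalk univ x l z)
    (hcyc : ∃ x l, G.IsWalk univ x l x ∧ G.NB l ∧ l ≠ []) (v0 : V) :
    G.Univ v0 ↔ ¬ ∃ (k : ℕ) (C : Fin k → Finset V), G.Fam k C ∧
      (G.nb (univ.biUnion C)).card < k := by
  constructor
  · rintro hU ⟨k, C, hC, hk⟩
    obtain ⟨b, hb⟩ := hasPt_of_fam hc v0 hC hk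
    set e := Fintype.equivFin V with he
    set b' : V → ℝ := fun x => 3 * (Fintype.card D + 1) * ((e x : ℕ) : ℝ) with hb'
    obtain ⟨lam, u, hu, h0⟩ := hU (fun _ => 1) (fun _ => 1) b b' (fun _ => rfl)
      (fun _ => one_pos) (fun _ => rfl) (fun _ => one_pos) hb
    refine h0 (no_eig_of_gap hc hcyc (fun _ => by simp) ?_ u hu)
    intro x z hxz
    have h1 : ∀ y : V, ∑ d ∈ univ.filter (fun d => G.s d = y), ‖((1 : ℝ) : ℂ)‖ ≤
        Fintype.card D := by
      intro y
      simp only [Complex.ofReal_one, norm_one, Finset.sum_const, nsmul_eq_mul, mul_one]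
      exact_mod_cast Finset.card_le_univ _
    have h2 : ‖((b' x : ℝ) : ℂ) - ((b' z : ℝ) : ℂ)‖ = 3 * (Fintype.card D + 1) *
        |((e x : ℕ) : ℝ) - ((e z : ℕ) : ℝ)| := by
      rw [← Complex.ofReal_sub, Complex.norm_real, hb', Real.norm_eq_abs, ← mul_sub, abs_mul,
        abs_of_pos (by positivity)]
    have h3 : (1 : ℝ) ≤ |((e x : ℕ) : ℝ) - ((e z : ℕ) : ℝ)| := by
      have h4 : ((e x : ℕ) : ℤ) - ((e z : ℕ) : ℤ) ≠ 0 := by
        rw [sub_ne_zero]
        intro h
        exact hxz (e.injective (Fin.ext (by exact_mod_cast h)))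
      have h5 := Int.one_le_abs h4
      exact_mod_cast h5
    show _ < ‖((b' x : ℝ) : ℂ) - ((b' z : ℝ) : ℂ)‖
    rw [h2]
    have h6 := h1 x
    have h7 := h1 z
    have h8 : (0 : ℝ) ≤ Fintype.card D := Nat.cast_nonneg _
    nlinarith
  · intro hno a a' b b' _ hpos _ _ hb
    exfalso
    apply hno
    obtain ⟨lam, hu⟩ := hb
    obtain ⟨k, C, h1, _, h3⟩ := (exists_iff hc
      (fun d => by exact_mod_cast (hpos d).ne') v0).1 hu
    exact ⟨k, C, h1, h3⟩

end

end Pool.Agent.NSA
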