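import Mathlib

/-!
helper26: finite multigraphs given by darts, walks, the voltage in the free group on the darts.
-/

set_option autoImplicit false
set_option linter.unusedSectionVars false
set_option linter.deprecated false

namespace Pool.Agent.NSA

open Classical

noncomputable section

/-- a multigraph with vertex set `V` given by its darts `D` (oriented edges): `s d` is the start
of `d` and `r d` the reversed dart -/
structure Gr (V D : Type*) where
  /-- start -/
  s : D → V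
  /-- reversal -/
  r : D → D
  rr : ∀ d, r (r d) = d
  rne : ∀ d, r d ≠ d

variable {V D : Type*} (G : Gr V D)

/-- the end of a dart -/
def Gr.t (d : D) : V := G.s (G.r d)

theorem Gr.t_r (d : D) : G.t (G.r d) = G.s d := by rw [Gr.t, G.rr]

/-- `G.IsWalk C x l z` : the darts `l` form a walk from `x` to `z`, all vertices in `C` -/
inductive Gr.IsWalk (C : Finset V) : V → List D → V → Prop
  | nil {x : V} : x ∈ C → Gr.IsWalk C x [] x
  | cons {d : D} {l : List D} {z : V} : G.s d ∈ C → Gr.IsWalk C (G.t d) l z →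
      Gr.IsWalk C (G.s d) (d :: l) z

variable {G} in
theorem walk_nil {C : Finset V} {x z : V} : G.IsWalk C x [] z ↔ x = z ∧ x ∈ C := by
  constructor
  · intro h
    cases h with
    | nil h => exact ⟨rfl, h⟩
  · rintro ⟨rfl, h⟩
    exact Gr.IsWalk.nil h

variable {G} in
theorem walk_cons {C : Finset V} {x z : V} {d : D} {l : List D} :
    G.IsWalk C x (d :: l) z ↔ G.s d = x ∧ x ∈ C ∧ G.IsWalk C (G.t d) l z := by
  constructor
  · intro h
    cases h with
    | cons h1 h2 => exact ⟨rfl, h1, h2⟩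
  · rintro ⟨rfl, h1, h2⟩
    exact Gr.IsWalk.cons h1 h2

/-- no backtracking -/
def Gr.NB (l : List D) : Prop := l.IsChain (fun d e => e ≠ G.r d)

/-- the voltage of a dart -/
def Gr.y (d : D) : FreeGroup D := FreeGroup.of d * (FreeGroup.of (G.r d))⁻¹

theorem Gr.y_r (d : D) : G.y (G.r d) = (G.y d)⁻¹ := by
  simp [Gr.y, G.rr]

/-- the voltage of a list of darts -/
def Gr.vol (l : List D) : FreeGroup D := (l.map G.y).prod

@[simp] theorem Gr.vol_nil : G.vol [] = 1 := rfl

@[simp] theorem Gr.vol_cons (d : D) (l : List D) : G.vol (d :: l) = G.y d * G.vol l := by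
  simp [Gr.vol]

@[simp] theorem Gr.vol_append (l m : List D) : G.vol (l ++ m) = G.vol l * G.vol m := by
  simp [Gr.vol]

/-- the word -/
def Gr.wd (l : List D) : List (D × Bool) := l.flatMap (fun d => [(d, true), (G.r d, false)])

theorem Gr.wd_cons (d : D) (l : List D) :
    G.wd (d :: l) = (d, true) :: (G.r d, false) :: G.wd l := by
  simp [Gr.wd]

theorem Gr.y_eq (d : D) : G.y d = FreeGroup.mk [(d, true), (G.r d, false)] := rfl

theorem Gr.vol_eq (l : List D) : G.vol l = FreeGroup.mk (G.wd l) := by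
  induction l with
  | nil => rfl
  | cons d l ih => rw [Gr.vol_cons, ih, G.y_eq, FreeGroup.mul_mk, Gr.wd_cons]; rfl

theorem Gr.wd_reduced : ∀ l : List D, G.NB l → FreeGroup.IsReduced (G.wd l)
  | [], _ => by
      unfold FreeGroup.IsReduced
      exact List.isChain_nil
  | [d], _ => by
      rw [Gr.wd_cons]
      unfold FreeGroup.IsReduced
      rw [List.isChain_cons_cons]
      refine ⟨fun h => absurd h.symm (G.rne d), ?_⟩
      exact List.isChain_singleton _
  | d :: e :: l, h => by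
      have h1 : G.NB (e :: l) := (List.isChain_cons_cons.1 h).2
      have h2 : e ≠ G.r d := (List.isChain_cons_cons.1 h).1
      have ih := Gr.wd_reduced (e :: l) h1
      rw [Gr.wd_cons] at ih
      rw [Gr.wd_cons, Gr.wd_cons]
      unfold FreeGroup.IsReduced at ih ⊢
      rw [List.isChain_cons_cons]
      refine ⟨fun h => absurd h.symm (G.rne d), ?_⟩
      rw [List.isChain_cons_cons]
      exact ⟨fun h => absurd h.symm h2, ih⟩

theorem Gr.wd_inj : ∀ l m : List D, G.wd l = G.wd m → l = m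
  | [], [], _ => rfl
  | [], e :: m, h => by rw [Gr.wd_cons] at h; simp [Gr.wd] at h
  | d :: l, [], h => by rw [Gr.wd_cons] at h; simp [Gr.wd] at h
  | d :: l, e :: m, h => by
      rw [Gr.wd_cons, Gr.wd_cons] at h
      have h1 := List.cons.inj h
      have h2 := List.cons.inj h1.2
      rw [Gr.wd_inj l m h2.2, (Prod.mk.inj h1.1).1]

theorem Gr.vol_inj {l m : List D} (hl : G.NB l) (hm : G.NB m) (h : G.vol l = G.vol m) :
    l = m := by
  apply G.wd_inj
  rw [G.vol_eq, G.vol_eq] at h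
  have h1 := congrArg FreeGroup.toWord h
  rw [FreeGroup.toWord_mk, FreeGroup.toWord_mk, (G.wd_reduced l hl).reduce_eq,
    (G.wd_reduced m hm).reduce_eq] at h1
  exact h1

theorem Gr.nb_nil : G.NB [] := List.isChain_nil

theorem Gr.nb_single (d : D) : G.NB [d] := List.isChain_singleton _

theorem Gr.vol_ne_one {l : List D} (hl : G.NB l) (h : G.vol l = 1) : l = [] :=
  G.vol_inj hl G.nb_nil h

/-! ### the relation on `V × F` -/

/-- one step over `X` -/
def Gr.stp (X : Finset V) (p q : V × FreeGroup D) : Prop :=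
  ∃ d, G.s d = p.1 ∧ p.1 ∈ X ∧ G.t d ∈ X ∧ q = (G.t d, p.2 * G.y d)

/-- connected over `X` -/
def Gr.Rel (X : Finset V) : V × FreeGroup D → V × FreeGroup D → Prop :=
  Relation.ReflTransGen (G.stp X)

variable {G}
variable {X C : Finset V}

theorem stp_symm {p q : V × FreeGroup D} (h : G.stp X p q) : G.stp X q p := by
  obtain ⟨d, h1, h2, h3, rfl⟩ := h
  refine ⟨G.r d, rfl, h3, ?_, ?_⟩
  · rw [G.t_r, h1]; exact h2
  · rw [G.t_r, h1, G.y_r, mul_inv_cancel_right]

theorem Gr.Rel.symm {p q : V × FreeGroup D} (h : G.Rel X p q) : G.Rel X q p := by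
  induction h with
  | refl => exact Relation.ReflTransGen.refl
  | tail _ h ih => exact Relation.ReflTransGen.head (stp_symm h) ih

theorem Gr.Rel.trans {p q w : V × FreeGroup D} (h : G.Rel X p q) (h' : G.Rel X q w) :
    G.Rel X p w := Relation.ReflTransGen.trans h h'

theorem Gr.Rel.refl (p : V × FreeGroup D) : G.Rel X p p := Relation.ReflTransGen.refl

theorem Gr.Rel.smul {p q : V × FreeGroup D} (h : G.Rel X p q) (k : FreeGroup D) :
    G.Rel X (p.1, k * p.2) (q.1, k * q.2) := by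
  induction h with
  | refl => exact Relation.ReflTransGen.refl
  | tail _ h ih =>
    obtain ⟨d, h1, h2, h3, rfl⟩ := h
    exact Relation.ReflTransGen.tail ih ⟨d, h1, h2, h3, by simp [mul_assoc]⟩

theorem Gr.Rel.mem {p q : V × FreeGroup D} (h : G.Rel X p q) (hp : p.1 ∈ X) : q.1 ∈ X := by
  induction h with
  | refl => exact hp
  | tail _ h _ =>
    obtain ⟨d, _, _, h3, rfl⟩ := h
    exact h3

theorem Gr.Rel.restrict (hC : ∀ p q, G.stp X p q → p.1 ∈ C → q.1 ∈ C) {p q : V × FreeGroup D}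
    (h : G.Rel X p q) (hp : p.1 ∈ C) : G.Rel C p q ∧ q.1 ∈ C := by
  induction h with
  | refl => exact ⟨Gr.Rel.refl _, hp⟩
  | tail _ h ih =>
    have h4 := hC _ _ h ih.2
    refine ⟨Relation.ReflTransGen.tail ih.1 ?_, h4⟩
    obtain ⟨d, h1, h2, h3, rfl⟩ := h
    exact ⟨d, h1, ih.2, h4, rfl⟩

theorem Gr.Rel.mono (hC : C ⊆ X) {p q : V × FreeGroup D}
    (h : G.Rel C p q) : G.Rel X p q := by
  induction h with
  | refl => exact Relation.ReflTransGen.refl
  | tail _ h ih =>
    obtain ⟨d, h1, h2, h3, rfl⟩ := h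
    exact Relation.ReflTransGen.tail ih ⟨d, h1, hC h2, hC h3, rfl⟩

theorem Gr.Rel.walk {p q : V × FreeGroup D} (h : G.Rel X p q) (hp : q.1 ∈ X) :
    ∃ l, G.IsWalk X p.1 l q.1 ∧ G.NB l ∧ q.2 = p.2 * G.vol l := by
  induction h using Relation.ReflTransGen.head_induction_on with
  | refl => exact ⟨[], walk_nil.2 ⟨rfl, hp⟩, G.nb_nil, by simp⟩
  | head h _ ih =>
    rename_i p p'
    obtain ⟨l, h1, h2, h3⟩ := ih
    obtain ⟨d, h4, h5, h6, rfl⟩ := h
    cases l with
    | nil =>
      refine ⟨[d], walk_cons.2 ⟨h4, h5, h1⟩, G.nb_single d, ?_⟩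
      rw [h3]; simp [mul_assoc]
    | cons e l =>
      by_cases he : e = G.r d
      · subst he
        refine ⟨l, ?_, List.IsChain.tail h2, ?_⟩
        · have := (walk_cons.1 h1).2.2
          rwa [G.t_r, h4] at this
        · rw [h3, G.vol_cons, G.y_r]
          simp [mul_assoc]
      · refine ⟨d :: e :: l, walk_cons.2 ⟨h4, h5, h1⟩, List.isChain_cons_cons.2 ⟨he, h2⟩, ?_⟩
        rw [h3]; simp [mul_assoc]

theorem Gr.IsWalk.memL : ∀ {l : List D} {x z : V}, G.IsWalk X x l z → x ∈ X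
  | [], _, _, h => (walk_nil.1 h).2
  | _ :: _, _, _, h => (walk_cons.1 h).2.1

theorem Gr.IsWalk.memR : ∀ {l : List D} {x z : V}, G.IsWalk X x l z → z ∈ X
  | [], _, _, h => (walk_nil.1 h).1 ▸ (walk_nil.1 h).2
  | _ :: l, _, _, h => Gr.IsWalk.memR (l := l) (walk_cons.1 h).2.2

theorem Gr.IsWalk.rel : ∀ {l : List D} {x z : V} (g : FreeGroup D), G.IsWalk X x l z →
    G.Rel X (x, g) (z, g * G.vol l)
  | [], x, z, g, h => by
      have : x = z := (walk_nil.1 h).1
      subst this
      rw [G.vol_nil, mul_one]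
      exact Gr.Rel.refl _
  | d :: l, x, z, g, h => by
      obtain ⟨h2, h3, h4⟩ := walk_cons.1 h
      have h1 := Gr.IsWalk.rel (l := l) (g * G.y d) h4
      rw [mul_assoc, ← G.vol_cons] at h1
      exact Relation.ReflTransGen.head ⟨d, h2, h3, h1.symm.mem (Gr.IsWalk.memR h4), rfl⟩ h1

variable (G)

/-- `C` spans a tree: nonempty, connected, without closed non-backtracking walks -/
structure Gr.IsTree (C : Finset V) : Prop where
  nonempty : C.Nonempty
  conn : ∀ x ∈ C, ∀ z ∈ C, ∃ l, G.IsWalk C x l z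
  acyc : ∀ x l, G.IsWalk C x l x → G.NB l → l = []

/-- the vertices outside `X` adjacent to `X` -/
def Gr.nb [Fintype V] (X : Finset V) : Finset V :=
  Finset.univ.filter (fun x => x ∉ X ∧ ∃ d, G.s d = x ∧ G.t d ∈ X)

theorem Gr.mem_nb [Fintype V] {X : Finset V} {x : V} :
    x ∈ G.nb X ↔ x ∉ X ∧ ∃ d, G.s d = x ∧ G.t d ∈ X := by
  simp [Gr.nb]

/-- the connected components of `G - S` which are trees -/
def Gr.TC [Fintype V] (S : Finset V) : Finset (Finset V) :=
  Finset.univ.filter (fun C => G.IsTree C ∧ Disjoint C S ∧ G.nb C ⊆ S)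

/-- pairwise disjoint and pairwise non-adjacent vertex sets, each spanning a tree -/
structure Gr.Fam (k : ℕ) (C : Fin k → Finset V) : Prop where
  tree : ∀ i, G.IsTree (C i)
  disj : ∀ i j, i ≠ j → Disjoint (C i) (C j)
  sep : ∀ i j d, i ≠ j → G.s d ∈ C i → G.t d ∉ C j

/-- `lam` is an eigenvalue of the part on `C` of the finite matrix -/
def Gr.Eig [Fintype D] (b : V → ℂ) (a : D → ℂ) (lam : ℂ) (C : Finset V) : Prop :=
  ∃ f : V → ℂ, (∃ x, f x ≠ 0) ∧ (∀ x, x ∉ C → f x = 0) ∧
    ∀ x ∈ C, b x * f x + ∑ d ∈ Finset.univ.filter (fun d => G.s d = x), a d * f (G.t d) =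
      lam * f x

/-- the tree components of `G - S` for which `lam` is an eigenvalue of the block of the matrix -/
def Gr.TCE [Fintype V] [Fintype D] (b : V → ℂ) (a : D → ℂ) (lam : ℂ) (S : Finset V) :
    Finset (Finset V) :=
  (G.TC S).filter (fun C => G.Eig b a lam C)

variable {G}

theorem Gr.IsTree.uniq (h : G.IsTree C) {x : V} (hx : x ∈ C) {g g' : FreeGroup D}
    (hr : G.Rel C (x, g) (x, g')) : g = g' := by
  obtain ⟨l, h1, h2, h3⟩ := hr.walk hx
  have h4 := h.acyc x l h1 h2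
  subst h4
  simpa using h3.symm

theorem isTree_of (hne : C.Nonempty) (hconn : ∀ x ∈ C, ∀ z ∈ C, ∃ h, G.Rel C (x, 1) (z, h))
    (hac : ∀ x ∈ C, ∀ h, G.Rel C (x, 1) (x, h) → h = 1) : G.IsTree C := by
  refine ⟨hne, ?_, ?_⟩
  · intro x hx z hz
    obtain ⟨h, h1⟩ := hconn x hx z hz
    obtain ⟨l, h2, _, _⟩ := h1.walk hz
    exact ⟨l, h2⟩
  · intro x l h1 h2
    apply G.vol_ne_one h2
    have := h1.rel 1
    rw [one_mul] at this
    exact hac x h1.memL _ this

/-- potential -/
theorem Gr.IsTree.potential (h : G.IsTree C) : ∃ x ∈ C, ∃ pt : V → FreeGroup D,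
    ∀ d, G.s d ∈ C → G.t d ∈ C → pt (G.t d) = pt (G.s d) * G.y d := by
  obtain ⟨x, hx⟩ := h.nonempty
  have h1 : ∀ z, ∃ g, z ∈ C → G.Rel C (x, 1) (z, g) := by
    intro z
    by_cases hz : z ∈ C
    · obtain ⟨l, hl⟩ := h.conn x hx z hz
      exact ⟨_, fun _ => hl.rel 1⟩
    · exact ⟨1, fun h => absurd h hz⟩
  choose pt hpt using h1
  refine ⟨x, hx, pt, fun d hs ht => ?_⟩
  have h2 := hpt _ hs
  have h3 : G.Rel C (x, 1) (G.t d, pt (G.s d) * G.y d) :=
    Relation.ReflTransGen.tail h2 ⟨d, rfl, hs, ht, rfl⟩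
  exact h.uniq ht ((hpt _ ht).symm.trans h3)

end

end Pool.Agent.NSA
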